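import Pool.Agent.P.MP_bb4f54_co.T4.IfaceA

section sA3C
/-! Step A3C. -/

set_option autoImplicit false
set_option linter.unusedSectionVars false

namespace Pool.Agent.P.MP_bb4f54_co.T4



theorem p_A3C :
    S_A3C := by
  intro V _ G R _ U a a' b b' e cb no2 n4 h2 ha hb ha' hb' aa bb hne out nt hl
  classical
  have hre : b ∈ RS G U a := by
    by_contra h
    refine no2 (RS G U a) RS.sub ⟨a, RS.self ha⟩ (a, a') e fun x hx y hy hxy => ?_
    have := out x (RS.sub hx) y (fun hyU => hy (RS.step hx hxy hyU)) hxy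
    simp only [List.mem_cons, List.not_mem_nil, or_false] at this ⊢
    rcases this with h1 | h1 | h1
    · exact Or.inl h1
    · exact absurd ((Prod.mk.inj h1).1 ▸ hx) h
    · exact Or.inr h1
  have hab : a ≠ b := by
    rintro rfl
    obtain ⟨c, -, -, -, hc⟩ := cb.third aa bb fun h => hne (by rw [h])
    obtain ⟨z, hz, hza⟩ := nt.exists_ne a
    refine no2 (U \ {a}) Set.sdiff_subset ⟨z, hz, hza⟩ (c, a) e fun x hx y hy hxy => ?_
    simp only [List.mem_cons, List.not_mem_nil, or_false]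
    by_cases hya : y = a
    · subst hya
      rcases hc x hxy.symm with h | h | h
      · exact absurd (h ▸ hx.1) ha'
      · exact absurd (h ▸ hx.1) hb'
      · exact Or.inl (by rw [h])
    · have := out x hx.1 y (fun hyU => hy ⟨hyU, hya⟩) hxy
      simp only [List.mem_cons, List.not_mem_nil, or_false] at this
      rcases this with h1 | h1 | h1
      · exact absurd (congrArg Prod.fst h1) hx.2
      · exact absurd (congrArg Prod.fst h1) hx.2
      · exact Or.inr h1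
  have hex : ∃ n, PL G U a b n := hre
  obtain ⟨n, hn, hmin⟩ : ∃ n, PL G U a b n ∧ ∀ m, PL G U a b m → n ≤ m :=
    ⟨Nat.find hex, Nat.find_spec hex, fun m hm => Nat.find_min' hex hm⟩
  obtain ⟨p, sp, rfl, rfl, pu⟩ := hn.str
  have n0 : 0 < n := Nat.pos_of_ne_zero fun h => hab (by rw [h])
  obtain ⟨O, hO⟩ : ∃ O, O = U \ sg p 0 n := ⟨_, rfl⟩
  have ou : O ⊆ U := hO ▸ Set.sdiff_subset
  have po : ∀ i, i ≤ n → p i ∉ O := fun i hi h => (hO ▸ h).2 (mem_sg (Nat.zero_le _) hi)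
  have pU : ∀ i, i ≤ n → p i ∈ U := fun i hi => pu (mem_sg (Nat.zero_le _) hi)
  have dj : ∀ i j, j ≤ n → Disjoint (sg p i j) O := fun i j hj =>
    Set.disjoint_left.2 fun _ ⟨k, _, h, e⟩ => e ▸ po k (by omega)
  have cas : ∀ y ∈ U, y ∈ O ∨ ∃ i, i ≤ n ∧ y = p i := fun y hy => by
    by_cases h : y ∈ sg p 0 n
    · obtain ⟨k, -, h1, h2⟩ := h
      exact Or.inr ⟨k, h1, h2⟩
    · exact Or.inl (hO ▸ ⟨hy, h⟩)
  have key : ∀ i j m, i < j → j ≤ n → Rg G O (p i) (p j) m → (m : R) + i = j ∧ j ≤ m + i := by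
    intro i j m hij hj hr
    have h := ((sp.pl (Nat.zero_le i) (by omega)).via hr (sp.pl hj le_rfl) (dj _ _ (by omega))
      (sp.disj hij le_rfl) (dj _ _ le_rfl).symm).mono (U' := U) (Set.union_subset
        (Set.union_subset ((sg_mono le_rfl (by omega)).trans pu) ou)
        ((sg_mono (Nat.zero_le _) le_rfl).trans pu))
    have h1 := hmin _ h
    have h3 := hl _ _ h hn
    rw [Nat.sub_zero, Nat.cast_add, Nat.cast_add, Nat.cast_sub hj] at h3
    exact ⟨by linear_combination h3, by omega⟩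
  have ch : ∀ i j, i < j → j ≤ n → G.Adj (p i) (p j) → j = i + 1 := fun i j hij hj h => by
    have := (key i j 1 hij hj (Rg.edge h)).2
    omega
  have two : ∀ i, i ≤ n → ∃ x y, x ≠ y ∧ x ∉ O ∧ y ∉ O ∧ G.Adj (p i) x ∧ G.Adj (p i) y := by
    intro i hi
    rcases i with _ | i
    · exact ⟨a', p 1, fun h => ha' (h ▸ pU 1 n0), fun h => ha' (ou h), po 1 n0, aa, sp.adj 0 n0⟩
    · rcases hi.eq_or_lt with h | h
      · exact ⟨b', p i, fun h => hb' (h ▸ pU i (by omega)), fun h => hb' (ou h), po i (by omega),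
          h ▸ bb, (sp.adj i hi).symm⟩
      · exact ⟨p i, p (i + 1 + 1), fun e => by have := sp.inj _ _ (by omega) h e; omega,
          po i (by omega), po _ h, (sp.adj i hi).symm, sp.adj _ h⟩
  have hne' : O.Nonempty := by
    by_contra hE
    have hE' : ∀ y ∈ U, ∃ i, i ≤ n ∧ y = p i := fun y hy =>
      (cas y hy).resolve_left fun h => hE ⟨y, h⟩
    obtain ⟨c, c0, c1, c2, -⟩ := cb.third aa (sp.adj 0 n0) fun h => ha' (h ▸ pU 1 n0)
    obtain ⟨k, rfl⟩ : ∃ k, n = k + 1 := ⟨n - 1, by omega⟩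
    obtain ⟨d, d0, d1, d2, -⟩ := cb.third bb (sp.adj k (by omega)).symm
      fun h => hb' (h ▸ pU k (by omega))
    have hc : c ∉ U := fun h => by
      obtain ⟨i, hi, rfl⟩ := hE' c h
      exact c2 (congrArg p (ch 0 i (Nat.pos_of_ne_zero fun e => c0.ne (by rw [e])) hi c0))
    have hd : d ∉ U := fun h => by
      obtain ⟨i, hi, rfl⟩ := hE' d h
      have := ch i (k + 1) (lt_of_le_of_ne hi fun e => d0.ne (by rw [e])) le_rfl d0.symm
      exact d2 (congrArg p (by omega))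
    have e1 := out _ ha c hc c0
    have e2 := out _ hb d hd d0
    simp only [List.mem_cons, List.not_mem_nil, or_false] at e1 e2
    rcases e1 with h | h | h
    · exact c1 (congrArg Prod.snd h)
    · exact hab (congrArg Prod.fst h)
    rcases e2 with h' | h' | h'
    · exact hab (congrArg Prod.fst h').symm
    · exact d1 (congrArg Prod.snd h')
    · exact hab (congrArg Prod.fst (h.trans h'.symm))
  have uq : ∀ k ∈ O, ∀ i j, i < j → j ≤ n → G.Adj (p i) k → G.Adj (p j) k → False := by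
    intro k hk i j hij hj e1 e2
    obtain ⟨h3, h4⟩ := key i j 2 hij hj ((Rg.two e1 e2).mono (Set.singleton_subset_iff.2 hk))
    by_cases h : j = i + 1
    · subst h
      push_cast at h3
      exact h2 (by linear_combination 2 * h3)
    · refine n4 ⟨p i, k, j - i + 1, ((sp.pl hij.le hj).snoc e2
        (Set.disjoint_right.1 (dj i j hj) hk)).mono (Set.insert_subset (ou hk)
          ((sg_mono (Nat.zero_le _) hj).trans pu)), e1.symm, by omega, by omega⟩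
  refine ⟨O, p, n, ⟨ou, fun h => po 0 (Nat.zero_le _) (h ha)⟩, cb, no2.mono ou, hne', h2, po,
    fun x hx y hxy => ?_, fun i hi k hk k' hk' e1 e2 => ?_, fun k hk i j hi hj e1 e2 => ?_,
    fun i j u v m hij hj h e1 e2 => ?_⟩
  · by_cases hy : y ∈ U
    · exact (cas y hy).imp_right Or.inl
    · have := out x (ou hx) y hy hxy
      simp only [List.mem_cons, List.not_mem_nil, or_false] at this
      rcases this with h | h | h
      · exact absurd ((Prod.mk.inj h).1 ▸ hx) (po 0 (Nat.zero_le _))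
      · exact absurd ((Prod.mk.inj h).1 ▸ hx) (po n le_rfl)
      · exact Or.inr (Or.inr h)
  · obtain ⟨x, y, h1, h3, h4, e3, e4⟩ := two i hi
    have := cb.four e1 e2 e3 e4
    grind
  · rcases lt_trichotomy i j with h | h | h
    · exact (uq k hk i j h hj e1 e2).elim
    · exact h
    · exact (uq k hk j i h hi e2 e1).elim
  · have := (key i j _ hij hj (h.rg e1 e2)).1
    push_cast at this
    exact this

end Pool.Agent.P.MP_bb4f54_co.T4

end sA3C

section sDB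
/-! Step DB. -/

set_option autoImplicit false
set_option linter.unusedSectionVars false

namespace Pool.Agent.P.MP_bb4f54_co.T4

namespace DBx

variable {V : Type} {G : SimpleGraph V} {R : Type} [CommRing R] {W O N : Set V} {p q : ℕ → V}
  {a b : ℕ}

/-- A leaving edge that leads to `t`. -/
def Ft (G : SimpleGraph V) (O N : Set V) (e : V × V) (t : V) : Prop :=
  (e.1 ∈ N ∧ e.2 ∉ N ∧ G.Adj e.1 e.2) ∧ ∃ X n, X ⊆ O \ N ∧ Rg G X e.1 t n ∧
    ((X = ∅ ∧ t = e.2) ∨ (e.2 ∈ O ∧ ∃ y ∈ X, G.Adj t y))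

lemma real {e₁ e₂ e₃ : V × V} (h2 : ∀ e e', ¬ Out G N [e, e']) (ho : Out G N [e₁, e₂, e₃]) :
    (e₁.1 ∈ N ∧ e₁.2 ∉ N ∧ G.Adj e₁.1 e₁.2) ∧ e₁ ≠ e₂ ∧ e₁ ≠ e₃ := by
  by_contra hc
  refine h2 e₂ e₃ (ho.mono fun x hx y hy h hm => ?_)
  simp only [List.mem_cons, List.not_mem_nil, or_false] at hm ⊢
  rcases hm with rfl | hm
  · by_contra h'
    exact hc ⟨⟨hx, hy, h⟩, not_or.1 h'⟩
  · exact hm

lemma foot [Fintype V] (hMNS : S_MNS) (c : DC G R W O p q a b) (hN : Mn G O N) {e : V × V}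
    (he : e.1 ∈ N ∧ e.2 ∉ N ∧ G.Adj e.1 e.2) :
    ∃ t, Ft G O N e t ∧ ((∃ i, i ≤ a ∧ t = p i) ∨ ∃ j, j ≤ b ∧ t = q j) := by
  rcases c.clo _ (hN.sub he.1) _ he.2.2 with h | h
  · have hs : RS G (O \ N) e.2 ⊆ O := RS.sub.trans Set.sdiff_subset
    have h1 := c.no2 _ hs ⟨_, RS.self ⟨h, he.2.1⟩⟩ (e.2, e.1) (e.2, e.1)
    simp only [Out, not_forall] at h1
    obtain ⟨x, hx, y, hy, hxy, h1⟩ := h1
    obtain ⟨n, hn⟩ := RS.pl hx
    refine ⟨y, ⟨he, _, _, RS.sub, hn.rg he.2.2 hxy.symm, Or.inr ⟨h, x, hx, hxy.symm⟩⟩,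
      (c.clo x (hs hx) y hxy).resolve_left fun h2 => h1 ?_⟩
    rw [(hMNS G O c.cb).2.2 N _ _ hN.le he.1 h he.2.1 he.2.2 x hx y h2 hy hxy]
    exact List.mem_cons_self
  · exact ⟨_, ⟨he, ∅, 1, Set.empty_subset _, Rg.edge he.2.2, Or.inl ⟨rfl, rfl⟩⟩, h⟩

lemma core (c : DC G R W O p q a b) (hA : A3s G R N) (hN : Mn G O N) (hB : Big G N)
    {e e' e'' : V × V} {i i' : ℕ} (hi : i ≤ a) (hi' : i' ≤ a) (h : Ft G O N e (p i))
    (h' : Ft G O N e' (p i')) (hne : e ≠ e') (ho : Out G N [e, e', e'']) : False := by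
  obtain ⟨h1, X, n, hX, hr, hc⟩ := h
  obtain ⟨h1', X', n', hX', hr', hc'⟩ := h'
  obtain ⟨f, hf⟩ := hN.le
  have h2 : ¬ (e.2 ∈ O ∧ e'.2 ∈ O) := fun ⟨u, v⟩ =>
    hne ((hf _ h1.1 _ u h1.2.1 h1.2.2).trans (hf _ h1'.1 _ v h1'.2.1 h1'.2.2).symm)
  have hd : Disjoint X X' := by
    rcases hc with ⟨rfl, -⟩ | ⟨u, -⟩
    · exact Set.empty_disjoint _
    rcases hc' with ⟨rfl, -⟩ | ⟨v, -⟩
    · exact Set.disjoint_empty _
    exact absurd ⟨u, v⟩ h2
  have hii : i ≠ i' := by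
    rintro rfl
    have up := fun k k' u v (w : k ∈ O) (w' : k' ∈ O) =>
      c.up i hi k k' u v (Or.inl w) (Or.inl w')
    rcases hc with ⟨-, u⟩ | ⟨u, y, hy, u'⟩ <;> rcases hc' with ⟨-, v⟩ | ⟨v, y', hy', v'⟩
    · exact hne (Prod.ext (up _ _ (u ▸ h1.2.2.symm) (v ▸ h1'.2.2.symm) (hN.sub h1.1)
        (hN.sub h1'.1)) (u.symm.trans v))
    · exact (hX' hy').2 (up _ _ (u ▸ h1.2.2.symm) v' (hN.sub h1.1) (hX' hy').1 ▸ h1.1)
    · exact (hX hy).2 (up _ _ (v ▸ h1'.2.2.symm) u' (hN.sub h1'.1) (hX hy).1 ▸ h1'.1)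
    · exact h2 ⟨u, v⟩
  have key : ∀ m, PL G N e.1 e'.1 m → Rg G O (p i) (p i') (n + m + n') := fun m hm =>
    (hr.symm.cat hm hr' (Set.disjoint_sdiff_right.mono_right hX)
      (Set.disjoint_sdiff_right.mono_right hX') hd).mono (Set.union_subset (Set.union_subset hN.sub
        (hX.trans Set.sdiff_subset)) (hX'.trans Set.sdiff_subset))
  obtain ⟨x, hx, y, hy, -, -, hxy, -⟩ := hB.thr
  refine c.h2 (hA e.1 e.2 e'.1 e'.2 e'' h1.1 h1'.1 h1.2.1 h1'.2.1 h1.2.2 h1'.2.2 hne ho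
    ⟨x, hx, y, hy, hxy⟩ fun m m' hm hm' => ?_)
  rcases lt_or_gt_of_ne hii with l | l
  · have u := (c.rp _ _ _ l hi' (key m hm)).1
    have v := (c.rp _ _ _ l hi' (key m' hm')).1
    push_cast at u v
    linear_combination u - v
  · have u := (c.rp _ _ _ l hi (key m hm).symm).1
    have v := (c.rp _ _ _ l hi (key m' hm').symm).1
    push_cast at u v
    linear_combination u - v

end DBx

open DBx

theorem p_DB (hMNS : S_MNS) (hD1 : S_D1) :
    S_DB := by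
  intro V _ G R _ W O p q a b c hA N hN hB e₁ e₂ e₃ o₁
  have o₂ : Out G N [e₂, e₃, e₁] := o₁.mono fun _ _ _ _ _ h => by simp at h ⊢; tauto
  have o₃ : Out G N [e₃, e₁, e₂] := o₁.mono fun _ _ _ _ _ h => by simp at h ⊢; tauto
  have h2 := c.no2 N hN.sub hN.ne
  have A := hA N hN.sub
  obtain ⟨r₁, n₁, -⟩ := real h2 o₁
  obtain ⟨r₂, n₂, -⟩ := real h2 o₂
  obtain ⟨r₃, n₃, -⟩ := real h2 o₃
  obtain ⟨_, f₁, ⟨i₁, l₁, rfl⟩ | ⟨i₁, l₁, rfl⟩⟩ := foot hMNS c hN r₁ <;>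
  obtain ⟨_, f₂, ⟨i₂, l₂, rfl⟩ | ⟨i₂, l₂, rfl⟩⟩ := foot hMNS c hN r₂ <;>
  obtain ⟨_, f₃, ⟨i₃, l₃, rfl⟩ | ⟨i₃, l₃, rfl⟩⟩ := foot hMNS c hN r₃ <;>
  first
    | exact core c A hN hB l₁ l₂ f₁ f₂ n₁ o₁
    | exact core c A hN hB l₂ l₃ f₂ f₃ n₂ o₂
    | exact core c A hN hB l₃ l₁ f₃ f₁ n₃ o₃
    | exact core c.swap A hN hB l₁ l₂ f₁ f₂ n₁ o₁
    | exact core c.swap A hN hB l₂ l₃ f₂ f₃ n₂ o₂
    | exact core c.swap A hN hB l₃ l₁ f₃ f₁ n₃ o₃

end Pool.Agent.P.MP_bb4f54_co.T4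

end sDB

section sA3M
/-! Step A3M. -/

set_option autoImplicit false
set_option linter.unusedSectionVars false

namespace Pool.Agent.P.MP_bb4f54_co.T4

namespace A3Mx

theorem tri (P : ℕ → Prop) : (∃ i j k, i < j ∧ j < k ∧ P i ∧ P j ∧ P k) ∨
    (∃ i j, i < j ∧ P i ∧ P j ∧ ∀ l, P l → l = i ∨ l = j) ∨
    (∃ i, P i ∧ ∀ l, P l → l = i) ∨ ∀ l, ¬ P l := by
  by_contra h
  simp only [not_or, not_exists, not_and, not_forall, not_not] at h
  obtain ⟨h3, h2, h1, i, hi⟩ := h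
  obtain ⟨j, hj, e⟩ := h1 i hi
  rcases Nat.lt_or_gt_of_ne e with c | c
  · obtain ⟨k, hk, e1, e2⟩ := h2 j i c hj hi
    have := h3 k j i; have := h3 j k i; have := h3 j i k
    grind
  · obtain ⟨k, hk, e1, e2⟩ := h2 i j c hi hj
    have := h3 k i j; have := h3 i k j; have := h3 i j k
    grind

theorem red (hMNS : S_MNS) {V : Type} [Fintype V] {G : SimpleGraph V} {R : Type} [CommRing R]
    {O : Set V} {p : ℕ → V} {a : ℕ} {e : V × V} (h : AC G R O p a e) :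
    ∃ N, ∃ f : V × V, Mn G O N ∧
      ∀ x ∈ N, ∀ y, y ∉ N → G.Adj x y → (∃ i, i ≤ a ∧ y = p i) ∨ (x, y) = f := by
  obtain ⟨m1, -, m3⟩ := hMNS G O h.cb
  have key : ∀ N, Mn G O N → e.1 ∉ N → ∃ N, ∃ f : V × V, Mn G O N ∧
      ∀ x ∈ N, ∀ y, y ∉ N → G.Adj x y → (∃ i, i ≤ a ∧ y = p i) ∨ (x, y) = f := fun N hN he => by
    obtain ⟨f, hf⟩ := hN.le
    refine ⟨N, f, hN, fun x hx y hy ha => ?_⟩
    rcases h.clo x (hN.sub hx) y ha with c | c | c
    · exact Or.inr (hf x hx y c hy ha)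
    · exact Or.inl c
    · exact absurd (c ▸ hx) he
  obtain ⟨N, -, hN⟩ := m1 O le_rfl h.ne (le1_self h.ne)
  by_cases he : e.1 ∈ N
  · by_cases hz : ∃ z ∈ N, ∃ z' ∈ O, z' ∉ N ∧ G.Adj z z'
    · obtain ⟨z, hz, z', h1, h2, h3⟩ := hz
      obtain ⟨N', hs, hN'⟩ := m1 (RS G (O \ N) z') (RS.sub.trans Set.sdiff_subset)
        ⟨z', RS.self ⟨h1, h2⟩⟩ ⟨(z', z), m3 N z z' hN.le hz h1 h2 h3⟩
      exact key N' hN' fun c => (RS.sub (hs c)).2 he
    · refine ⟨N, e, hN, fun x hx y hy ha => ?_⟩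
      exact (h.clo x (hN.sub hx) y ha).resolve_left fun c => hz ⟨x, hx, y, c, hy, ha⟩
  · exact key N hN he

end A3Mx

open A3Mx in
theorem p_A3M (hMNS : S_MNS) (hTHV : S_THV) :
    S_A3M := by
  intro V _ G R _ O p a e h hA
  obtain ⟨N, f, hN, ho⟩ := red hMNS h
  have hs := hN.sub
  have hp : ∀ i, i ≤ a → p i ∉ N := fun i hi c => h.po i hi (hs c)
  rcases (hMNS G O h.cb).2.1 N hN with ⟨x, rfl⟩ | hB
  · obtain ⟨u, v, w, e1, e2, e3, hx⟩ := h.cb x
    have key : ∀ y y', G.Adj x y → G.Adj x y' → y ≠ y' → y = f.2 ∨ y' = f.2 := by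
      intro y y' c c' hne
      rcases ho x rfl y c.ne' c with ⟨i, hi, rfl⟩ | d
      · rcases ho x rfl y' c'.ne' c' with ⟨j, hj, rfl⟩ | d'
        · exact absurd (congrArg p (h.uq x (hs rfl) i j hi hj c.symm c'.symm)) hne
        · exact Or.inr (congrArg Prod.snd d')
      · exact Or.inl (congrArg Prod.snd d)
    have := key u v ((hx u).2 (by simp)) ((hx v).2 (by simp)) e1
    have := key u w ((hx u).2 (by simp)) ((hx w).2 (by simp)) e2
    have := key v w ((hx v).2 (by simp)) ((hx w).2 (by simp)) e3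
    grind
  rcases tri fun i => i ≤ a ∧ ∃ k ∈ N, G.Adj (p i) k with
    ⟨i, j, l, c1, c2, ⟨hi, u, hu, au⟩, ⟨hj, v, hv, av⟩, hl, w, hw, aw⟩ |
    ⟨i, j, c1, ⟨hi, u, hu, au⟩, ⟨hj, v, hv, av⟩, hall⟩ | ⟨i, ⟨hi, u, hu, au⟩, hall⟩ | hall
  · obtain ⟨U₁, U₂, n₁, n₂, s1, s2, q1, q2, hd⟩ := hTHV G N u v w h.cb hB hu hv hw
      (fun c => (c1.trans c2).ne (h.uq u (hs hu) i l hi hl au (c ▸ aw)))
      ⟨_, hp i hi, au.symm⟩ ⟨_, hp l hl, aw.symm⟩
    have r1 := h.rp i j u v n₁ c1 hj (q1.symm.mono (s1.trans hs)) au av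
    have r2 := h.rp j l v w n₂ c2 hl (q2.mono (s2.trans hs)) av aw
    have r3 := h.rp i l u w _ (c1.trans c2) hl
      ((q1.symm.concat q2 hd).mono ((Set.union_subset s1 s2).trans hs)) au aw
    push_cast at r3
    exact h.h2 (by linear_combination r1 + r2 - r3)
  · have huv : u ≠ v := fun c => c1.ne (h.uq u (hs hu) i j hi hj au (c ▸ av))
    refine h.h2 (hA N hs u (p i) v (p j) f hu hv (hp i hi) (hp j hj) au.symm av.symm
      (fun c => huv (congrArg Prod.fst c)) (fun x hx y hy ha => ?_) ⟨u, hu, v, hv, huv⟩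
      fun n m q1 q2 => ?_)
    · rcases ho x hx y hy ha with ⟨l, hl, rfl⟩ | c
      · rcases hall l ⟨hl, x, hx, ha.symm⟩ with rfl | rfl
        · simp [h.up l hl x (hs hx) u (hs hu) ha.symm au]
        · simp [h.up l hl x (hs hx) v (hs hv) ha.symm av]
      · simp [c]
    · have r1 := h.rp i j u v n c1 hj (q1.mono hs) au av
      have r2 := h.rp i j u v m c1 hj (q2.mono hs) au av
      linear_combination r1 - r2
  · refine h.no2 N hs hN.ne (u, p i) f fun x hx y hy ha => ?_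
    rcases ho x hx y hy ha with ⟨l, hl, rfl⟩ | c
    · obtain rfl := hall l ⟨hl, x, hx, ha.symm⟩
      simp [h.up l hl x (hs hx) u (hs hu) ha.symm au]
    · simp [c]
  · refine h.no2 N hs hN.ne f f fun x hx y hy ha => ?_
    rcases ho x hx y hy ha with ⟨l, hl, rfl⟩ | c
    · exact absurd ⟨hl, x, hx, ha.symm⟩ (hall l)
    · simp [c]

end Pool.Agent.P.MP_bb4f54_co.T4

end sA3M

section sDC4
/-! Step DC4. -/

set_option autoImplicit false
set_option linter.unusedSectionVars false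

namespace Pool.Agent.P.MP_bb4f54_co.T4



theorem p_DC4 (hMNS : S_MNS) (hDA : S_DA) (hDB : S_DB) (hDPQ : S_DPQ) (hDC2 : S_DC2) :
    S_DC4 := by
  intro V _ G R _ W O p q a b c hA hD N hM hB k k' m i i' j e hk hk' hm ii ia jb ak ak' am hO
  have pn : ∀ {u}, u ≤ a → p u ∉ N := fun h h' => c.pno h (hM.sub h')
  have qn : ∀ {u}, u ≤ b → q u ∉ N := fun h h' => c.qno h (hM.sub h')
  have ia' : i ≤ a := by omega
  obtain ⟨x, hx, y, hy, xy, hn⟩ : ∃ x ∈ N, ∃ y, y ∉ N ∧ G.Adj x y ∧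
      (x, y) ∉ [(k, p i), (k', p i'), (m, q j)] := by
    by_contra hc
    refine hDB G R W O p q a b c hA N hM hB (k, p i) (k', p i') (m, q j) fun x hx y hy xy => ?_
    by_contra h
    exact hc ⟨x, hx, y, hy, xy, h⟩
  obtain rfl : (x, y) = e := by
    have := hO x hx y hy xy
    simp only [List.mem_cons, List.not_mem_nil, or_false, not_or] at this hn
    tauto
  simp only [List.mem_cons, List.not_mem_nil, or_false, not_or] at hn
  have xk : x ≠ k := by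
    rintro rfl
    exact hn.1 (by rw [hB.one x hx _ _ hy (pn ia') xy ak.symm])
  have xk' : x ≠ k' := by
    rintro rfl
    exact hn.2.1 (by rw [hB.one x hx _ _ hy (pn ia) xy ak'.symm])
  have xm : x ≠ m := by
    rintro rfl
    exact hn.2.2 (by rw [hB.one x hx _ _ hy (qn jb) xy am.symm])
  have kk : k ≠ k' := by
    rintro rfl
    have := c.sp.inj _ _ ia' ia (hB.one k hk _ _ (pn ia') (pn ia) ak.symm ak'.symm)
    omega
  have km : k ≠ m := by
    rintro rfl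
    exact c.pq ia' jb (hB.one k hk _ _ (pn ia') (qn jb) ak.symm am.symm)
  have km' : k' ≠ m := by
    rintro rfl
    exact c.pq ia jb (hB.one k' hk' _ _ (pn ia) (qn jb) ak'.symm am.symm)
  have em : (∅ : Set V) ⊆ O \ N := Set.empty_subset _
  have fin : ∀ X v n, X ⊆ O \ N → v ≤ b → v ≠ j → Rg G X x (q v) n → False := by
    intro X v n hX vb vj r
    rcases lt_or_gt_of_ne vj with h | h
    · refine hDC2 G R W O p q a b c hD N X ∅ k k' x y m (q j) i i' v j n 1 hM.sub hB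
        ⟨⟨hk, hx, hk', hm⟩, ⟨pn ia', hy, pn ia, qn jb⟩, ⟨ak.symm, xy, ak'.symm, am.symm⟩,
          ⟨fun e => kk (congrArg Prod.fst e), fun e => km (congrArg Prod.fst e),
            fun e => xk' (congrArg Prod.fst e), fun e => xm (congrArg Prod.fst e)⟩,
          hO.mono fun _ _ _ _ _ h => ?_⟩ xk.symm km' ii ia h jb hX em (Set.disjoint_empty _) r
        (Rg.edge am.symm)
      simp only [List.mem_cons, List.not_mem_nil, or_false] at h ⊢
      tauto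
    · refine hDC2 G R W O p q a b c hD N ∅ X k k' m (q j) x y i i' j v 1 n hM.sub hB
        ⟨⟨hk, hm, hk', hx⟩, ⟨pn ia', qn jb, pn ia, hy⟩, ⟨ak.symm, am.symm, ak'.symm, xy⟩,
          ⟨fun e => kk (congrArg Prod.fst e), fun e => xk (congrArg Prod.fst e).symm,
            fun e => km' (congrArg Prod.fst e).symm, fun e => xm (congrArg Prod.fst e).symm⟩,
          hO.mono fun _ _ _ _ _ h => ?_⟩ km xk'.symm ii ia h vb em hX (Set.empty_disjoint _)
        (Rg.edge am.symm) r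
      simp only [List.mem_cons, List.not_mem_nil, or_false] at h ⊢
      tauto
  rcases c.clo x (hM.sub hx) y xy with hyO | ⟨u, ua, rfl⟩ | ⟨v, vb, rfl⟩
  · obtain ⟨m1, -, m3⟩ := hMNS G O c.cb
    obtain ⟨N', s', hM'⟩ := m1 (RS G (O \ N) y) (fun w hw => (RS.sub hw).1)
      ⟨y, RS.self ⟨hyO, hy⟩⟩ ⟨(y, x), m3 N x y hM.le hx hyO hy xy⟩
    obtain ⟨w, hw, v, vb, av⟩ := hDPQ G R W O q p b a c.swap hA N' hM'
    obtain ⟨n, hp⟩ := RS.pl (s' hw)
    refine fin _ v _ RS.sub vb ?_ (hp.rg xy av)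
    rintro rfl
    have := c.uq v vb w m av am (Or.inl (hM'.sub hw)) (Or.inl (hM.sub hm))
    exact (RS.sub (s' hw)).2 (this ▸ hm)
  · have ui : u ≠ i := by
      rintro rfl
      exact xk (c.up u ua x k xy.symm ak (Or.inl (hM.sub hx)) (Or.inl (hM.sub hk)))
    have ui' : u ≠ i' := by
      rintro rfl
      exact xk' (c.up u ua x k' xy.symm ak' (Or.inl (hM.sub hx)) (Or.inl (hM.sub hk')))
    have de : Disjoint (∅ : Set V) ∅ := Set.disjoint_empty _
    rcases lt_or_gt_of_ne ui with h | h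
    · exact hDA G R W O p q a b c N ∅ ∅ k x k' u i i' 1 1 hM.sub hB hk hx hk' xk' h ii ia ak em em
        de (Rg.edge xy) (Rg.edge ak'.symm)
    rcases lt_or_gt_of_ne ui' with h' | h'
    · exact hDA G R W O p q a b c N ∅ ∅ x k k' i u i' 1 1 hM.sub hB hx hk hk' kk h h' ia xy.symm
        em em de (Rg.edge ak.symm) (Rg.edge ak'.symm)
    · exact hDA G R W O p q a b c N ∅ ∅ k' k x i i' u 1 1 hM.sub hB hk' hk hx xk.symm ii h' ua ak'
        em em de (Rg.edge ak.symm) (Rg.edge xy)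
  · refine fin ∅ v 1 em vb ?_ (Rg.edge xy)
    rintro rfl
    exact xm (c.uq v vb x m xy.symm am (Or.inl (hM.sub hx)) (Or.inl (hM.sub hm)))

end Pool.Agent.P.MP_bb4f54_co.T4

end sDC4

section sDE
/-! Step DE. -/

set_option autoImplicit false
set_option linter.unusedSectionVars false

namespace Pool.Agent.P.MP_bb4f54_co.T4

namespace DEx

variable {V : Type} {G : SimpleGraph V} {R : Type} [CommRing R] {W : Set V} {p q : ℕ → V}
  {a b : ℕ}

/-- A path on the first strand, an edge, a path with one edge on the second strand. -/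
lemma four (h : DC G R W ∅ p q a b) {i j : ℕ} (hi : i + 1 ≤ a) (hj : j + 1 ≤ b) {x y : V}
    (hq : PL G (sg q j (j + 1)) x y 1) (h₁ : G.Adj (p (i + 1)) x) (h₂ : G.Adj y (p i)) :
    False := by
  have hp := h.sp.pl (Nat.le_succ i) hi
  have hd : Disjoint (sg p i (i + 1)) (sg q j (j + 1)) :=
    h.d.mono (sg_mono (Nat.zero_le _) hi) (sg_mono (Nat.zero_le _) hj)
  refine h.n4 ⟨_, _, _, (hp.join h₁ hq hd).mono (Set.union_subset
    ((sg_mono (Nat.zero_le _) hi).trans h.pw) ((sg_mono (Nat.zero_le _) hj).trans h.qw)),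
    h₂, by omega, by omega⟩

lemma qpl (h : DC G R W ∅ p q a b) {j : ℕ} (hj : j + 1 ≤ b) :
    PL G (sg q j (j + 1)) (q j) (q (j + 1)) 1 := by
  have := h.sq.pl (Nat.le_succ j) hj
  rwa [show j.succ - j = 1 by omega] at this

/-- Two chords do not cross. -/
lemma cross (h : DC G R W ∅ p q a b) {i j i' j' : ℕ} (hi : i < i') (hi' : i' ≤ a)
    (hj : j' < j) (hj' : j ≤ b) (h₁ : G.Adj (p i) (q j)) (h₂ : G.Adj (p i') (q j')) : False := by
  have := (h.sw i j i' j' ∅ ∅ 1 1 hi hi' hj hj' le_rfl le_rfl (by simp) (Rg.edge h₁)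
    (Rg.edge h₂)).2
  obtain rfl : i' = i + 1 := by omega
  obtain rfl : j = j' + 1 := by omega
  exact four h hi' hj' (qpl h hj') h₂ h₁.symm

lemma nbp (h : DC G R W ∅ p q a b) {i : ℕ} (hi : i ≤ a) : ∃ j, j ≤ b ∧ G.Adj (p i) (q j) := by
  obtain ⟨k, e, hk | ⟨j, -, hj, rfl⟩⟩ := h.tp i hi
  · exact hk.elim
  · exact ⟨j, hj, e⟩

lemma nbq (h : DC G R W ∅ p q a b) {j : ℕ} (hj : j ≤ b) : ∃ i, i ≤ a ∧ G.Adj (p i) (q j) := by
  obtain ⟨k, e, hk | ⟨i, -, hi, rfl⟩⟩ := h.tq j hj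
  · exact hk.elim
  · exact ⟨i, hi, e.symm⟩

lemma unp (h : DC G R W ∅ p q a b) {i j j' : ℕ} (hi : i ≤ a) (hj : j ≤ b) (hj' : j' ≤ b)
    (h₁ : G.Adj (p i) (q j)) (h₂ : G.Adj (p i) (q j')) : j = j' :=
  h.sq.inj _ _ hj hj' (h.up i hi _ _ h₁ h₂ (Or.inr (mem_sg (Nat.zero_le _) hj))
    (Or.inr (mem_sg (Nat.zero_le _) hj')))

lemma unq (h : DC G R W ∅ p q a b) {i i' j : ℕ} (hi : i ≤ a) (hi' : i' ≤ a) (hj : j ≤ b)
    (h₁ : G.Adj (p i) (q j)) (h₂ : G.Adj (p i') (q j)) : i = i' :=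
  h.sp.inj _ _ hi hi' (h.uq j hj _ _ h₁.symm h₂.symm (Or.inr (mem_sg (Nat.zero_le _) hi))
    (Or.inr (mem_sg (Nat.zero_le _) hi')))

end DEx

open DEx in
theorem p_DE :
    S_DE := by
  intro V G R _ W p q a b h
  by_contra ha
  have ha1 : 0 + 1 ≤ a := by omega
  obtain ⟨j₀, hj₀, e₀⟩ := nbp h (Nat.zero_le a)
  obtain ⟨i₀, hi₀, f₀⟩ := nbq h (Nat.zero_le b)
  have z₀ : j₀ = 0 := by
    by_contra hne
    rcases Nat.eq_zero_or_pos i₀ with rfl | hpos
    · exact hne (unp h hi₀ hj₀ (Nat.zero_le _) e₀ f₀)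
    · exact cross h hpos hi₀ (Nat.pos_of_ne_zero hne) hj₀ e₀ f₀
  subst z₀
  obtain ⟨j₁, hj₁, e₁⟩ := nbp h ha1
  have n₁ : j₁ ≠ 0 := by
    rintro rfl
    have := unq h (Nat.zero_le _) ha1 hj₁ e₀ e₁
    omega
  have hb1 : 0 + 1 ≤ b := by omega
  obtain ⟨i₁, hi₁, f₁⟩ := nbq h hb1
  have z₁ : j₁ = 0 + 1 := by
    by_contra hne
    rcases Nat.lt_trichotomy i₁ (0 + 1) with hlt | rfl | hgt
    · obtain rfl : i₁ = 0 := by omega
      have := unp h hi₁ (Nat.zero_le _) hb1 e₀ f₁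
      omega
    · exact hne (unp h hi₁ hj₁ hb1 e₁ f₁)
    · exact cross h hgt hi₁ (by omega) hj₁ e₁ f₁
  subst z₁
  exact four h ha1 hb1 (qpl h hb1).symm e₁ e₀.symm

end Pool.Agent.P.MP_bb4f54_co.T4

end sDE

section sDPQ
/-! Step DPQ. -/

set_option autoImplicit false
set_option linter.unusedSectionVars false

namespace Pool.Agent.P.MP_bb4f54_co.T4

namespace DPQx

theorem two (J : ℕ → Prop) (h : ∀ i j k, J i → J j → J k → ¬ (i < j ∧ j < k)) :
    ∃ i j, ∀ k, J k → k = i ∨ k = j := by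
  by_cases h1 : ∃ i, J i
  · obtain ⟨i, hi⟩ := h1
    by_cases h2 : ∃ j, J j ∧ j ≠ i
    · obtain ⟨j, hj, hij⟩ := h2
      refine ⟨i, j, fun k hk => ?_⟩
      have a1 := h i j k hi hj hk
      have a2 := h i k j hi hk hj
      have a3 := h j i k hj hi hk
      have a4 := h j k i hj hk hi
      have a5 := h k i j hk hi hj
      have a6 := h k j i hk hj hi
      omega
    · exact ⟨i, i, fun k hk => Or.inl (by_contra fun e => h2 ⟨k, hk, e⟩)⟩
  · exact ⟨0, 0, fun k hk => absurd ⟨k, hk⟩ h1⟩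

end DPQx

theorem p_DPQ (hMNS : S_MNS) (hD1 : S_D1) (hDA : S_DA) (hDB : S_DB) :
    S_DPQ := by
  intro V _ G R _ W O p q a b h hA N hN
  by_contra hc
  obtain ⟨e, he⟩ := hN.le
  have d1 := (hD1 G R W O q p b a h.swap).1
  have out : ∀ x ∈ N, ∀ y, y ∉ N → G.Adj x y → (x, y) = e ∨ ∃ j, j ≤ b ∧ y = q j := by
    intro x hx y hy ha
    rcases h.clo x (hN.sub hx) y ha with h1 | ⟨i, hi, rfl⟩ | h1
    · exact Or.inl (he x hx y h1 hy ha)
    · exact absurd ⟨x, hx, i, hi, ha.symm⟩ hc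
    · exact Or.inr h1
  rcases (hMNS G O h.cb).2.1 N hN with ⟨x, rfl⟩ | hB
  · obtain ⟨u, v, w, n1, n2, n3, hx⟩ := h.cb x
    have hxO : x ∈ O := hN.sub rfl
    have key : ∀ y y', G.Adj x y → G.Adj x y' → y ≠ y' → (x, y) = e ∨ (x, y') = e := by
      intro y y' a1 a2 ne
      rcases out x rfl y a1.ne' a1 with h1 | ⟨j, hj, rfl⟩
      · exact Or.inl h1
      rcases out x rfl y' a2.ne' a2 with h2 | ⟨j', hj', rfl⟩
      · exact Or.inr h2
      exact absurd (congrArg q (d1 x hxO j j' hj hj' a1.symm a2.symm)) ne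
    have au := (hx u).2 (Or.inl rfl)
    have av := (hx v).2 (Or.inr (Or.inl rfl))
    have aw := (hx w).2 (Or.inr (Or.inr rfl))
    have k1 := key u v au av n1
    have k2 := key u w au aw n2
    have k3 := key v w av aw n3
    grind
  · obtain ⟨j₁, j₂, hJ⟩ := DPQx.two (fun j => j ≤ b ∧ ∃ k ∈ N, G.Adj (q j) k) (by
      rintro i j k ⟨hi, u, hu, au⟩ ⟨-, v, hv, av⟩ ⟨hk, w, hw, aw⟩ ⟨h1, h2⟩
      refine hDA G R W O q p b a h.swap N ∅ ∅ v u w i j k 1 1 hN.sub hB hv hu hw ?_ h1 h2 hk av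
        (Set.empty_subset _) (Set.empty_subset _) disjoint_bot_left (Rg.edge au.symm)
        (Rg.edge aw.symm)
      rintro rfl
      have := d1 u (hN.sub hu) i k hi hk au aw
      omega)
    have hf : ∀ j, ∃ k, ∀ x ∈ N, j ≤ b → G.Adj (q j) x → x = k := fun j => by
      by_cases h1 : ∃ k ∈ N, G.Adj (q j) k
      · obtain ⟨k, hk, ak⟩ := h1
        exact ⟨k, fun x hx hj ax =>
          h.uq j hj x k ax ak (Or.inl (hN.sub hx)) (Or.inl (hN.sub hk))⟩
      · exact ⟨q j, fun x hx _ ax => absurd ⟨x, hx, ax⟩ h1⟩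
    choose f hf using hf
    refine hDB G R W O p q a b h hA N hN hB e (f j₁, q j₁) (f j₂, q j₂) fun x hx y hy ha => ?_
    rcases out x hx y hy ha with h1 | ⟨j, hj, rfl⟩
    · simp [h1]
    · have h2 := hf j x hx hj ha.symm
      rcases hJ j ⟨hj, x, hx, ha.symm⟩ with rfl | rfl <;> simp [h2]

end Pool.Agent.P.MP_bb4f54_co.T4

end sDPQ

section sMNS
/-! Step MNS. -/

set_option autoImplicit false
set_option linter.unusedSectionVars false

namespace Pool.Agent.P.MP_bb4f54_co.T4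

namespace MNSx

theorem ec {V : Type} {G : SimpleGraph V} {T N : Set V} (h : Mn G T N) :
    ∀ Y ⊆ N, Y.Nonempty → Y ≠ N → ¬ Le1 G Y N := by
  rintro Y hY ⟨y₀, hy₀⟩ hne ⟨e', he'⟩
  obtain ⟨e, he⟩ := h.le
  by_cases hc : e.1 ∈ Y
  · have h1 : (N \ Y).Nonempty := by
      by_contra hn
      exact hne (hY.antisymm fun x hx => by_contra fun hx' => hn ⟨x, hx, hx'⟩)
    have h2 := h.min (N \ Y) Set.sdiff_subset h1 ⟨e'.swap, fun x hx y hy hy' ha => by
      by_cases hN : y ∈ N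
      · have hyY : y ∈ Y := by_contra fun hn => hy' ⟨hN, hn⟩
        rw [← he' y hyY x hx.1 hx.2 ha.symm]
        rfl
      · rw [← he x hx.1 y hy hN ha] at hc
        exact absurd hc hx.2⟩
    have h3 : y₀ ∈ N \ Y := h2.symm ▸ hY hy₀
    exact h3.2 hy₀
  · refine hne (h.min Y hY ⟨y₀, hy₀⟩ ⟨e', fun x hx y hy hy' ha => ?_⟩)
    by_cases hN : y ∈ N
    · exact he' x hx y hN hy' ha
    · rw [← he x (hY hx) y hy hN ha] at hc
      exact absurd hx hc

end MNSx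

theorem p_MNS :
    S_MNS := by
  intro V _ G T hG
  refine ⟨fun Y hY hne hle => ?_, fun N h => ?_, fun N z z' h hz hz' hn ha x hx y hy hy' hxy => ?_⟩
  · obtain ⟨N, ⟨a, b, c⟩, hm⟩ := Set.exists_min_image {N | N ⊆ Y ∧ N.Nonempty ∧ Le1 G N T}
      Set.ncard (Set.toFinite _) ⟨Y, le_rfl, hne, hle⟩
    exact ⟨N, a, a.trans hY, b, c, fun Z hZ hZ' hl =>
      Set.eq_of_subset_of_ncard_le hZ (hm Z ⟨hZ.trans a, hZ', hl⟩) (Set.toFinite _)⟩
  · by_cases hs : ∃ x, N = {x}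
    · exact Or.inl hs
    have key : ∀ x ∈ N, ¬ Le1 G {x} N := fun x hx =>
      MNSx.ec h {x} (Set.singleton_subset_iff.2 hx) ⟨x, rfl⟩ fun e => hs ⟨x, e.symm⟩
    refine Or.inr ⟨MNSx.ec h, fun x hx y y' hy hy' a a' => by_contra fun hn => ?_,
      by_contra fun hn => ?_⟩
    · obtain ⟨c, -, -, -, hc⟩ := hG.third a a' hn
      refine key x hx ⟨(x, c), fun x' hx' w hw _ hb => ?_⟩
      obtain rfl : x' = x := hx'
      rcases hc w hb with rfl | rfl | rfl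
      · exact absurd hw hy
      · exact absurd hw hy'
      · rfl
    · obtain ⟨x, hx⟩ := h.ne
      obtain ⟨y, hy, hyx⟩ : ∃ y ∈ N, x ≠ y := by
        by_contra h2
        refine hs ⟨x, Set.eq_singleton_iff_unique_mem.2 ⟨hx, fun y hy => by_contra fun e => ?_⟩⟩
        exact h2 ⟨y, hy, fun e' => e e'.symm⟩
      refine key x hx ⟨(x, y), fun x' hx' w hw hw' _ => ?_⟩
      obtain rfl : x' = x := hx'
      have : y = w := by_contra fun e => hn ⟨x', hx, y, hy, w, hw, hyx, fun e' => hw' e'.symm, e⟩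
      rw [this]
  · obtain ⟨e, he⟩ := h
    have hyN : y ∈ N := by_contra fun h2 => hy' (RS.step hx hxy ⟨hy, h2⟩)
    have h1 := RS.sub hx
    have h2 := (he y hyN x h1.1 h1.2 hxy.symm).trans (he z hz z' hz' hn ha).symm
    rw [Prod.mk.injEq] at h2
    rw [h2.1, h2.2]

end Pool.Agent.P.MP_bb4f54_co.T4

end sMNS

section sSRG
/-! Step SRG. -/

set_option autoImplicit false
set_option linter.unusedSectionVars false

namespace Pool.Agent.P.MP_bb4f54_co.T4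



namespace SRGx

variable {V : Type} {G : SimpleGraph V} {W U₁ U₂ : Set V} {p q : ℕ → V} {a b n₁ n₂ : ℕ}
  {a₁ a₂ b₁ b₂ : V}

theorem mk (h : DS G W p q a b a₁ a₂ b₁ b₂) (h₁ : U₁ ⊆ W) (h₂ : U₂ ⊆ W) (d : Disjoint U₁ U₂)
    (e : (PL G U₁ (p 0) (p a) n₁ ∧ PL G U₂ (q 0) (q b) n₂) ∨
      (PL G U₁ (p 0) (q b) n₁ ∧ PL G U₂ (q 0) (p a) n₂)) : DRt G W a₁ a₂ b₁ b₂ (n₁ + n₂) := by
  have : DRt G W (p 0) (q 0) (p a) (q b) (n₁ + n₂) := ⟨U₁, U₂, n₁, n₂, h₁, h₂, d, rfl, e⟩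
  rw [h.p0, h.q0] at this
  rcases h.en with ⟨rfl, rfl⟩ | ⟨rfl, rfl⟩
  exacts [this, this.swapR]

end SRGx

open SRGx Set in
theorem p_SRG :
    S_SRG := by
  intro V G W p q a b a₁ a₂ b₁ b₂ h
  have P : ∀ i j, j ≤ a → sg p i j ⊆ sg p 0 a := fun i j hj => sg_mono i.zero_le hj
  have Q : ∀ i j, j ≤ b → sg q i j ⊆ sg q 0 b := fun i j hj => sg_mono i.zero_le hj
  have PQ : ∀ i j i' j', j ≤ a → j' ≤ b → Disjoint (sg p i j) (sg q i' j') :=
    fun i j i' j' hj hj' => h.d.mono (P i j hj) (Q i' j' hj')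
  have PU : ∀ {U}, U ⊆ W \ (sg p 0 a ∪ sg q 0 b) → ∀ i j, j ≤ a → Disjoint (sg p i j) U :=
    fun hU i j hj => disjoint_left.2 fun x hx hx' => (hU hx').2 (.inl (P i j hj hx))
  have QU : ∀ {U}, U ⊆ W \ (sg p 0 a ∪ sg q 0 b) → ∀ i j, j ≤ b → Disjoint (sg q i j) U :=
    fun hU i j hj => disjoint_left.2 fun x hx hx' => (hU hx').2 (.inr (Q i j hj hx))
  refine ⟨mk h h.pw h.qw h.d (.inl ⟨h.sp.pl a.zero_le le_rfl, h.sq.pl b.zero_le le_rfl⟩),
    fun i j n hij hj hr => ?_, fun i j i' j' U U' n n' hi hi' hj' hj hU hU' d r r' => ?_⟩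
  · have hi : i ≤ a := by omega
    exact mk h (union_subset (union_subset ((P _ _ hi).trans h.pw) sdiff_subset)
        ((P _ _ le_rfl).trans h.pw)) h.qw
      (disjoint_union_left.2 ⟨disjoint_union_left.2 ⟨PQ _ _ _ _ hi le_rfl,
        (QU subset_rfl _ _ le_rfl).symm⟩, PQ _ _ _ _ le_rfl le_rfl⟩)
      (.inl ⟨(h.sp.pl i.zero_le hi).via hr (h.sp.pl hj le_rfl) (PU subset_rfl _ _ hi)
        (h.sp.disj hij le_rfl) (PU subset_rfl _ _ le_rfl).symm, h.sq.pl b.zero_le le_rfl⟩)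
  · have ha : i ≤ a := by omega
    have hb : j' ≤ b := by omega
    refine mk h (union_subset (union_subset ((P _ _ ha).trans h.pw) (hU.trans sdiff_subset))
        ((Q _ _ le_rfl).trans h.qw))
      (union_subset (union_subset ((Q _ _ hb).trans h.qw) (hU'.trans sdiff_subset))
        ((P _ _ le_rfl).trans h.pw)) ?_
      (.inr ⟨(h.sp.pl i.zero_le ha).via r (h.sq.pl hj le_rfl) (PU hU _ _ ha)
          (PQ _ _ _ _ ha le_rfl) (QU hU _ _ le_rfl).symm,
        (h.sq.pl j'.zero_le hb).via r'.symm (h.sp.pl hi' le_rfl) (QU hU' _ _ hb)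
          (PQ _ _ _ _ le_rfl hb).symm (PU hU' _ _ le_rfl).symm⟩)
    simp only [disjoint_union_left, disjoint_union_right]
    exact ⟨⟨⟨⟨PQ _ _ _ _ ha hb, (QU hU _ _ hb).symm⟩, (h.sq.disj hj' le_rfl).symm⟩,
      ⟨PU hU' _ _ ha, d⟩, QU hU' _ _ le_rfl⟩,
      ⟨h.sp.disj hi le_rfl, (PU hU _ _ le_rfl).symm⟩, (PQ _ _ _ _ le_rfl le_rfl).symm⟩

end Pool.Agent.P.MP_bb4f54_co.T4

end sSRG

section sTW2
/-! Step TW2. -/

set_option autoImplicit false
set_option linter.unusedSectionVars false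

namespace Pool.Agent.P.MP_bb4f54_co.T4



namespace TW2x

open MP_a3bdf6_co

variable {V : Type} {G : SimpleGraph V} {W U : Set V} {a b : V}

theorem rs {l : List V} (h : Wk (fun x y => G.Adj x y ∧ y ∈ W) a b l) (ha : a ∈ W)
    (hU : ∀ z ∈ l, z ∈ W → z ∈ U) : a ∈ RS G U b := by
  induction h with
  | single a => exact RS.self (hU a (by simp) ha)
  | cons e _ ih =>
    exact RS.step (ih e.2 fun z hz => hU z (List.mem_cons_of_mem _ hz)) e.1.symm
      (hU _ (by simp) ha)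

theorem rch {N : Set V} {n : ℕ} (h : PL G U a b n) (hW : U ⊆ W) (hN : U ⊆ N) :
    Rch (fun x y => G.Adj x y ∧ y ∈ W) N a b :=
  RS.closed (C := {y | Rch (fun x y => G.Adj x y ∧ y ∈ W) N a y}) (Rch.refl (hN h.left))
    (fun _ hx _ hy e => Rch.tail hx ⟨e, hW hy⟩ (hN hy)) ⟨n, h⟩

end TW2x

open MP_a3bdf6_co in
theorem p_TW2 :
    S_TW2 := by
  intro V _ G W a₁ a₂ b₁ b₂ h
  classical
  have : Nonempty V := ⟨a₁⟩
  obtain ⟨T, ⟨h1, h2⟩, h3⟩ := menger (fun x y => G.Adj x y ∧ y ∈ W)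
    (({a₁, a₂} : Finset V).filter (· ∈ W)) {b₁, b₂} 2 fun Y hY => by
      obtain ⟨z, hz⟩ := Finset.card_le_one_iff_subset_singleton.1 (Nat.le_of_lt_succ hY)
      obtain ⟨a, b, n, ha, hb, hp⟩ := h z
      exact ⟨a, by simpa using ⟨ha, hp.left.1⟩, b, by simpa using hb,
        TW2x.rch hp Set.sdiff_subset fun x hx e => hx.2 (by simpa using hz e)⟩
  obtain ⟨P, Q, hne, rfl⟩ := Finset.card_eq_two.1 h3
  have hd : ∀ z, z ∈ P → z ∈ Q → False := fun z p q => hne (h2 P (by simp) Q (by simp) z p q)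
  obtain ⟨-, a, ha, b, hb, hP⟩ := h1 P (by simp)
  obtain ⟨-, a', ha', b', hb', hQ⟩ := h1 Q (by simp)
  simp only [Finset.mem_filter, Finset.mem_insert, Finset.mem_singleton] at ha hb ha' hb'
  obtain ⟨n, hn⟩ := RS.symm (TW2x.rs (U := {z | z ∈ P ∧ z ∈ W}) hP ha.2 fun _ x y => ⟨x, y⟩)
  obtain ⟨m, hm⟩ := RS.symm (TW2x.rs (U := {z | z ∈ Q ∧ z ∈ W}) hQ ha'.2 fun _ x y => ⟨x, y⟩)
  have key : DRt G W a a' b b' (n + m) := ⟨_, _, n, m, fun _ x => x.2, fun _ x => x.2,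
    Set.disjoint_left.2 fun z p q => hd z p.1 q.1, rfl, .inl ⟨hn, hm⟩⟩
  have e1 : a ≠ a' := fun e => hd a hP.head_mem (e ▸ hQ.head_mem)
  have e2 : b ≠ b' := fun e => hd b hP.last_mem (e ▸ hQ.last_mem)
  refine ⟨n + m, ?_⟩
  obtain rfl | rfl := ha.1 <;> obtain rfl | rfl := ha'.1 <;> obtain rfl | rfl := hb <;>
    obtain rfl | rfl := hb' <;>
    first | exact absurd rfl e1 | exact absurd rfl e2 | exact key | exact key.swapL |
      exact key.swapR | exact key.swapL.swapR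

end Pool.Agent.P.MP_bb4f54_co.T4

end sTW2

section sDD2
/-! Step DD2. -/

set_option autoImplicit false
set_option linter.unusedSectionVars false

namespace Pool.Agent.P.MP_bb4f54_co.T4

namespace DD2x

theorem via {V : Type} {G : SimpleGraph V} {O N X U : Set V} {s z P Q : V} {n c : ℕ}
    (hN : N ⊆ O) (hX : X ⊆ O \ N) (hU : U ⊆ N) (h : PL G U z s n) (ha : G.Adj P s)
    (hr : Rg G X z Q c) : Rg G O P Q (1 + n + c) :=
  (Rg.cat (X := ∅) (Rg.edge ha) h.symm hr (Set.disjoint_empty _)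
    (Set.disjoint_left.2 fun _ a b => (hX b).2 (hU a)) (Set.empty_disjoint _)).mono
    (Set.union_subset (Set.union_subset (hU.trans hN) (Set.empty_subset _))
      (hX.trans Set.sdiff_subset))

end DD2x

theorem p_DD2 (hTHV : S_THV) :
    S_DD2 := by
  intro V _ G R _ W O p q a b c N k k' m m' z z' i i' j j' hN hB hS y hy u v hL h1 h2 h3
  obtain ⟨⟨mk, mk', -, mm', mz⟩, ⟨-, -, az⟩, ⟨hi, hi'⟩, ⟨-, hj'⟩, ⟨ak, ak'⟩, -, am'⟩ := hS
  obtain ⟨t, ht⟩ := RS.pl hy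
  have hX : RS G (O \ N) z' ⊆ O \ N := RS.sub
  have r1 := ht.rg az hL.ap
  have r2 := ht.rg az hL.aq
  have n1 : p i ∉ N := fun e => c.pno (by omega) (hN e)
  have n2 : p i' ∉ N := fun e => c.pno hi' (hN e)
  have n3 : q j' ∉ N := fun e => c.qno hj' (hN e)
  have d1 : k ≠ k' := fun e => by
    have := c.sp.inj _ _ (by omega) hi' (hB.one k mk _ _ n1 n2 ak.symm (e ▸ ak'.symm))
    omega
  have d2 : k ≠ m' := fun e =>
    c.pq (by omega) hj' (hB.one k mk _ _ n1 n3 ak.symm (e ▸ am'.symm))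
  obtain ⟨U₁, U₂, A1, B1, s1, s2, p1, p2, x1⟩ :=
    hTHV G N k z k' c.cb hB mk mz mk' d1 ⟨_, n1, ak.symm⟩ ⟨_, n2, ak'.symm⟩
  obtain ⟨U₃, U₄, A2, C2, s3, s4, p3, p4, x2⟩ :=
    hTHV G N k z m' c.cb hB mk mz mm' d2 ⟨_, n1, ak.symm⟩ ⟨_, n3, am'.symm⟩
  have e1 := (c.rp i u _ h1 hL.hi (DD2x.via hN hX s1 p1 ak r1)).1
  have e2 := (c.rp u i' _ h2 hi' (DD2x.via hN hX s2 p2 ak' r1).symm).1
  have e3 := (c.rp i i' _ hi hi' (((p1.symm.concat p2 x1).rg ak ak').mono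
    (Set.union_subset (s1.trans hN) (s2.trans hN)))).1
  have e4 := (c.rp i u _ h1 hL.hi (DD2x.via hN hX s3 p3 ak r1)).1
  have e5 := (c.rq v j' _ h3 hj' (DD2x.via hN hX s4 p4 am' r2).symm).1
  have e6 := (c.sw i j' u v N {y} _ _ h1 hL.hi h3 hj' hN (Set.singleton_subset_iff.2 hL.m)
    (Set.disjoint_singleton_right.2 (hX hy).2)
    (((p3.symm.concat p4 x2).rg ak am').mono (Set.union_subset s3 s4)) (Rg.two hL.ap hL.aq)).1
  refine c.h2 ?_
  push_cast at e1 e2 e3 e4 e5 e6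
  linear_combination e1 + e2 - e3 - e4 - e5 + e6

end Pool.Agent.P.MP_bb4f54_co.T4

end sDD2

section sNZ
/-! Step NZ. -/

set_option autoImplicit false
set_option linter.unusedSectionVars false

namespace Pool.Agent.P.MP_bb4f54_co.T4

namespace NZx

lemma two {V : Type} {G : SimpleGraph V} {N : Set V} (hB : Big G N) {z x y : V}
    (hx : x ∈ N \ {z}) (hy : y ∈ N) (hn : y ∉ RS G (N \ {z}) x) :
    ∃ a ∈ RS G (N \ {z}) x, ∃ b ∈ RS G (N \ {z}) x, a ≠ b ∧ G.Adj z a ∧ G.Adj z b := by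
  by_contra hc
  have hz : ∀ a ∈ RS G (N \ {z}) x, ∀ b ∈ N, b ∉ RS G (N \ {z}) x → G.Adj a b → b = z :=
    fun a ha b hb hb' e => by
      by_contra h
      exact hb' (RS.step ha e ⟨hb, h⟩)
  refine hB.ec (RS G (N \ {z}) x) (fun a ha => (RS.sub ha).1) ⟨x, RS.self hx⟩
    (fun e => hn (by rw [e]; exact hy)) ?_
  by_cases h : ∃ a ∈ RS G (N \ {z}) x, G.Adj z a
  · obtain ⟨a, ha, e⟩ := h
    refine ⟨(a, z), fun a' ha' b hb hb' e' => ?_⟩
    obtain rfl := hz a' ha' b hb hb' e'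
    by_contra hne
    exact hc ⟨a', ha', a, ha, fun e2 => hne (by rw [e2]), e'.symm, e⟩
  · refine ⟨(x, x), fun a' ha' b hb hb' e' => ?_⟩
    obtain rfl := hz a' ha' b hb hb' e'
    exact absurd ⟨a', ha', e'.symm⟩ h

end NZx

theorem p_NZ :
    S_NZ := by
  intro V G N hC hB z x y hx hy
  by_contra hn
  have hn' : x ∉ RS G (N \ {z}) y := fun h => hn (RS.symm h)
  obtain ⟨a, ha, b, hb, hab, ea, eb⟩ := NZx.two hB hx hy.1 hn
  obtain ⟨c, hc, d, hd, hcd, ec, ed⟩ := NZx.two hB hy hx.1 hn'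
  have key : ∀ u ∈ RS G (N \ {z}) x, ∀ v ∈ RS G (N \ {z}) y, u ≠ v := fun u hu v hv e =>
    hn (RS.trans hu (RS.symm (e ▸ hv)))
  rcases hC.four ea eb ec ed with h | h | h | h | h | h
  · exact hab h
  · exact key _ ha _ hc h
  · exact key _ ha _ hd h
  · exact key _ hb _ hc h
  · exact key _ hb _ hd h
  · exact hcd h

end Pool.Agent.P.MP_bb4f54_co.T4

end sNZ

section sD1
/-! Step D1. -/

set_option autoImplicit false
set_option linter.unusedSectionVars false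

namespace Pool.Agent.P.MP_bb4f54_co.T4

theorem p_D1 :
    S_D1 := by
  intro V G R _ W O p q a b h
  refine ⟨fun k hk => ?_, fun x v₁ v₂ v₃ U₁ U₂ U₃ n₁ n₂ n₃ i₁ i₂ i₃ s₁ s₂ s₃ p₁ p₂ p₃ d₁ d₂ d₃
    l₁ l₂ l₃ a₁ a₂ a₃ => ?_⟩
  · have key : ∀ i j, i < j → j ≤ a → G.Adj (p i) k → G.Adj (p j) k → False := by
      intro i j hij hj e e'
      obtain ⟨h1, h2⟩ := h.rp i j 2 hij hj ((Rg.two e e').mono (Set.singleton_subset_iff.2 hk))
      obtain rfl | rfl : j = i + 1 ∨ j = i + 2 := by omega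
      · push_cast at h1
        exact h.h4 (by linear_combination 4 * h1)
      · have s : sg p i (i + 2) ⊆ sg p 0 a := sg_mono (Nat.zero_le _) hj
        exact h.n4 ⟨_, _, _, ((h.sp.pl hij.le hj).snoc e' fun c =>
          Set.disjoint_left.1 h.po (s c) hk).mono (Set.insert_subset (h.ow hk) (s.trans h.pw)),
          e.symm, by omega, by omega⟩
    intro i j hi hj e e'
    by_contra c
    rcases Nat.lt_or_gt_of_ne c with c | c
    · exact key i j c hj e e'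
    · exact key j i c hi e' e
  · have h1 := (h.rp _ _ _ l₁ (by omega)
      (((p₁.symm.concat p₂ d₁).rg a₁ a₂).mono (Set.union_subset s₁ s₂))).1
    have h2 := (h.rp _ _ _ (l₁.trans l₂) l₃
      (((p₁.symm.concat p₃ d₂).rg a₁ a₃).mono (Set.union_subset s₁ s₃))).1
    have h3 := (h.rp _ _ _ l₂ l₃
      (((p₂.symm.concat p₃ d₃).rg a₂ a₃).mono (Set.union_subset s₂ s₃))).1
    push_cast at h1 h2 h3
    exact ⟨by linear_combination h1 + h3 - h2, h1, h3⟩

end Pool.Agent.P.MP_bb4f54_co.T4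

end sD1

section sDD1
/-! Step DD1. -/

set_option autoImplicit false
set_option linter.unusedSectionVars false

namespace Pool.Agent.P.MP_bb4f54_co.T4



theorem p_DD1 (hDA : S_DA) :
    S_DD1 := by
  intro V _ G R _ W O p q a b c N k k' m m' z z' i i' j j' hN hB h y hy u hu ha
  obtain ⟨n, hp⟩ := hy
  obtain ⟨hk, hk', -, -, hz⟩ := h.mem
  obtain ⟨z1, z2, z3⟩ := h.zz
  obtain ⟨i1, i2⟩ := h.hi
  obtain ⟨a1, a2⟩ := h.ap
  have hr := hp.rg z3 ha
  have h1 : ∀ t x, t ≤ a → x ∈ N → G.Adj (p t) x → u ≠ t ∧ z ≠ x := fun t x ht hx e => by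
    refine ⟨?_, ?_⟩
    · rintro rfl
      exact hp.right.2 (c.up u ht x y e ha (Or.inl (hN hx)) (Or.inl hp.right.1) ▸ hx)
    · rintro rfl
      exact c.pno ht (hB.one z hx z' (p t) z2 (fun h => c.pno ht (hN h)) z3 e.symm ▸ z1)
  obtain ⟨b1, b2⟩ := h1 i k (by omega) hk a1
  obtain ⟨b3, b4⟩ := h1 i' k' i2 hk' a2
  refine ⟨?_, ?_⟩ <;> by_contra hc
  · exact hDA G R W O p q a b c N (O \ N) ∅ k z k' u i i' _ 1 hN hB hk hz hk' b4 (by omega) i1 i2
      a1 le_rfl (Set.empty_subset _) (Set.disjoint_empty _) hr (Rg.edge a2.symm)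
  · exact hDA G R W O p q a b c N ∅ (O \ N) k' k z i i' u 1 _ hN hB hk' hk hz b2.symm i1
      (by omega) hu a2 (Set.empty_subset _) le_rfl (Set.empty_disjoint _) (Rg.edge a1.symm) hr

end Pool.Agent.P.MP_bb4f54_co.T4

end sDD1

section sTHV
/-! Step THV. -/

set_option autoImplicit false
set_option linter.unusedSectionVars false

namespace Pool.Agent.P.MP_bb4f54_co.T4



theorem p_THV (hFAN : S_FAN) (hNZ : S_NZ) :
    S_THV := by
  intro V _ G N u v w hc hb hu hv hw huw h1 h2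
  have hN : RS G N v = N := by
    by_contra h
    exact hb.ec _ RS.sub ⟨v, RS.self hv⟩ h ⟨(v, v), fun x hx y hy hn e =>
      absurd (RS.step hx e hy) hn⟩
  rcases hFAN G N {u} {w} v hc hv hN.ge (Set.singleton_subset_iff.2 hu)
    (Set.singleton_subset_iff.2 hw) (Set.singleton_nonempty u) (Set.singleton_nonempty w)
    (Set.disjoint_singleton.2 huw) (by rintro x (rfl | rfl) <;> assumption) with
    ⟨_, rfl, _, rfl, h⟩ | ⟨Y, a, b, c, d⟩
  · exact h
  · exact absurd c (hb.ec Y a ⟨v, b⟩ fun e => (d u (e ▸ hu)).1 rfl)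

end Pool.Agent.P.MP_bb4f54_co.T4

end sTHV
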