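import Pool.Agent.P.MP_bb4f54_co.T4.Base
import Pool.Agent.P.MP_a3bdf6_co.Menger

/-! Statements: lengths of routes through sets with three or four leaving edges. -/

set_option autoImplicit false
set_option linter.unusedSectionVars false

namespace Pool.Agent.P.MP_bb4f54_co.T4

section defs

variable {V : Type}

/-- If all paths in `U` between the ends of two of three leaving edges have the same length in `R`,
then `2 = 0` in `R`. -/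
def A3s (G : SimpleGraph V) (R : Type) [CommRing R] (U : Set V) : Prop :=
  ∀ (a a' b b' : V) (e : V × V), a ∈ U → b ∈ U → a' ∉ U → b' ∉ U → G.Adj a a' → G.Adj b b' →
    (a, a') ≠ (b, b') → Out G U [(a, a'), (b, b'), e] → U.Nontrivial →
    (∀ n m, PL G U a b n → PL G U a b m → (n : R) = m) → (2 : R) = 0

/-- A shortest route `p` and the set `O` of the other vertices. -/
structure AC (G : SimpleGraph V) (R : Type) [CommRing R] (O : Set V) (p : ℕ → V) (a : ℕ)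
    (e : V × V) : Prop where
  cb : Cb G
  no2 : No2 G O
  ne : O.Nonempty
  h2 : (2 : R) ≠ 0
  po : ∀ i, i ≤ a → p i ∉ O
  clo : ∀ x ∈ O, ∀ y, G.Adj x y → y ∈ O ∨ (∃ i, i ≤ a ∧ y = p i) ∨ (x, y) = e
  up : ∀ i, i ≤ a → ∀ k ∈ O, ∀ k' ∈ O, G.Adj (p i) k → G.Adj (p i) k' → k = k'
  uq : ∀ k ∈ O, ∀ i j, i ≤ a → j ≤ a → G.Adj (p i) k → G.Adj (p j) k → i = j
  rp : ∀ i j u v n, i < j → j ≤ a → PL G O u v n → G.Adj (p i) u → G.Adj (p j) v →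
    (n : R) + 2 + i = j

/-- Four edges leave `W`: two on the left, two on the right. -/
structure P4 (G : SimpleGraph V) (W : Set V) (a₁ a₁' a₂ a₂' b₁ b₁' b₂ b₂' : V) : Prop where
  m : a₁ ∈ W ∧ a₂ ∈ W ∧ b₁ ∈ W ∧ b₂ ∈ W
  n : a₁' ∉ W ∧ a₂' ∉ W ∧ b₁' ∉ W ∧ b₂' ∉ W
  adj : G.Adj a₁ a₁' ∧ G.Adj a₂ a₂' ∧ G.Adj b₁ b₁' ∧ G.Adj b₂ b₂'
  ne : (a₁, a₁') ≠ (b₁, b₁') ∧ (a₁, a₁') ≠ (b₂, b₂') ∧ (a₂, a₂') ≠ (b₁, b₁') ∧
    (a₂, a₂') ≠ (b₂, b₂')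
  out : Out G W [(a₁, a₁'), (a₂, a₂'), (b₁, b₁'), (b₂, b₂')]

/-- If all double routes through `W` have the same length in `R`, then `4 = 0` in `R`. -/
def DRs (G : SimpleGraph V) (R : Type) [CommRing R] (W : Set V) : Prop :=
  ∀ a₁ a₁' a₂ a₂' b₁ b₁' b₂ b₂' : V, P4 G W a₁ a₁' a₂ a₂' b₁ b₁' b₂ b₂' → Thr3 W →
    (∃ n, DRt G W a₁ a₂ b₁ b₂ n) →
    (∀ n m, DRt G W a₁ a₂ b₁ b₂ n → DRt G W a₁ a₂ b₁ b₂ m → (n : R) = m) → (4 : R) = 0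

/-- A double route given by two sequences. -/
structure DS (G : SimpleGraph V) (W : Set V) (p q : ℕ → V) (a b : ℕ) (a₁ a₂ b₁ b₂ : V) :
    Prop where
  sp : Str G p a
  sq : Str G q b
  pw : sg p 0 a ⊆ W
  qw : sg q 0 b ⊆ W
  d : Disjoint (sg p 0 a) (sg q 0 b)
  p0 : p 0 = a₁
  q0 : q 0 = a₂
  en : (p a = b₁ ∧ q b = b₂) ∨ (p a = b₂ ∧ q b = b₁)

/-- A shortest double route `p`, `q` and the set `O` of the other vertices of `W`. -/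
structure DC (G : SimpleGraph V) (R : Type) [CommRing R] (W O : Set V) (p q : ℕ → V)
    (a b : ℕ) : Prop where
  cb : Cb G
  no2 : No2 G O
  h4 : (4 : R) ≠ 0
  sp : Str G p a
  sq : Str G q b
  ow : O ⊆ W
  pw : sg p 0 a ⊆ W
  qw : sg q 0 b ⊆ W
  d : Disjoint (sg p 0 a) (sg q 0 b)
  po : Disjoint (sg p 0 a) O
  qo : Disjoint (sg q 0 b) O
  n4 : ¬ CyIn G W 4
  clo : ∀ x ∈ O, ∀ y, G.Adj x y → y ∈ O ∨ (∃ i, i ≤ a ∧ y = p i) ∨ ∃ j, j ≤ b ∧ y = q j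
  tp : ∀ i, i ≤ a → ∃ k, G.Adj (p i) k ∧ (k ∈ O ∨ k ∈ sg q 0 b)
  tq : ∀ j, j ≤ b → ∃ k, G.Adj (q j) k ∧ (k ∈ O ∨ k ∈ sg p 0 a)
  up : ∀ i, i ≤ a → ∀ k k', G.Adj (p i) k → G.Adj (p i) k' → (k ∈ O ∨ k ∈ sg q 0 b) →
    (k' ∈ O ∨ k' ∈ sg q 0 b) → k = k'
  uq : ∀ j, j ≤ b → ∀ k k', G.Adj (q j) k → G.Adj (q j) k' → (k ∈ O ∨ k ∈ sg p 0 a) →
    (k' ∈ O ∨ k' ∈ sg p 0 a) → k = k'
  rp : ∀ i j n, i < j → j ≤ a → Rg G O (p i) (p j) n → (n : R) + i = j ∧ j ≤ n + i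
  rq : ∀ i j n, i < j → j ≤ b → Rg G O (q i) (q j) n → (n : R) + i = j ∧ j ≤ n + i
  sw : ∀ i j i' j' U U' n n', i < i' → i' ≤ a → j' < j → j ≤ b → U ⊆ O → U' ⊆ O → Disjoint U U' →
    Rg G U (p i) (q j) n → Rg G U' (p i') (q j') n' →
      (n : R) + n' + i + j' = i' + j ∧ i' + j ≤ n + n' + i + j'

/-- A vertex of `O` with a neighbour on each strand. -/
structure Lf (G : SimpleGraph V) (O : Set V) (p q : ℕ → V) (a b : ℕ) (x : V) (i j : ℕ) :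
    Prop where
  m : x ∈ O
  hi : i ≤ a
  hj : j ≤ b
  ap : G.Adj (p i) x
  aq : G.Adj (q j) x

/-- Two edges from `N` to each strand and one edge to the rest of `O`. -/
structure Shp (G : SimpleGraph V) (O N : Set V) (p q : ℕ → V) (a b : ℕ) (k k' m m' z z' : V)
    (i i' j j' : ℕ) : Prop where
  mem : k ∈ N ∧ k' ∈ N ∧ m ∈ N ∧ m' ∈ N ∧ z ∈ N
  zz : z' ∈ O ∧ z' ∉ N ∧ G.Adj z z'
  hi : i < i' ∧ i' ≤ a
  hj : j < j' ∧ j' ≤ b
  ap : G.Adj (p i) k ∧ G.Adj (p i') k'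
  aq : G.Adj (q j) m ∧ G.Adj (q j') m'

variable {G : SimpleGraph V} {R : Type} [CommRing R] {W O N : Set V} {p q : ℕ → V} {a b : ℕ}

lemma DC.swap (h : DC G R W O p q a b) : DC G R W O q p b a where
  cb := h.cb
  no2 := h.no2
  h4 := h.h4
  sp := h.sq
  sq := h.sp
  ow := h.ow
  pw := h.qw
  qw := h.pw
  d := h.d.symm
  po := h.qo
  qo := h.po
  n4 := h.n4
  clo := fun x hx y e => (h.clo x hx y e).imp_right Or.symm
  tp := h.tq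
  tq := h.tp
  up := h.uq
  uq := h.up
  rp := h.rq
  rq := h.rp
  sw := fun i j i' j' U U' n n' a b c d e f g r r' => by
    obtain ⟨h1, h2⟩ := h.sw j' i' j i U' U n' n c d a b f e g.symm r'.symm r.symm
    exact ⟨by linear_combination h1, by omega⟩

lemma DC.h2 (h : DC G R W O p q a b) : (2 : R) ≠ 0 := fun e => h.h4 (by linear_combination 2 * e)

lemma DC.pno (h : DC G R W O p q a b) {i : ℕ} (hi : i ≤ a) : p i ∉ O :=
  Set.disjoint_left.1 h.po (mem_sg (Nat.zero_le _) hi)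

lemma DC.qno (h : DC G R W O p q a b) {j : ℕ} (hj : j ≤ b) : q j ∉ O := h.swap.pno hj

lemma DC.pq (h : DC G R W O p q a b) {i j : ℕ} (hi : i ≤ a) (hj : j ≤ b) : p i ≠ q j := fun e =>
  Set.disjoint_left.1 h.d (mem_sg (Nat.zero_le _) hi) (e ▸ mem_sg (Nat.zero_le _) hj)

lemma Lf.swap {x : V} {i j : ℕ} (h : Lf G O p q a b x i j) : Lf G O q p b a x j i :=
  ⟨h.m, h.hj, h.hi, h.aq, h.ap⟩

/-- A leaf has at most one neighbour in `O`. -/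
lemma Lf.one {x : V} {i j : ℕ} (h : Lf G O p q a b x i j) (c : DC G R W O p q a b) :
    ∀ y ∈ O, ∀ y' ∈ O, G.Adj x y → G.Adj x y' → y = y' := fun y hy y' hy' e e' => by
  have h1 := c.pno h.hi
  have h2 := c.qno h.hj
  have h3 := c.pq h.hi h.hj
  have := c.cb.four e e' h.ap.symm h.aq.symm
  grind

lemma Shp.swap {k k' m m' z z' : V} {i i' j j' : ℕ}
    (h : Shp G O N p q a b k k' m m' z z' i i' j j') :
    Shp G O N q p b a m m' k k' z z' j j' i i' :=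
  ⟨⟨h.mem.2.2.1, h.mem.2.2.2.1, h.mem.1, h.mem.2.1, h.mem.2.2.2.2⟩, h.zz, h.hj, h.hi, h.aq, h.ap⟩

lemma DS.swap {a₁ a₂ b₁ b₂ : V} (h : DS G W p q a b a₁ a₂ b₁ b₂) : DS G W q p b a a₂ a₁ b₁ b₂ :=
  ⟨h.sq, h.sp, h.qw, h.pw, h.d.symm, h.q0, h.p0, h.en.symm.imp And.symm And.symm⟩

end defs

-- deps:
/-- Two paths from `k` to `E` and to `L`, or a set cut off by one edge. -/
def S_FAN : Prop := ∀ {V : Type} [Fintype V] (G : SimpleGraph V) (T E L : Set V) (k : V),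
  Cb G → k ∈ T → T ⊆ RS G T k → E ⊆ T → L ⊆ T → E.Nonempty → L.Nonempty → Disjoint E L →
    (∀ x, x ∈ E ∨ x ∈ L → ∃ y, y ∉ T ∧ G.Adj x y) →
      (∃ e ∈ E, ∃ l ∈ L, ∃ U₁ U₂ n₁ n₂, U₁ ⊆ T ∧ U₂ ⊆ T ∧ PL G U₁ k e n₁ ∧ PL G U₂ k l n₂ ∧
        ∀ x ∈ U₁, x ∈ U₂ → x = k) ∨
      ∃ Y ⊆ T, k ∈ Y ∧ Le1 G Y T ∧ ∀ x ∈ Y, x ∉ E ∧ x ∉ L

-- deps:
/-- Two disjoint paths. -/
def S_TW2 : Prop := ∀ {V : Type} [Fintype V] (G : SimpleGraph V) (W : Set V) (a₁ a₂ b₁ b₂ : V),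
  (∀ z, ∃ a b n, (a = a₁ ∨ a = a₂) ∧ (b = b₁ ∨ b = b₂) ∧ PL G (W \ {z}) a b n) →
    ∃ n, DRt G W a₁ a₂ b₁ b₂ n

-- deps:
/-- No cut vertex. -/
def S_NZ : Prop := ∀ {V : Type} (G : SimpleGraph V) (N : Set V), Cb G → Big G N →
  ∀ z x y, x ∈ N \ {z} → y ∈ N \ {z} → y ∈ RS G (N \ {z}) x

-- deps:
/-- Minimal sets. -/
def S_MNS : Prop := ∀ {V : Type} [Fintype V] (G : SimpleGraph V) (T : Set V), Cb G →
  (∀ Y ⊆ T, Y.Nonempty → Le1 G Y T → ∃ N ⊆ Y, Mn G T N) ∧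
  (∀ N, Mn G T N → (∃ x, N = {x}) ∨ Big G N) ∧
  ∀ N z z', Le1 G N T → z ∈ N → z' ∈ T → z' ∉ N → G.Adj z z' →
    ∀ x ∈ RS G (T \ N) z', ∀ y ∈ T, y ∉ RS G (T \ N) z' → G.Adj x y → (x, y) = (z', z)

-- deps: FAN NZ
/-- A path through a given vertex. -/
def S_THV : Prop := ∀ {V : Type} [Fintype V] (G : SimpleGraph V) (N : Set V) (u v w : V),
  Cb G → Big G N → u ∈ N → v ∈ N → w ∈ N → u ≠ w → (∃ y, y ∉ N ∧ G.Adj u y) →
    (∃ y, y ∉ N ∧ G.Adj w y) →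
      ∃ U₁ U₂ n₁ n₂, U₁ ⊆ N ∧ U₂ ⊆ N ∧ PL G U₁ v u n₁ ∧ PL G U₂ v w n₂ ∧ ∀ x ∈ U₁, x ∈ U₂ → x = v

-- deps:
/-- The shortest route. -/
def S_A3C : Prop := ∀ {V : Type} [Fintype V] (G : SimpleGraph V) (R : Type) [CommRing R]
  (U : Set V) (a a' b b' : V) (e : V × V), Cb G → No2 G U → ¬ CyIn G U 4 → (2 : R) ≠ 0 →
    a ∈ U → b ∈ U → a' ∉ U → b' ∉ U → G.Adj a a' → G.Adj b b' → (a, a') ≠ (b, b') →
    Out G U [(a, a'), (b, b'), e] → U.Nontrivial →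
    (∀ n m, PL G U a b n → PL G U a b m → (n : R) = m) →
      ∃ O p n, O ⊂ U ∧ AC G R O p n e

-- deps: MNS THV
/-- The inductive step for one strand. -/
def S_A3M : Prop := ∀ {V : Type} [Fintype V] (G : SimpleGraph V) (R : Type) [CommRing R]
  (O : Set V) (p : ℕ → V) (a : ℕ) (e : V × V), AC G R O p a e → (∀ N ⊆ O, A3s G R N) → False

-- deps: A3C A3M
/-- One strand. -/
def S_A3P : Prop := ∀ {V : Type} [Fintype V] (G : SimpleGraph V) (R : Type) [CommRing R]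
  (U : Set V), Cb G → No2 G U → ¬ CyIn G U 4 → A3s G R U

-- deps:
/-- Rerouting one strand, and exchanging the strands along two crossing rungs. -/
def S_SRG : Prop := ∀ {V : Type} (G : SimpleGraph V) (W : Set V) (p q : ℕ → V) (a b : ℕ)
  (a₁ a₂ b₁ b₂ : V), DS G W p q a b a₁ a₂ b₁ b₂ →
    DRt G W a₁ a₂ b₁ b₂ (a + b) ∧
    (∀ i j n, i < j → j ≤ a → Rg G (W \ (sg p 0 a ∪ sg q 0 b)) (p i) (p j) n →
      DRt G W a₁ a₂ b₁ b₂ (i + n + (a - j) + b)) ∧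
    ∀ i j i' j' U U' n n', i < i' → i' ≤ a → j' < j → j ≤ b → U ⊆ W \ (sg p 0 a ∪ sg q 0 b) →
      U' ⊆ W \ (sg p 0 a ∪ sg q 0 b) → Disjoint U U' → Rg G U (p i) (q j) n →
      Rg G U' (p i') (q j') n' → DRt G W a₁ a₂ b₁ b₂ (i + n + (b - j) + (j' + n' + (a - i')))

-- deps:
/-- The third edges at the vertices of a strand without chords. -/
def S_TH3 : Prop := ∀ {V : Type} (G : SimpleGraph V) (W : Set V) (p q : ℕ → V) (a b : ℕ)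
  (a₁ a₁' a₂ a₂' b₁ b₁' b₂ b₂' : V), Cb G → P4 G W a₁ a₁' a₂ a₂' b₁ b₁' b₂ b₂' →
    DS G W p q a b a₁ a₂ b₁ b₂ → (∀ i j, i < j → j ≤ a → G.Adj (p i) (p j) → j = i + 1) →
      ∀ i, i ≤ a → (∃ k ∈ W \ sg p 0 a, G.Adj (p i) k) ∧
        ∀ k ∈ W \ sg p 0 a, ∀ k' ∈ W \ sg p 0 a, G.Adj (p i) k → G.Adj (p i) k' → k = k'

-- deps: SRG TH3
/-- The shortest double route. -/
def S_D0 : Prop := ∀ {V : Type} [Fintype V] (G : SimpleGraph V) (R : Type) [CommRing R]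
  (W : Set V) (a₁ a₁' a₂ a₂' b₁ b₁' b₂ b₂' : V), Cb G → No2 G W → ¬ CyIn G W 4 →
    (4 : R) ≠ 0 → P4 G W a₁ a₁' a₂ a₂' b₁ b₁' b₂ b₂' → (∃ n, DRt G W a₁ a₂ b₁ b₂ n) →
    (∀ n m, DRt G W a₁ a₂ b₁ b₂ n → DRt G W a₁ a₂ b₁ b₂ m → (n : R) = m) →
      ∃ p q a b, DC G R W (W \ (sg p 0 a ∪ sg q 0 b)) p q a b

-- deps:
/-- One neighbour on a strand; three paths from a vertex to a strand. -/
def S_D1 : Prop := ∀ {V : Type} (G : SimpleGraph V) (R : Type) [CommRing R] (W O : Set V)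
  (p q : ℕ → V) (a b : ℕ), DC G R W O p q a b →
    (∀ k ∈ O, ∀ i j, i ≤ a → j ≤ a → G.Adj (p i) k → G.Adj (p j) k → i = j) ∧
    ∀ (x v₁ v₂ v₃ : V) (U₁ U₂ U₃ : Set V) (n₁ n₂ n₃ i₁ i₂ i₃ : ℕ), U₁ ⊆ O → U₂ ⊆ O → U₃ ⊆ O →
      PL G U₁ x v₁ n₁ → PL G U₂ x v₂ n₂ → PL G U₃ x v₃ n₃ → (∀ y ∈ U₁, y ∈ U₂ → y = x) →
      (∀ y ∈ U₁, y ∈ U₃ → y = x) → (∀ y ∈ U₂, y ∈ U₃ → y = x) → i₁ < i₂ → i₂ < i₃ → i₃ ≤ a →
      G.Adj (p i₁) v₁ → G.Adj (p i₂) v₂ → G.Adj (p i₃) v₃ →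
        2 * ((n₂ : R) + 1) = 0 ∧ (n₁ : R) + n₂ + 2 + i₁ = i₂ ∧ (n₂ : R) + n₃ + 2 + i₂ = i₃

-- deps: THV D1
/-- A middle port. -/
def S_DA : Prop := ∀ {V : Type} [Fintype V] (G : SimpleGraph V) (R : Type) [CommRing R]
  (W O : Set V) (p q : ℕ → V) (a b : ℕ), DC G R W O p q a b →
    ∀ (N X X' : Set V) (k u w : V) (i₀ i i₁ n₀ n₁ : ℕ), N ⊆ O → Big G N → k ∈ N → u ∈ N → w ∈ N →
      u ≠ w → i₀ < i → i < i₁ → i₁ ≤ a → G.Adj (p i) k → X ⊆ O \ N → X' ⊆ O \ N → Disjoint X X' →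
      Rg G X u (p i₀) n₀ → Rg G X' w (p i₁) n₁ → False

-- deps: MNS D1
/-- Three leaving edges. -/
def S_DB : Prop := ∀ {V : Type} [Fintype V] (G : SimpleGraph V) (R : Type) [CommRing R]
  (W O : Set V) (p q : ℕ → V) (a b : ℕ), DC G R W O p q a b → (∀ N ⊆ O, A3s G R N) →
    ∀ N, Mn G O N → Big G N → ∀ e₁ e₂ e₃, ¬ Out G N [e₁, e₂, e₃]

-- deps: MNS D1 DA DB
/-- Every minimal set has a neighbour on the first strand. -/
def S_DPQ : Prop := ∀ {V : Type} [Fintype V] (G : SimpleGraph V) (R : Type) [CommRing R]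
  (W O : Set V) (p q : ℕ → V) (a b : ℕ), DC G R W O p q a b → (∀ N ⊆ O, A3s G R N) →
    ∀ N, Mn G O N → ∃ k ∈ N, ∃ i, i ≤ a ∧ G.Adj (p i) k

-- deps: NZ TW2
/-- Four leaving edges that lead to two points of each strand. -/
def S_DC2 : Prop := ∀ {V : Type} [Fintype V] (G : SimpleGraph V) (R : Type) [CommRing R]
  (W O : Set V) (p q : ℕ → V) (a b : ℕ), DC G R W O p q a b → (∀ N ⊆ O, DRs G R N) →
    ∀ (N X X' : Set V) (k k' m m₀ z z₀ : V) (i i' j j' n₀ n₁ : ℕ), N ⊆ O → Big G N →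
      P4 G N k (p i) m m₀ k' (p i') z z₀ → k ≠ m → k' ≠ z → i < i' → i' ≤ a → j < j' → j' ≤ b →
      X ⊆ O \ N → X' ⊆ O \ N → Disjoint X X' → Rg G X m (q j) n₀ → Rg G X' z (q j') n₁ → False

-- deps: MNS DA DB DPQ DC2
/-- Four leaving edges. -/
def S_DC4 : Prop := ∀ {V : Type} [Fintype V] (G : SimpleGraph V) (R : Type) [CommRing R]
  (W O : Set V) (p q : ℕ → V) (a b : ℕ), DC G R W O p q a b → (∀ N ⊆ O, A3s G R N) →
    (∀ N ⊆ O, DRs G R N) → ∀ N, Mn G O N → Big G N → ∀ (k k' m : V) (i i' j : ℕ) (e : V × V),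
      k ∈ N → k' ∈ N → m ∈ N → i < i' → i' ≤ a → j ≤ b → G.Adj (p i) k → G.Adj (p i') k' →
      G.Adj (q j) m → ¬ Out G N [(k, p i), (k', p i'), (m, q j), e]

-- deps: DA DB DPQ DC4
/-- The shape of a big minimal set. -/
def S_SHP : Prop := ∀ {V : Type} [Fintype V] (G : SimpleGraph V) (R : Type) [CommRing R]
  (W O : Set V) (p q : ℕ → V) (a b : ℕ), DC G R W O p q a b → (∀ N ⊆ O, A3s G R N) →
    (∀ N ⊆ O, DRs G R N) → ∀ N, Mn G O N → Big G N →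
      ∃ k k' m m' z z' i i' j j', Shp G O N p q a b k k' m m' z z' i i' j j'

-- deps: DA
/-- The other ports lie between. -/
def S_DD1 : Prop := ∀ {V : Type} [Fintype V] (G : SimpleGraph V) (R : Type) [CommRing R]
  (W O : Set V) (p q : ℕ → V) (a b : ℕ), DC G R W O p q a b →
    ∀ N k k' m m' z z' i i' j j', N ⊆ O → Big G N → Shp G O N p q a b k k' m m' z z' i i' j j' →
      ∀ y ∈ RS G (O \ N) z', ∀ u, u ≤ a → G.Adj (p u) y → i < u ∧ u < i'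

-- deps: THV
/-- A leaf between the ports. -/
def S_DD2 : Prop := ∀ {V : Type} [Fintype V] (G : SimpleGraph V) (R : Type) [CommRing R]
  (W O : Set V) (p q : ℕ → V) (a b : ℕ), DC G R W O p q a b →
    ∀ N k k' m m' z z' i i' j j', N ⊆ O → Big G N → Shp G O N p q a b k k' m m' z z' i i' j j' →
      ∀ y ∈ RS G (O \ N) z', ∀ u v, Lf G O p q a b y u v → i < u → u < i' → v < j' → False

-- deps: MNS NZ D1 DPQ SHP DD1 DD2
/-- Every set with at most one edge to the rest of `O` contains a leaf. -/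
def S_DL : Prop := ∀ {V : Type} [Fintype V] (G : SimpleGraph V) (R : Type) [CommRing R]
  (W O : Set V) (p q : ℕ → V) (a b : ℕ), DC G R W O p q a b → (∀ N ⊆ O, A3s G R N) →
    (∀ N ⊆ O, DRs G R N) → ∀ Y ⊆ O, Y.Nonempty → Le1 G Y O →
      ∃ x ∈ Y, ∃ i j, Lf G O p q a b x i j

-- deps: D1
/-- A rung that starts between two connected leaves. -/
def S_DG : Prop := ∀ {V : Type} (G : SimpleGraph V) (R : Type) [CommRing R] (W O : Set V)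
  (p q : ℕ → V) (a b : ℕ), DC G R W O p q a b → ∀ x i j x' i' j' U X l u w n,
    Lf G O p q a b x i j → Lf G O p q a b x' i' j' → U ⊆ O → X ⊆ O → Disjoint U X →
    PL G U x x' l → i < u → u < i' → w ≤ b → Rg G X (p u) (q w) n →
      ((j < w ∧ w < j') ∨ (j' < w ∧ w < j)) ∧ 2 * (n : R) = 0

-- deps: FAN D1 DG
/-- Connected leaves are neighbours on the strand. -/
def S_D4 : Prop := ∀ {V : Type} [Fintype V] (G : SimpleGraph V) (R : Type) [CommRing R]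
  (W O : Set V) (p q : ℕ → V) (a b : ℕ), DC G R W O p q a b →
    (∀ Y ⊆ O, Y.Nonempty → Le1 G Y O → ∃ x ∈ Y, ∃ i j, Lf G O p q a b x i j) →
    ∀ x i j x' i' j', Lf G O p q a b x i j → Lf G O p q a b x' i' j' → i < i' →
      x' ∈ RS G O x → i' = i + 1

-- deps: D1
/-- The last median. -/
def S_D5a : Prop := ∀ {V : Type} (G : SimpleGraph V) (R : Type) [CommRing R] (W O : Set V)
  (p q : ℕ → V) (a b : ℕ), DC G R W O p q a b → ∀ x i j x' j' z l U₁ U₂ n₁ n₂ u,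
    Lf G O p q a b x i j → Lf G O p q a b x' (i + 1) j' → G.Adj x z → U₁ ⊆ O \ {x} →
    U₂ ⊆ O \ {x} → PL G U₁ z x' n₁ → PL G U₂ z l n₂ → (∀ y ∈ U₁, y ∈ U₂ → y = z) → l ≠ x' →
    u ≤ a → G.Adj (p u) l → False

-- deps: FAN D5a
/-- Two connected leaves that are neighbours on both strands. -/
def S_D5 : Prop := ∀ {V : Type} [Fintype V] (G : SimpleGraph V) (R : Type) [CommRing R]
  (W O : Set V) (p q : ℕ → V) (a b : ℕ), DC G R W O p q a b → ∀ x i j x',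
    Lf G O p q a b x i j → Lf G O p q a b x' (i + 1) (j + 1) → x ≠ x' → x' ∈ RS G O x → False

-- deps:
/-- No vertex off the strands. -/
def S_DE : Prop := ∀ {V : Type} (G : SimpleGraph V) (R : Type) [CommRing R] (W : Set V)
  (p q : ℕ → V) (a b : ℕ), DC G R W ∅ p q a b → a = 0

-- deps: MNS D1 DL D4 D5
/-- The inductive step for two strands. -/
def S_DM : Prop := ∀ {V : Type} [Fintype V] (G : SimpleGraph V) (R : Type) [CommRing R]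
  (W O : Set V) (p q : ℕ → V) (a b : ℕ), DC G R W O p q a b → (∀ N ⊆ O, A3s G R N) →
    (∀ N ⊆ O, DRs G R N) → O = ∅

-- deps: A3P D0 DE DM
/-- Two strands. -/
def S_DRP : Prop := ∀ {V : Type} [Fintype V] (G : SimpleGraph V) (R : Type) [CommRing R]
  (W : Set V), Cb G → No2 G W → ¬ CyIn G W 4 → DRs G R W

end Pool.Agent.P.MP_bb4f54_co.T4
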