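import Pool.Agent.P.MP_bb4f54_co.T4.IfaceB
import Pool.Agent.P.MP_bb4f54_co.T4.IfaceA

section sLK4
/-! Step LK4. -/

set_option autoImplicit false
set_option linter.unusedSectionVars false

namespace Pool.Agent.P.MP_bb4f54_co.T4

open Pool.Agent.P.MP_bb4f54_co.T3

namespace LK4x

variable {V : Type} {G : SimpleGraph V} {x y u₁ v₁ u₂ v₂ u₁' v₁' u₂' v₂' : V} {X X' : Set V}

theorem two {α : Type} (p : α → Prop) (a b c d : α) :
    ∃ e f, (∀ z ∈ [a, b, c, d], p z → z ∈ [e, f]) ∨ ∀ z ∈ [a, b, c, d], ¬ p z → z ∈ [e, f] := by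
  by_cases h : p a ↔ p b
  · exact ⟨c, d, by grind⟩
  by_cases h' : p a ↔ p c
  · exact ⟨b, d, by grind⟩
  · exact ⟨a, d, by grind⟩

theorem out4 (c : C3e G x y X u₁ v₁ u₂ v₂) (c' : C3e G x y X' u₁' v₁' u₂' v₂') :
    Out G (X' \ X) [(v₁, u₁), (v₂, u₂), (u₁', v₁'), (u₂', v₂')] := by
  intro a ha b hb e
  have h0 := c.m.1
  have h1 := c'.n.1
  have h2 := ha.1
  have h3 := ha.2
  by_cases h : b ∈ X
  · have := c.out b h a ha.2 e.symm
    grind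
  · have := c'.out a ha.1 b (fun h' => hb ⟨h', h⟩) e
    grind

theorem vmem (hN : N2 G) (c : C3e G x y X u₁ v₁ u₂ v₂) (c' : C3e G x y X' u₁' v₁' u₂' v₂')
    (h : X ⊂ X') : v₁ ∈ X' := by
  by_contra hv
  have hno := hN.no2 (W := X' \ X) (z := x) (fun e => e.2 c.m.1) _ le_rfl
    (Set.nonempty_of_ssubset h)
  have h1 := c'.out _ (h.1 c.m.2.1) _ hv c.adj.2.1
  have h2 := c.ne.1
  have h3 := c.m.2.1
  by_cases e : (u₁, v₁) = (u₁', v₁')
  · refine hno (v₂, u₂) (u₂', v₂') ((out4 c c').mono fun a ha b _ _ hm => ?_)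
    have h4 := ha.1
    have h5 := ha.2
    grind
  · refine hno (v₂, u₂) (u₁', v₁') ((out4 c c').mono fun a ha b _ _ hm => ?_)
    have h4 := ha.1
    have h5 := ha.2
    grind

theorem unmem (hN : N2 G) (c : C3e G x y X u₁ v₁ u₂ v₂) (c' : C3e G x y X' u₁' v₁' u₂' v₂')
    (h : X ⊂ X') : u₁' ∉ X := by
  intro hu
  have h0 := c'.n.2.1
  have h1 := c.out _ hu _ (fun e => h0 (h.1 e)) c'.adj.2.1
  have h2 := c'.ne.1
  have h3 := vmem hN c c' h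
  have h4 := vmem hN c.swap c' h
  grind

end LK4x

open LK4x in
theorem p_LK4 :
    S_LK4 := by
  intro V G x y u₁ v₁ u₂ v₂ u₁' v₁' u₂' v₂' X X' hN c c' h
  have a1 := h.1 c.m.2.1
  have a2 := h.1 c.m.2.2
  have a3 := c'.n.2.1
  have a4 := c'.n.2.2
  refine ⟨⟨⟨⟨vmem hN c c' h, c.n.2.1⟩, ⟨vmem hN c.swap c' h, c.n.2.2⟩,
    ⟨c'.m.2.1, unmem hN c c' h⟩, c'.m.2.2, unmem hN c c'.swap h⟩,
    ⟨fun e => e.2 c.m.2.1, fun e => e.2 c.m.2.2, fun e => a3 e.1, fun e => a4 e.1⟩,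
    ⟨c.adj.2.1.symm, c.adj.2.2.symm, c'.adj.2⟩, by grind, out4 c c'⟩, fun a ha z hz => ?_⟩
  by_contra hc
  have hno := hN.no2 (W := X' \ X) (z := x) fun e => e.2 c.m.1
  obtain ⟨e, f, h2 | h2⟩ := two (fun t : V × V => t.1 ∈ RS G (X' \ X) a) (v₁, u₁) (v₂, u₂)
    (u₁', v₁') (u₂', v₂')
  · exact hno _ RS.sub ⟨a, RS.self ha⟩ e f fun s hs t ht hst =>
      h2 _ (out4 c c' s (RS.sub hs) t (fun h' => ht (RS.step hs hst h')) hst) hs
  · exact hno ((X' \ X) \ RS G (X' \ X) a) Set.sdiff_subset ⟨z, hz, hc⟩ e f fun s hs t ht hst =>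
      h2 _ (out4 c c' s hs.1 t
        (fun h' => ht ⟨h', fun h'' => hs.2 (RS.step h'' hst.symm hs.1)⟩) hst) hs.2

end Pool.Agent.P.MP_bb4f54_co.T4

end sLK4

section sBLK
/-! Step BLK. -/

set_option autoImplicit false
set_option linter.unusedSectionVars false

namespace Pool.Agent.P.MP_bb4f54_co.T4

open Pool.Agent.P.MP_bb4f54_co.T3

namespace BLKx

theorem sum_enum (K : Finset ℕ) (f a : ℕ → ℕ) :
    ∑ i ∈ K, (if h : i ∈ K then f (K.equivFin ⟨i, h⟩) else a i) =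
      ∑ j ∈ Finset.range K.card, f j := by
  rw [← Finset.sum_coe_sort K, Finset.sum_range, ← Equiv.sum_comp K.equivFin]
  exact Finset.sum_congr rfl fun x _ => dif_pos x.2

end BLKx

theorem p_BLK (hBEZ : S_BEZ) :
    S_BLK := by
  classical
  intro s
  have h0 : ∀ B : Finset ℕ, ∃ u₀ : ℕ, (B : Set ℕ).Nonempty →
      (∀ d : ℕ, (∀ m ∈ (B : Set ℕ), ∀ m' ∈ (B : Set ℕ), m ≡ m' [MOD d]) → d ∣ 4) →
      ∀ u, u₀ ≤ u → ∃ f g : ℕ → ℕ, (∀ i, f i ∈ (B : Set ℕ) ∧ g i ∈ (B : Set ℕ)) ∧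
        ∑ i ∈ Finset.range u, g i = ∑ i ∈ Finset.range u, f i + 4 := by
    intro B
    by_cases h : (B : Set ℕ).Nonempty ∧
        ∀ d : ℕ, (∀ m ∈ (B : Set ℕ), ∀ m' ∈ (B : Set ℕ), m ≡ m' [MOD d]) → d ∣ 4
    · obtain ⟨u₀, hu⟩ := hBEZ B h.1 h.2
      exact ⟨u₀, fun _ _ => hu⟩
    · exact ⟨0, fun h1 h2 => absurd ⟨h1, h2⟩ h⟩
  choose u₀ hu using h0
  let T : Finset (Finset ℕ) := (Finset.range (s + 1)).powerset
  let U : ℕ := T.sup u₀
  refine ⟨T.card * (U + 1), Nat.mul_pos (Finset.card_pos.2 ⟨∅, Finset.empty_mem_powerset _⟩)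
    (Nat.succ_pos _), fun A I hI hA => ?_⟩
  let φ : ℕ → Finset ℕ := fun i => (Finset.range (s + 1)).filter (· ∈ A i)
  obtain ⟨B, hB, hK⟩ := Finset.exists_le_card_fiber_of_mul_le_card_of_maps_to (s := I) (t := T)
    (f := φ) (n := U + 1) (fun i _ => Finset.mem_powerset.2 (Finset.filter_subset _ _))
    ⟨∅, Finset.empty_mem_powerset _⟩ hI
  set K := I.filter (fun i => φ i = B) with hKd
  have hKI : K ⊆ I := Finset.filter_subset _ _
  have hAB : ∀ i ∈ K, A i = (B : Set ℕ) := by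
    intro i hi
    obtain ⟨h1, h2⟩ := Finset.mem_filter.1 hi
    ext m
    rw [← h2, Finset.mem_coe, Finset.mem_filter, Finset.mem_range]
    exact ⟨fun h => ⟨Nat.lt_succ_of_le ((hA i h1).2.1 m h), h⟩, fun h => h.2⟩
  obtain ⟨i₀, hi₀⟩ : K.Nonempty := Finset.card_pos.1 (by omega)
  have h1 := hA i₀ (hKI hi₀)
  rw [hAB i₀ hi₀] at h1
  have hU : u₀ B ≤ U := Finset.le_sup hB
  obtain ⟨f, g, hfg, hs⟩ := hu B h1.1 h1.2.2 K.card (by omega)
  have h2 : ∀ i, ∃ a, i ∈ I → a ∈ A i := fun i => by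
    by_cases h : i ∈ I
    · obtain ⟨a, ha⟩ := (hA i h).1
      exact ⟨a, fun _ => ha⟩
    · exact ⟨0, fun h' => absurd h' h⟩
  choose a ha using h2
  refine ⟨fun i => if h : i ∈ K then f (K.equivFin ⟨i, h⟩) else a i,
    fun i => if h : i ∈ K then g (K.equivFin ⟨i, h⟩) else a i, fun i hi => ?_, ?_⟩
  · by_cases h : i ∈ K
    · simp only [dif_pos h]
      rw [hAB i h]
      exact ⟨(hfg _).1, (hfg _).2⟩
    · simp only [dif_neg h]
      exact ⟨ha i hi, ha i hi⟩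
  · rw [← Finset.sum_sdiff hKI, ← Finset.sum_sdiff hKI, BLKx.sum_enum, BLKx.sum_enum, hs,
      ← add_assoc]
    congr 2
    refine Finset.sum_congr rfl fun i hi => ?_
    have h := (Finset.mem_sdiff.1 hi).2
    simp only [dif_neg h]

end Pool.Agent.P.MP_bb4f54_co.T4

end sBLK

section sBEZ
/-! Step BEZ. -/

set_option autoImplicit false
set_option linter.unusedSectionVars false

namespace Pool.Agent.P.MP_bb4f54_co.T4

open Pool.Agent.P.MP_bb4f54_co.T3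

namespace BEZx

open Finset

/-- `z` is a difference of two sums of `u` elements of `A`. -/
def Q (A : Set ℕ) (u : ℕ) (z : ℤ) : Prop := ∃ f g : ℕ → ℕ, (∀ i, f i ∈ A ∧ g i ∈ A) ∧
  ∑ i ∈ range u, (g i : ℤ) = ∑ i ∈ range u, (f i : ℤ) + z

variable {A : Set ℕ} {u v : ℕ} {z z' : ℤ}

theorem cat (f f' : ℕ → ℕ) (u v : ℕ) :
    ∑ i ∈ range (u + v), ((if i < u then f i else f' (i - u) : ℕ) : ℤ) =
      ∑ i ∈ range u, (f i : ℤ) + ∑ i ∈ range v, (f' i : ℤ) := by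
  rw [sum_range_add]
  congr 1
  · exact sum_congr rfl fun i hi => by rw [if_pos (mem_range.1 hi)]
  · exact sum_congr rfl fun i _ => by rw [if_neg (by omega), Nat.add_sub_cancel_left]

theorem Q.add (h : Q A u z) (h' : Q A v z') : Q A (u + v) (z + z') := by
  obtain ⟨f, g, a, b⟩ := h
  obtain ⟨f', g', a', b'⟩ := h'
  refine ⟨fun i => if i < u then f i else f' (i - u), fun i => if i < u then g i else g' (i - u),
    fun i => ?_, ?_⟩
  · by_cases c : i < u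
    · simpa only [if_pos c] using a i
    · simpa only [if_neg c] using a' (i - u)
  · rw [cat, cat, b, b']
    ring

theorem Q.zero (h : A.Nonempty) (u : ℕ) : Q A u 0 :=
  ⟨fun _ => h.some, fun _ => h.some, fun _ => ⟨h.some_mem, h.some_mem⟩, (add_zero _).symm⟩

/-- The group of all differences. -/
def H (h : A.Nonempty) : AddSubgroup ℤ where
  carrier := {z | ∃ u, Q A u z}
  add_mem' := fun ⟨u, a⟩ ⟨v, b⟩ => ⟨u + v, a.add b⟩
  zero_mem' := ⟨0, Q.zero h 0⟩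
  neg_mem' := fun ⟨u, f, g, a, b⟩ => ⟨u, g, f, fun i => (a i).symm, by rw [b]; ring⟩

end BEZx

open BEZx in
theorem p_BEZ :
    S_BEZ := by
  intro A hA h
  obtain ⟨d, hd⟩ := Int.subgroup_cyclic (H hA)
  have h4 : d.natAbs ∣ 4 := h _ fun m hm m' hm' => by
    have : (m' : ℤ) - m ∈ H hA := ⟨1, fun _ => m, fun _ => m', fun _ => ⟨hm, hm'⟩, by simp⟩
    rw [hd, AddSubgroup.mem_closure_singleton] at this
    obtain ⟨n, e⟩ := this
    rw [Nat.modEq_iff_dvd, Int.natAbs_dvd, ← e]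
    exact Dvd.intro_left n rfl
  have : (4 : ℤ) ∈ H hA := by
    rw [hd, AddSubgroup.mem_closure_singleton]
    obtain ⟨n, e⟩ := Int.natAbs_dvd.1 (Int.natCast_dvd_natCast.2 h4)
    exact ⟨n, by rw [smul_eq_mul, mul_comm, ← e]; rfl⟩
  obtain ⟨u₀, q⟩ := this
  refine ⟨u₀, fun u hu => ?_⟩
  obtain ⟨v, rfl⟩ := Nat.exists_eq_add_of_le hu
  obtain ⟨f, g, a, b⟩ := q.add (Q.zero hA v)
  exact ⟨f, g, a, by exact_mod_cast b⟩

end Pool.Agent.P.MP_bb4f54_co.T4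

end sBEZ

section sGAP
/-! Step GAP. -/

set_option autoImplicit false
set_option linter.unusedSectionVars false

namespace Pool.Agent.P.MP_bb4f54_co.T4

open Pool.Agent.P.MP_bb4f54_co.T3

namespace GAPx

variable {V : Type} [Fintype V] {G : SimpleGraph V} {x y : V}

/-- Consecutive cuts. -/
def Cons (G : SimpleGraph V) (x y : V) (X X' : Set V) : Prop :=
  Mem G x y X ∧ Mem G x y X' ∧ X ⊂ X' ∧ ∀ Z, Mem G x y Z → X ⊆ Z → Z ⊆ X' → Z = X ∨ Z = X'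

theorem Cons.compl {X X' : Set V} (h : Cons G x y X X') : Cons G y x X'ᶜ Xᶜ := by
  obtain ⟨h1, h2, h3, h4⟩ := h
  refine ⟨h2.compl, h1.compl, compl_lt_compl_iff_lt.2 h3, fun Z hZ a b => ?_⟩
  rcases h4 Zᶜ hZ.compl (Set.subset_compl_comm.1 b) (Set.compl_subset_comm.1 a) with e | e
  · exact Or.inr (by rw [← e, compl_compl])
  · exact Or.inl (by rw [← e, compl_compl])

theorem succ (hMEM : S_MEM) (hc : Cb G) (hn : N2 G) (ha : G.Adj x y) {X : Set V}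
    (hX : Mem G x y X) (ht : Xᶜ.Nontrivial) : ∃ X', Cons G x y X X' := by
  have h1 : Mem G x y {y}ᶜ := by
    obtain ⟨a, b, c, d, e, -⟩ := (hMEM G y x hc hn ha.symm).2
    exact Mem.compl ⟨a, b, c, d, e⟩
  have h2 : X ⊂ {y}ᶜ := by
    obtain ⟨a, b, c, d, e⟩ := hX
    refine ⟨Set.subset_compl_singleton_iff.2 e.n.1, fun h => ?_⟩
    obtain ⟨z, hz, hzy⟩ := ht.exists_ne y
    exact hz (h hzy)
  obtain ⟨X', ⟨h3, h4⟩, h5⟩ := Set.exists_min_image {Z | Mem G x y Z ∧ X ⊂ Z} Set.ncard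
    (Set.toFinite _) ⟨_, h1, h2⟩
  refine ⟨X', hX, h3, h4, fun Z hZ a b => ?_⟩
  rcases a.eq_or_ssubset with e | e
  · exact Or.inl e.symm
  · exact Or.inr (Set.eq_of_subset_of_ncard_le b (h5 Z ⟨hZ, e⟩))

theorem pred (hMEM : S_MEM) (hc : Cb G) (hn : N2 G) (ha : G.Adj x y) {X : Set V}
    (hX : Mem G x y X) (ht : X.Nontrivial) : ∃ Z, Cons G x y Z X := by
  obtain ⟨W, hW⟩ := succ hMEM hc hn ha.symm hX.compl (by rwa [compl_compl])
  exact ⟨Wᶜ, by simpa only [compl_compl] using hW.compl⟩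

end GAPx

open GAPx in
theorem p_GAP (hMEM : S_MEM) (hCHN : S_CHN) (hTPS : S_TPS) :
    S_GAP := by
  intro V _ G x y M hc hn ha
  have _h : S_CHN := hCHN
  refine or_iff_not_imp_left.2 fun h => ?_
  push Not at h
  obtain ⟨X₀, h1, h2, h3⟩ := h
  obtain ⟨X₁, h4⟩ := succ hMEM hc hn ha h1 h2
  obtain ⟨⟨X, X'⟩, h5, h6⟩ := Set.exists_max_image {q : Set V × Set V | Cons G x y q.1 q.2}
    (fun q => (q.2 \ q.1).ncard) (Set.toFinite _) ⟨(X₀, X₁), h4⟩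
  have h5' : Cons G x y X X' := h5
  obtain ⟨n₁, a1, a2⟩ := hTPS G x y X (X' \ X).ncard hc hn h5'.1 fun ht => by
    obtain ⟨Z, hZ⟩ := pred hMEM hc hn ha h5'.1 ht
    exact ⟨Z, hZ.1, hZ.2.2.1, h6 (Z, X) hZ⟩
  obtain ⟨n₂, b1, b2⟩ := hTPS G y x X'ᶜ (X' \ X).ncard hc hn h5'.2.1.compl fun ht => by
    obtain ⟨W, hW⟩ := succ hMEM hc hn ha h5'.2.1 ht
    refine ⟨Wᶜ, hW.compl.1, hW.compl.2.2.1, ?_⟩
    rw [compl_sdiff_compl]
    exact h6 (X', W) hW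
  exact ⟨X, X', n₁, n₂, h5'.1, h5'.2.1, h5'.2.2.1,
    (h3 X₁ h4.2.1 h4.2.2.1).trans_le (h6 (X₀, X₁) h4), h5'.2.2.2, a2, b2, a1, b1⟩

end Pool.Agent.P.MP_bb4f54_co.T4

end sGAP

section sDEX
/-! Step DEX. -/

set_option autoImplicit false
set_option linter.unusedSectionVars false

namespace Pool.Agent.P.MP_bb4f54_co.T4

open Pool.Agent.P.MP_bb4f54_co.T3

theorem p_DEX (hTW2 : S_TW2) (hLK4 : S_LK4) :
    S_DEX := by
  intro V _ G x y u₁ v₁ u₂ v₂ u₁' v₁' u₂' v₂' X X' hC hN c c' hX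
  have hm := (hLK4 G x y u₁ v₁ u₂ v₂ u₁' v₁' u₂' v₂' X X' hN c c' hX).1.m
  refine hTW2 G _ _ _ _ _ fun z => ?_
  by_contra hn
  obtain ⟨Y, hY⟩ : ∃ Y : Set V, ∀ w, w ∈ Y ↔
      w ∈ X ∨ ∃ a, (a = v₁ ∨ a = v₂) ∧ w ∈ RS G ((X' \ X) \ {z}) a :=
    ⟨{w | _}, fun _ => Iff.rfl⟩
  have hx : x ∈ Y := (hY x).2 (.inl c.m.1)
  have hy : y ∉ Y := fun h => by
    rcases (hY y).1 h with h | ⟨a, -, h⟩
    · exact c.n.1 h
    · exact c'.n.1 (RS.sub h).1.1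
  have k : ∀ a ∈ Y, ∀ b, b ∉ Y → G.Adj a b → (a, b) = (x, y) ∨ (b = z ∧ z ∈ X') := by
    intro a ha b hb e
    have hb' : b ∉ X := fun h => hb ((hY b).2 (.inl h))
    rcases (hY a).1 ha with h | ⟨v, hv, h⟩
    · have := c.out a h b hb' e
      simp only [List.mem_cons, List.not_mem_nil, or_false] at this
      refine this.imp_right fun t => ?_
      have t' : b = v₁ ∨ b = v₂ := t.imp (congrArg Prod.snd) (congrArg Prod.snd)
      have t2 : b ∈ X' \ X := by rcases t' with rfl | rfl; exacts [hm.1, hm.2.1]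
      by_cases d : b = z
      · exact ⟨d, d ▸ t2.1⟩
      · exact absurd ((hY b).2 (.inr ⟨b, t', RS.self ⟨t2, d⟩⟩)) hb
    · by_cases t : b ∈ X'
      · by_cases d : b = z
        · exact .inr ⟨d, d ▸ t⟩
        · exact absurd ((hY b).2 (.inr ⟨v, hv, RS.step h e ⟨⟨t, hb'⟩, d⟩⟩)) hb
      · have := c'.out a (RS.sub h).1.1 b t e
        simp only [List.mem_cons, List.not_mem_nil, or_false] at this
        refine .inl (this.resolve_right fun t => ?_)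
        obtain ⟨n, h⟩ := h
        exact hn ⟨v, a, n, hv, t.imp (congrArg Prod.fst) (congrArg Prod.fst), h⟩
  by_cases d : ∃ a ∈ Y, ∃ a' ∈ Y, a ≠ a' ∧ G.Adj z a ∧ G.Adj z a' ∧ z ∈ X'
  · obtain ⟨a, ha, a', ha', h1, h2, h3, h4⟩ := d
    obtain ⟨t, -, -, -, ht⟩ := hC.third h2 h3 h1
    refine hN (insert z Y) ⟨z, .inl rfl⟩ ⟨y, fun h => h.elim (fun e => c'.n.1 (e ▸ h4)) hy⟩
      (x, y) (z, t) fun p hp q hq e => ?_
    rw [Set.mem_insert_iff, not_or] at hq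
    rcases hp with rfl | hp
    · rcases ht q e with rfl | rfl | rfl
      · exact absurd ha hq.2
      · exact absurd ha' hq.2
      · simp
    · simp [(k p hp q hq.2 e).resolve_right fun t => hq.1 t.1]
  · obtain ⟨a, ha⟩ : ∃ a, ∀ p ∈ Y, G.Adj z p → z ∈ X' → p = a := by
      by_cases f : ∃ a ∈ Y, G.Adj z a
      · obtain ⟨a, h1, h2⟩ := f
        exact ⟨a, fun p hp e h => by_contra fun t => d ⟨p, hp, a, h1, t, e, h2, h⟩⟩
      · exact ⟨x, fun p hp e _ => absurd ⟨p, hp, e⟩ f⟩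
    refine hN Y ⟨x, hx⟩ ⟨y, hy⟩ (x, y) (a, z) fun p hp q hq e => ?_
    rcases k p hp q hq e with t | ⟨rfl, t⟩
    · simp [t]
    · simp [ha p hp e.symm t]

end Pool.Agent.P.MP_bb4f54_co.T4

end sDEX

section sSEQ
/-! Step SEQ. -/

set_option autoImplicit false
set_option linter.unusedSectionVars false

namespace Pool.Agent.P.MP_bb4f54_co.T4

open Pool.Agent.P.MP_bb4f54_co.T3

theorem p_SEQ (hMEM : S_MEM) :
    S_SEQ := by
  intro V _ G x y M t hC hN hxy hstep hn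
  have hcomp : ∀ X : Set V, X.ncard + 2 ≤ Fintype.card V → Xᶜ.Nontrivial := fun X hX => by
    have := Set.ncard_add_ncard_compl X
    rw [Nat.card_eq_fintype_card] at this
    exact Set.one_lt_ncard_iff_nontrivial.1 (by omega)
  have one : ∀ X, Mem G x y X → X.ncard + 2 ≤ Fintype.card V →
      ∃ X', Mem G x y X' ∧ X ⊆ X' ∧ X.ncard + 1 ≤ X'.ncard ∧ X'.ncard ≤ X.ncard + M := by
    intro X hX h2
    obtain ⟨X', h3, h4, h5⟩ := hstep X hX (hcomp X h2)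
    have h6 := Set.ncard_sdiff_add_ncard_of_subset h4.1
    exact ⟨X', h3, h4.1, Set.ncard_lt_ncard h4, by omega⟩
  have three : ∀ X : Set V, ∃ X', Mem G x y X → X.ncard + 2 * M + 2 ≤ Fintype.card V →
      Mem G x y X' ∧ X ⊆ X' ∧ X.ncard + 3 ≤ X'.ncard ∧ X'.ncard ≤ X.ncard + 3 * M := by
    intro X
    by_cases h : Mem G x y X ∧ X.ncard + 2 * M + 2 ≤ Fintype.card V
    · obtain ⟨X1, a1, a2, a3, a4⟩ := one X h.1 (by omega)
      obtain ⟨X2, b1, b2, b3, b4⟩ := one X1 a1 (by omega)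
      obtain ⟨X3, c1, c2, c3, c4⟩ := one X2 b1 (by omega)
      exact ⟨X3, fun _ _ => ⟨c1, a2.trans (b2.trans c2), by omega, by omega⟩⟩
    · exact ⟨X, fun h1 h2 => absurd ⟨h1, h2⟩ h⟩
  choose F hF using three
  obtain ⟨u₁, v₁, u₂, v₂, h0, -⟩ := (hMEM G x y hC hN hxy).2
  obtain ⟨X0, a1, -, a3, a4⟩ := one {x} ⟨_, _, _, _, h0⟩ (by rw [Set.ncard_singleton]; omega)
  rw [Set.ncard_singleton] at a3 a4
  have hb : ∀ i, i < t → 3 * M * i + 3 * M ≤ 3 * M * t := fun i hi => by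
    rw [← Nat.mul_succ]
    exact Nat.mul_le_mul_left _ hi
  have inv : ∀ i, i ≤ t → Mem G x y (F^[i] X0) ∧ (F^[i] X0).ncard ≤ 1 + M + 3 * M * i := by
    intro i
    induction i with
    | zero => exact fun _ => ⟨a1, by simpa using a4⟩
    | succ i ih =>
      intro hi
      obtain ⟨b1, b2⟩ := ih (by omega)
      have := hb i hi
      obtain ⟨c1, -, -, c4⟩ := hF _ b1 (by omega)
      rw [Function.iterate_succ_apply', Nat.mul_succ]
      exact ⟨c1, by omega⟩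
  refine ⟨fun i => F^[i] X0, Set.one_lt_ncard_iff_nontrivial.1 a3, hcomp _ ?_,
    fun i hi => (inv i hi).1, fun i hi => ?_⟩
  · have := (inv t le_rfl).2
    show (F^[t] X0).ncard + 2 ≤ _
    omega
  · obtain ⟨b1, b2⟩ := inv i hi.le
    have := hb i hi
    obtain ⟨-, c2, c3, c4⟩ := hF _ b1 (by omega)
    have h6 := Set.ncard_sdiff_add_ncard_of_subset c2
    simp only [Function.iterate_succ_apply']
    exact ⟨c2, by omega, by omega⟩

end Pool.Agent.P.MP_bb4f54_co.T4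

end sSEQ

section sSMA
/-! Step SMA. -/

set_option autoImplicit false
set_option linter.unusedSectionVars false

namespace Pool.Agent.P.MP_bb4f54_co.T4

open Pool.Agent.P.MP_bb4f54_co.T3

theorem p_SMA (hTPZ : S_TPZ) (hGRP : S_GRP) (hEND : S_END) (hAR4 : S_AR4) (hSQ4 : S_SQ4) (hSEQ : S_SEQ) :
    S_SMA := by
  intro M
  obtain ⟨c, hc, hA⟩ := hAR4 (3 * (M + 1) + 2)
  obtain ⟨D, hD⟩ : ∃ D, D = 3 * (M + 1) * c := ⟨_, rfl⟩
  have hD0 : 0 < D := by rw [hD]; positivity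
  obtain ⟨N, hN⟩ := hSQ4 (2 * D + M + 4)
  refine ⟨N + D + M + 4, fun {V} _ G x y cb n2 hxy hn hM => ?_⟩
  obtain ⟨J, hJ⟩ : ∃ J, J = (Fintype.card V - (M + 4)) / D := ⟨_, rfl⟩
  have j1 : D * J ≤ Fintype.card V - (M + 4) := hJ ▸ Nat.mul_div_le _ _
  have j2 : Fintype.card V - (M + 4) < D * (J + 1) := hJ ▸ Nat.lt_mul_div_succ _ hD0
  have j3 : 1 ≤ J := hJ ▸ (Nat.le_div_iff_mul_le hD0).2 (by omega)
  obtain ⟨f, f0, ft, fm, fs⟩ := hSEQ G x y (M + 1) (c * J) cb n2 hxy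
    (fun X a b => let ⟨X', h1, h2, h3⟩ := hM X a b; ⟨X', h1, h2, h3.trans (Nat.le_succ M)⟩) (by
      rw [← mul_assoc, ← hD]; omega)
  obtain ⟨z1, z2⟩ := hTPZ G x y
  have mx : ∀ i, i ≤ c * J → x ∈ f i ∧ y ∉ f i := fun i hi =>
    let ⟨_, _, _, _, h⟩ := fm i hi; ⟨h.m.1, h.n.1⟩
  by_contra hP
  have n4 : ∀ U : Set V, x ∉ U ∨ y ∉ U → ¬ CyIn G U 4 := fun U h1 h2 =>
    hP ⟨2, le_rfl, z1 U 4 h1 h2⟩
  obtain ⟨n₁, n₁', a1, a2, a3⟩ := hEND G x y (f 0) cb n2 (fm 0 (Nat.zero_le _)) f0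
    (n4 _ (Or.inr (mx 0 (Nat.zero_le _)).2))
  obtain ⟨n₂, n₂', b1, b2, b3⟩ := hEND G y x (f (c * J))ᶜ cb n2 (fm _ le_rfl).compl ft
    (n4 _ (Or.inl fun h => h (mx _ le_rfl).1))
  obtain ⟨L, hL⟩ := hA (fun i => Lam G x y (f i) (f (i + 1))) J fun i hi => by
    obtain ⟨s1, s2, s3⟩ := fs i hi
    obtain ⟨g1, g2⟩ := hGRP G x y (f i) (f (i + 1)) cb n2 (fm i hi.le) (fm _ hi) s1 s2
      (n4 _ (Or.inl fun h => h.2 (mx i hi.le).1))
    exact ⟨g1, fun m hm => hm.1.trans (by omega), g2⟩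
  have key : ∀ a b j, (a = n₁ ∨ a = n₁') → (b = n₂ ∨ b = n₂') → j ≤ J →
      HasC (G.deleteEdges {s(x, y)}) (a + (L + 4 * j) + b + 2) ∧
        a + (L + 4 * j) + b + 2 ≤ Fintype.card V := fun a b j ha hb hj => by
    obtain ⟨g, g1, g2⟩ := hL j hj
    have : ∀ i, i ≤ c * J → TP G x y (f i) (a + ∑ k ∈ Finset.range i, g k) := fun i => by
      induction i with
      | zero => rcases ha with rfl | rfl <;> intro _ <;> simpa
      | succ i ih =>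
        intro hi
        rw [Finset.sum_range_succ, ← add_assoc]
        exact (g1 i hi).2 _ (ih (by omega))
    exact z2 _ _ _ (g2 ▸ this _ le_rfl) (by rcases hb with rfl | rfl <;> assumption)
  obtain ⟨a, b, j, k, ha, hb, hj, hk, e⟩ := hN (Fintype.card V) J L n₁ n₁' n₂ n₂' (by omega)
    (by nlinarith [Nat.sub_add_cancel (show M + 4 ≤ Fintype.card V by omega)]) a3 b3
    fun a b ha hb => (key a b 0 ha hb (Nat.zero_le _)).2
  exact hP ⟨k, hk, e ▸ (key a b j ha hb hj).1⟩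

end Pool.Agent.P.MP_bb4f54_co.T4

end sSMA

section sCHN
/-! Step CHN. -/

set_option autoImplicit false
set_option linter.unusedSectionVars false

namespace Pool.Agent.P.MP_bb4f54_co.T4

open Pool.Agent.P.MP_bb4f54_co.T3

namespace CHNx

theorem four {V : Type} {G : SimpleGraph V} {A : Set V} (h : ∀ e₁ e₂, ¬ Out G A [e₁, e₂])
    {g₁ g₂ g₃ g₄ : V × V} {P₁ P₂ P₃ P₄ : Prop}
    (ho : ∀ a ∈ A, ∀ b, b ∉ A → G.Adj a b → ((a, b) = g₁ ∧ P₁) ∨ ((a, b) = g₂ ∧ P₂) ∨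
      ((a, b) = g₃ ∧ P₃) ∨ ((a, b) = g₄ ∧ P₄)) :
    (P₁ ∨ P₂) ∧ (P₁ ∨ P₃) ∧ (P₁ ∨ P₄) ∧ (P₂ ∨ P₃) ∧ (P₂ ∨ P₄) ∧ (P₃ ∨ P₄) := by
  refine ⟨?_, ?_, ?_, ?_, ?_, ?_⟩ <;> by_contra c
  · exact h g₃ g₄ fun a ha b hb e => by have := ho a ha b hb e; simp; tauto
  · exact h g₂ g₄ fun a ha b hb e => by have := ho a ha b hb e; simp; tauto
  · exact h g₂ g₃ fun a ha b hb e => by have := ho a ha b hb e; simp; tauto
  · exact h g₁ g₄ fun a ha b hb e => by have := ho a ha b hb e; simp; tauto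
  · exact h g₁ g₃ fun a ha b hb e => by have := ho a ha b hb e; simp; tauto
  · exact h g₁ g₂ fun a ha b hb e => by have := ho a ha b hb e; simp; tauto

theorem key {V : Type} {G : SimpleGraph V} {x y u₁ v₁ u₂ v₂ s₁ t₁ s₂ t₂ : V} {X Y : Set V}
    (h : N2 G) (c : C3e G x y X u₁ v₁ u₂ v₂) (d : C3e G x y Y s₁ t₁ s₂ t₂) (hn : ¬ X ⊆ Y) :
    (u₁ ∉ Y ∨ u₂ ∉ Y) ∧ (u₁ ∉ Y ∨ s₁ ∈ X) ∧ (u₁ ∉ Y ∨ s₂ ∈ X) ∧ (u₂ ∉ Y ∨ s₁ ∈ X) ∧
      (u₂ ∉ Y ∨ s₂ ∈ X) ∧ (s₁ ∈ X ∨ s₂ ∈ X) := by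
  refine four (h (X \ Y) (Set.not_subset.1 hn) ⟨x, fun e => e.2 d.m.1⟩) (g₁ := (u₁, v₁))
    (g₂ := (u₂, v₂)) (g₃ := (t₁, s₁)) (g₄ := (t₂, s₂)) fun a ha b hb e => ?_
  have hx := d.m.1
  have hy := c.n.1
  obtain ⟨h1, h2⟩ := ha
  by_cases hX : b ∈ X
  · have := d.out b (by_contra fun k => hb ⟨hX, k⟩) a h2 e.symm
    simp only [List.mem_cons, List.not_mem_nil, or_false, Prod.mk.injEq] at this ⊢
    grind
  · have := c.out a h1 b hX e
    simp only [List.mem_cons, List.not_mem_nil, or_false, Prod.mk.injEq] at this ⊢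
    grind

end CHNx

theorem p_CHN :
    S_CHN := by
  rintro V G x y X Y h ⟨u₁, v₁, u₂, v₂, c⟩ ⟨s₁, t₁, s₂, t₂, d⟩
  by_contra hn
  have h1 := CHNx.key h c d fun e => hn (Or.inl e)
  have h2 := CHNx.key h d c fun e => hn (Or.inr e)
  clear hn c d h
  grind

end Pool.Agent.P.MP_bb4f54_co.T4

end sCHN

section sAR4
/-! Step AR4. -/

set_option autoImplicit false
set_option linter.unusedSectionVars false

namespace Pool.Agent.P.MP_bb4f54_co.T4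

open Pool.Agent.P.MP_bb4f54_co.T3

namespace AR4x

theorem glue (A : ℕ → Set ℕ) (a b : ℕ) (hab : a ≤ b) (f g : ℕ → ℕ) (hf : ∀ i, i < a → f i ∈ A i)
    (hg : ∀ i ∈ Finset.Ico a b, g i ∈ A i) :
    ∃ h : ℕ → ℕ, (∀ i, i < b → h i ∈ A i) ∧
      ∑ i ∈ Finset.range b, h i = ∑ i ∈ Finset.range a, f i + ∑ i ∈ Finset.Ico a b, g i := by
  refine ⟨fun i => if i < a then f i else g i, fun i hi => ?_, ?_⟩
  · by_cases h : i < a
    · simpa [h] using hf i h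
    · simpa [h] using hg i (Finset.mem_Ico.2 ⟨not_lt.1 h, hi⟩)
  · rw [← Finset.sum_range_add_sum_Ico _ hab]
    congr 1
    · exact Finset.sum_congr rfl fun i hi => if_pos (Finset.mem_range.1 hi)
    · exact Finset.sum_congr rfl fun i hi => if_neg (not_lt.2 (Finset.mem_Ico.1 hi).1)

end AR4x

theorem p_AR4 (hBLK : S_BLK) :
    S_AR4 := by
  intro s
  obtain ⟨c, hc, hB⟩ := hBLK s
  refine ⟨c, hc, fun A J => ?_⟩
  induction J with
  | zero =>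
    intro _
    exact ⟨0, fun j hj => ⟨fun _ => 0, by simp, by simp; omega⟩⟩
  | succ J ih =>
    intro hA
    have hle : c * J ≤ c * (J + 1) := Nat.mul_le_mul_left _ (Nat.le_succ _)
    obtain ⟨L, hL⟩ := ih fun i hi => hA i (hi.trans_le hle)
    obtain ⟨f, g, hfg, hs⟩ := hB A (Finset.Ico (c * J) (c * (J + 1)))
      (by rw [Nat.card_Ico, mul_add, mul_one]; omega)
      fun i hi => hA i (Finset.mem_Ico.1 hi).2
    refine ⟨L + ∑ i ∈ Finset.Ico (c * J) (c * (J + 1)), f i, fun j hj => ?_⟩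
    by_cases h : j ≤ J
    · obtain ⟨f₀, h1, h2⟩ := hL j h
      obtain ⟨k, k1, k2⟩ := AR4x.glue A _ _ hle f₀ f h1 fun i hi => (hfg i hi).1
      exact ⟨k, k1, by rw [k2, h2]; omega⟩
    · obtain ⟨f₀, h1, h2⟩ := hL J le_rfl
      obtain ⟨k, k1, k2⟩ := AR4x.glue A _ _ hle f₀ g h1 fun i hi => (hfg i hi).2
      exact ⟨k, k1, by rw [k2, h2, hs]; omega⟩

end Pool.Agent.P.MP_bb4f54_co.T4

end sAR4

section sCYC
/-! Step CYC. -/

set_option autoImplicit false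
set_option linter.unusedSectionVars false

namespace Pool.Agent.P.MP_bb4f54_co.T4

open Pool.Agent.P.MP_bb4f54_co.T3

namespace CYCx

theorem walk {V : Type} {G : SimpleGraph V} {p : ℕ → V} {n : ℕ} (h : Str G p n) :
    ∀ k, k ≤ n → ∃ w : G.Walk (p 0) (p k), w.IsPath ∧ w.length = k ∧
      ∀ x ∈ w.support, ∃ i, i ≤ k ∧ x = p i := by
  intro k
  induction k with
  | zero => exact fun _ => ⟨.nil, .nil, rfl, fun x hx => ⟨0, le_rfl, by simpa using hx⟩⟩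
  | succ k ih =>
    intro hk
    obtain ⟨w, a, b, c⟩ := ih (by omega)
    refine ⟨w.concat (h.adj k hk), a.concat (fun hx => ?_) _, by simp [b], fun x hx => ?_⟩
    · obtain ⟨i, hi, e⟩ := c _ hx
      have := h.inj _ _ hk (by omega) e
      omega
    · rw [SimpleGraph.Walk.support_concat, List.mem_append, List.mem_singleton] at hx
      rcases hx with hx | hx
      · obtain ⟨i, hi, e⟩ := c _ hx
        exact ⟨i, by omega, e⟩
      · exact ⟨k + 1, le_rfl, hx⟩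

end CYCx

theorem p_CYC :
    S_CYC := by
  rintro V _ G U t ⟨u, v, n, h, hadj, hn, rfl⟩
  constructor
  · obtain ⟨p, a, rfl, rfl, -⟩ := h
    obtain ⟨w, b, c, -⟩ := CYCx.walk a n le_rfl
    refine ⟨_, .cons hadj w, (SimpleGraph.Walk.cons_isCycle_iff w hadj).2 ⟨b, fun e => ?_⟩,
      by simp [c]⟩
    have := b.length_eq_one_of_mem_edges (Sym2.eq_swap ▸ e)
    omega
  · have h1 := h.lt_ncard
    have h2 := Set.ncard_le_card U
    rw [Nat.card_eq_fintype_card] at h2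
    omega

end Pool.Agent.P.MP_bb4f54_co.T4

end sCYC

section sTPZ
/-! Step TPZ. -/

set_option autoImplicit false
set_option linter.unusedSectionVars false

namespace Pool.Agent.P.MP_bb4f54_co.T4

open Pool.Agent.P.MP_bb4f54_co.T3

namespace TPZx

variable {V : Type} {G : SimpleGraph V} {x y : V}

lemma del {a b : V} (h : G.Adj a b) (h₁ : (x, y) ≠ (a, b)) (h₂ : (y, x) ≠ (a, b)) :
    (G.deleteEdges {s(x, y)}).Adj a b := by
  rw [SimpleGraph.deleteEdges_adj, Set.mem_singleton_iff, Sym2.eq_iff]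
  grind

lemma ins {U : Set V} (h : x ∉ U ∨ y ∉ U) :
    ∀ a ∈ U, ∀ b ∈ U, G.Adj a b → (G.deleteEdges {s(x, y)}).Adj a b :=
  fun a ha b hb e => del e (by grind) (by grind)

end TPZx

open TPZx in
theorem p_TPZ (hCYC : S_CYC) :
    S_TPZ := by
  intro V _ G x y
  refine ⟨fun U t hU h => (hCYC _ U t (h.transfer (ins hU))).1, ?_⟩
  rintro X n n' ⟨u₁, v₁, u₂, v₂, c, h⟩ h'
  have h₂ := h'.pl c.compl
  obtain ⟨m, o, adj, ne, -⟩ := c
  have hn : 1 ≤ n + n' := by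
    by_contra h0
    obtain rfl : n = 0 := by omega
    obtain rfl : n' = 0 := by omega
    exact ne.2.2 (by rw [h.eq_of_zero, h₂.eq_of_zero])
  refine hCYC _ (X ∪ Xᶜ) _ ⟨u₁, v₁, n + 1 + n', (h.transfer (ins (Or.inr o.1))).join
    (del adj.2.2 ne.2.1 (by grind)) (h₂.symm.transfer (ins (Or.inl (not_not.2 m.1))))
    disjoint_compl_right, (del adj.2.1 ne.1 (by grind)).symm, by omega, by omega⟩

end Pool.Agent.P.MP_bb4f54_co.T4

end sTPZ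

section sTPC
/-! Step TPC. -/

set_option autoImplicit false
set_option linter.unusedSectionVars false

namespace Pool.Agent.P.MP_bb4f54_co.T4

open Pool.Agent.P.MP_bb4f54_co.T3

namespace TPCx

theorem core {V : Type} [Fintype V] {G : SimpleGraph V} {X X' U₁ U₂ : Set V}
    {u₁ v₁ u₂ v₂ a b : V} {n₁ n₂ : ℕ} (hX : X ⊆ X') (s₁ : U₁ ⊆ X' \ X) (s₂ : U₂ ⊆ X' \ X)
    (hd : Disjoint U₁ U₂) (e₁ : G.Adj u₁ v₁) (e₂ : G.Adj u₂ v₂) (p₁ : PL G U₁ v₁ a n₁)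
    (p₂ : PL G U₂ v₂ b n₂) : n₁ + n₂ + 2 ≤ (X' \ X).ncard ∧
      ∀ n, PL G X u₁ u₂ n → PL G X' a b (n + (n₁ + n₂ + 2)) := by
  have d₁ : Disjoint U₁ X := Set.disjoint_left.2 fun z hz => (s₁ hz).2
  have d₂ : Disjoint X U₂ := Set.disjoint_right.2 fun z hz => (s₂ hz).2
  refine ⟨?_, fun n h => ?_⟩
  · have h1 := Set.ncard_le_ncard (Set.union_subset s₁ s₂)
    rw [Set.ncard_union_eq hd] at h1
    have := p₁.lt_ncard
    have := p₂.lt_ncard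
    omega
  · have h1 := (p₁.symm.join e₁.symm h d₁).join e₂ p₂ (Set.disjoint_union_left.2 ⟨hd, d₂⟩)
    rw [show n + (n₁ + n₂ + 2) = n₁ + 1 + n + 1 + n₂ by omega]
    exact h1.mono (Set.union_subset (Set.union_subset (s₁.trans Set.diff_subset) hX)
      (s₂.trans Set.diff_subset))

end TPCx

theorem p_TPC :
    S_TPC := by
  intro V _ G x y u₁ v₁ u₂ v₂ u₁' v₁' u₂' v₂' X X' m c c' hX hD
  obtain ⟨U₁, U₂, n₁, n₂, s₁, s₂, hd, rfl, ⟨p₁, p₂⟩ | ⟨p₁, p₂⟩⟩ := hD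
  · obtain ⟨h1, h2⟩ := TPCx.core hX s₁ s₂ hd c.adj.2.1 c.adj.2.2 p₁ p₂
    exact ⟨h1.trans (Nat.le_add_right _ _), fun n h => ⟨_, _, _, _, c', h2 n (h.pl c)⟩⟩
  · obtain ⟨h1, h2⟩ := TPCx.core hX s₁ s₂ hd c.adj.2.1 c.adj.2.2 p₁ p₂
    exact ⟨h1.trans (Nat.le_add_right _ _), fun n h => ⟨_, _, _, _, c', (h2 n (h.pl c)).symm⟩⟩

end Pool.Agent.P.MP_bb4f54_co.T4

end sTPC

section sSQ4
/-! Step SQ4. -/

set_option autoImplicit false
set_option linter.unusedSectionVars false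

namespace Pool.Agent.P.MP_bb4f54_co.T4

open Pool.Agent.P.MP_bb4f54_co.T3

theorem SQ4x.sq {c n J T : ℕ} (h1 : c * (12 * c + 21) + 1 ≤ n) (h2 : n ≤ c * J) (h3 : T ≤ n)
    (h4 : T % 4 ≤ 1) : ∃ j k, j ≤ J ∧ 2 ≤ k ∧ T + 4 * j = k ^ 2 := by
  obtain ⟨r, r1, r2⟩ : ∃ r, r ^ 2 ≤ T ∧ T < (r + 1) ^ 2 := ⟨_, T.sqrt_le', T.lt_succ_sqrt'⟩
  have h5 : 6 * r + 9 ≤ 4 * J := by
    by_contra! h
    have := Nat.mul_le_mul_left c h.le
    rcases le_or_gt r (2 * c + 2) with k | k <;> nlinarith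
  obtain ⟨k, k1, k2, k3⟩ : ∃ k, r + 2 ≤ k ∧ k ≤ r + 3 ∧ k % 2 = T % 2 :=
    ⟨r + 2 + (r + T) % 2, by omega⟩
  have k4 : T ≤ k ^ 2 := r2.le.trans (Nat.pow_le_pow_left (by omega) 2)
  have k5 : k ^ 2 ≤ T + 6 * r + 9 := by nlinarith
  have k6 : k ^ 2 = 4 * (k / 2 * (k / 2) + k / 2 * (k % 2)) + k % 2 := by
    conv_lhs => rw [← Nat.div_add_mod k 2]
    rcases Nat.mod_two_eq_zero_or_one k with e | e <;> rw [e] <;> ring
  exact ⟨(k ^ 2 - T) / 4, k, by omega, by omega, by omega⟩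

theorem p_SQ4 :
    S_SQ4 := by
  refine fun c => ⟨c * (12 * c + 21) + 1, fun n J L n₁ n₁' n₂ n₂' h1 h2 h3 h4 h5 => ?_⟩
  obtain ⟨a, b, ha, hb, h⟩ : ∃ a b, (a = n₁ ∨ a = n₁') ∧ (b = n₂ ∨ b = n₂') ∧
      (a + L + b + 2) % 4 ≤ 1 := by
    by_contra! h
    have := h _ _ (.inl rfl) (.inl rfl)
    have := h _ _ (.inl rfl) (.inr rfl)
    have := h _ _ (.inr rfl) (.inl rfl)
    have := h _ _ (.inr rfl) (.inr rfl)
    omega
  obtain ⟨j, k, e1, e2, e3⟩ := SQ4x.sq h1 h2 (h5 a b ha hb) h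
  exact ⟨a, b, j, k, ha, hb, e1, e2, by omega⟩

end Pool.Agent.P.MP_bb4f54_co.T4

end sSQ4

section sMEM
/-! Step MEM. -/

set_option autoImplicit false
set_option linter.unusedSectionVars false

namespace Pool.Agent.P.MP_bb4f54_co.T4

open Pool.Agent.P.MP_bb4f54_co.T3

theorem p_MEM :
    S_MEM := by
  intro V G x y hc hn ha
  have main : ∀ (X : Set V) (e₁ e₂ : V × V), x ∈ X → y ∉ X → Out G X [(x, y), e₁, e₂] →
      C3e G x y X e₁.1 e₁.2 e₂.1 e₂.2 := by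
    intro X e₁ e₂ hx hy ho
    have key : ∀ e f g : V × V, (∀ d, d ∈ [(x, y), e₁, e₂] → d = e ∨ d = f ∨ d = g) →
        (e.1 ∈ X ∧ e.2 ∉ X ∧ G.Adj e.1 e.2) ∧ e ≠ f ∧ e ≠ g := by
      intro e f g h
      by_contra hk
      refine hn X ⟨x, hx⟩ ⟨y, hy⟩ f g fun a h1 b h2 h3 => ?_
      have := h _ (ho a h1 b h2 h3)
      simp only [List.mem_cons, List.not_mem_nil, or_false]
      grind
    have k1 := key e₁ (x, y) e₂ (by simp)
    have k2 := key e₂ (x, y) e₁ (by simp)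
    exact ⟨⟨hx, k1.1.1, k2.1.1⟩, ⟨hy, k1.1.2.1, k2.1.2.1⟩, ⟨ha, k1.1.2.2, k2.1.2.2⟩,
      ⟨k1.2.1.symm, k2.2.1.symm, k1.2.2⟩, ho⟩
  refine ⟨fun X e₁ e₂ hx hy ho => ⟨_, _, _, _, main X e₁ e₂ hx hy ho⟩, ?_⟩
  obtain ⟨a, b, c, -, -, -, h⟩ := hc x
  obtain ⟨v, w, hv⟩ : ∃ v w, ∀ z, G.Adj x z → z = y ∨ z = v ∨ z = w := by
    rcases (h y).1 ha with rfl | rfl | rfl
    · exact ⟨b, c, fun z hz => (h z).1 hz⟩
    · exact ⟨a, c, fun z hz => by have := (h z).1 hz; tauto⟩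
    · exact ⟨a, b, fun z hz => by have := (h z).1 hz; tauto⟩
  refine ⟨x, v, x, w, main {x} (x, v) (x, w) rfl ha.ne' fun a h1 b _ h3 => ?_, PL.single x⟩
  obtain rfl : a = x := h1
  simpa using hv b h3

end Pool.Agent.P.MP_bb4f54_co.T4

end sMEM

section sGRP
/-! Step GRP. -/

set_option autoImplicit false
set_option linter.unusedSectionVars false

namespace Pool.Agent.P.MP_bb4f54_co.T4

open Pool.Agent.P.MP_bb4f54_co.T3

theorem p_GRP (hDRP : S_DRP) (hLK4 : S_LK4) (hDEX : S_DEX) (hTPC : S_TPC) :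
    S_GRP := by
  intro V _ G x y X X' hc h2 ⟨u₁, v₁, u₂, v₂, c⟩ ⟨u₁', v₁', u₂', v₂', c'⟩ hX h3 h4
  have hs : X ⊂ X' := hX.ssubset_of_ne fun e => by
    rw [e, Set.sdiff_self, Set.ncard_empty] at h3
    omega
  obtain ⟨n, hn⟩ := hDEX G x y _ _ _ _ _ _ _ _ X X' hc h2 c c' hs
  refine ⟨⟨_, hTPC G x y _ _ _ _ _ _ _ _ X X' n c c' hX hn⟩, fun d hd => ?_⟩
  have := hDRP G (ZMod d) (X' \ X) hc (h2.no2 (z := x) fun h => h.2 c.m.1) h4 _ _ _ _ _ _ _ _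
    (hLK4 G x y _ _ _ _ _ _ _ _ X X' h2 c c' hs).1 ((Set.two_lt_ncard (Set.toFinite _)).1 h3)
    ⟨n, hn⟩ fun a b ha hb => (ZMod.natCast_eq_natCast_iff _ _ _).2 (Nat.ModEq.add_right_cancel' 2
      (hd _ (hTPC G x y _ _ _ _ _ _ _ _ X X' a c c' hX ha) _
        (hTPC G x y _ _ _ _ _ _ _ _ X X' b c c' hX hb)))
  exact (ZMod.natCast_eq_zero_iff 4 d).1 (by exact_mod_cast this)

end Pool.Agent.P.MP_bb4f54_co.T4

end sGRP

section sEND
/-! Step END. -/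

set_option autoImplicit false
set_option linter.unusedSectionVars false

namespace Pool.Agent.P.MP_bb4f54_co.T4

open Pool.Agent.P.MP_bb4f54_co.T3

theorem p_END (hA3P : S_A3P) :
    S_END := by
  intro V _ G x y X hc h2 ⟨u₁, v₁, u₂, v₂, c⟩ hX h4
  by_contra hn
  refine absurd (hA3P G (ZMod 4) X hc (h2.no2 c.n.1) h4 u₁ v₁ u₂ v₂ (x, y) c.m.2.1 c.m.2.2 c.n.2.1
    c.n.2.2 c.adj.2.1 c.adj.2.2 c.ne.2.2 (c.out.mono fun _ _ _ _ _ e => ?_) hX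
    fun n m a b => ?_) (by decide)
  · simp only [List.mem_cons, List.not_mem_nil, or_false] at e ⊢
    tauto
  · refine (ZMod.natCast_eq_natCast_iff' n m 4).2 ?_
    by_contra e
    exact hn ⟨n, m, ⟨_, _, _, _, c, a⟩, ⟨_, _, _, _, c, b⟩, e⟩

end Pool.Agent.P.MP_bb4f54_co.T4

end sEND

section sTPS
/-! Step TPS. -/

set_option autoImplicit false
set_option linter.unusedSectionVars false

namespace Pool.Agent.P.MP_bb4f54_co.T4

open Pool.Agent.P.MP_bb4f54_co.T3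

theorem p_TPS (hMEM : S_MEM) (hLK4 : S_LK4) :
    S_TPS := by
  intro V _ G x y X g hC hN ⟨u₁, v₁, u₂, v₂, c⟩ h
  by_cases hX : X.Nontrivial
  · obtain ⟨Z, ⟨a₁, b₁, a₂, b₂, d⟩, hZ, hg⟩ := h hX
    obtain ⟨h4, hc⟩ := hLK4 G x y a₁ b₁ a₂ b₂ u₁ v₁ u₂ v₂ Z X hN d c hZ
    have m1 : u₁ ∈ X \ Z := h4.m.2.2.1
    have m2 : u₂ ∈ X \ Z := h4.m.2.2.2
    obtain ⟨n, hn⟩ := hc u₁ m1 m2
    exact ⟨n, hn.lt_ncard.le.trans hg, u₁, v₁, u₂, v₂, c, hn.mono Set.sdiff_subset⟩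
  · have e : X = {x} := (Set.not_nontrivial_iff.1 hX).eq_singleton_of_mem c.m.1
    exact ⟨0, Nat.zero_le _, e ▸ (hMEM G x y hC hN c.adj.1).2⟩

end Pool.Agent.P.MP_bb4f54_co.T4

end sTPS
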