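import Pool.Agent.P.MP_bb4f54_co.T4.IfaceA

/-! Statements: the chain of cuts through an edge; the case of small links. -/

set_option autoImplicit false
set_option linter.unusedSectionVars false

namespace Pool.Agent.P.MP_bb4f54_co.T4

open Pool.Agent.P.MP_bb4f54_co.T3

section defs

variable {V : Type}

/-- At least three edges leave every nonempty proper set. -/
def N2 (G : SimpleGraph V) : Prop :=
  ∀ Y : Set V, Y.Nonempty → Yᶜ.Nonempty → ∀ e₁ e₂, ¬ Out G Y [e₁, e₂]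

/-- The edges leaving `X` are `x y`, `u₁ v₁`, `u₂ v₂`. -/
structure C3e (G : SimpleGraph V) (x y : V) (X : Set V) (u₁ v₁ u₂ v₂ : V) : Prop where
  m : x ∈ X ∧ u₁ ∈ X ∧ u₂ ∈ X
  n : y ∉ X ∧ v₁ ∉ X ∧ v₂ ∉ X
  adj : G.Adj x y ∧ G.Adj u₁ v₁ ∧ G.Adj u₂ v₂
  ne : (x, y) ≠ (u₁, v₁) ∧ (x, y) ≠ (u₂, v₂) ∧ (u₁, v₁) ≠ (u₂, v₂)
  out : Out G X [(x, y), (u₁, v₁), (u₂, v₂)]

/-- `X` is a side of a cut with three edges through `x y`. -/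
def Mem (G : SimpleGraph V) (x y : V) (X : Set V) : Prop :=
  ∃ u₁ v₁ u₂ v₂, C3e G x y X u₁ v₁ u₂ v₂

/-- A path of length `n` in `X` between the ends of the two other edges of the cut. -/
def TP (G : SimpleGraph V) (x y : V) (X : Set V) (n : ℕ) : Prop :=
  ∃ u₁ v₁ u₂ v₂, C3e G x y X u₁ v₁ u₂ v₂ ∧ PL G X u₁ u₂ n

/-- Lengths that can be added between two cuts. -/
def Lam (G : SimpleGraph V) (x y : V) (X X' : Set V) : Set ℕ :=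
  {m | m ≤ (X' \ X).ncard + 2 ∧ ∀ n, TP G x y X n → TP G x y X' (n + m)}

/-- A cycle of square length. -/
def Pw (G : SimpleGraph V) : Prop := ∃ a, 2 ≤ a ∧ HasC G (a ^ 2)

variable {G : SimpleGraph V} {x y u₁ v₁ u₂ v₂ : V} {X : Set V}

lemma N2.no2 (h : N2 G) {W : Set V} {z : V} (hz : z ∉ W) : No2 G W :=
  fun Y hY hn => h Y hn ⟨z, fun e => hz (hY e)⟩

lemma C3e.swap (h : C3e G x y X u₁ v₁ u₂ v₂) : C3e G x y X u₂ v₂ u₁ v₁ :=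
  ⟨⟨h.m.1, h.m.2.2, h.m.2.1⟩, ⟨h.n.1, h.n.2.2, h.n.2.1⟩, ⟨h.adj.1, h.adj.2.2, h.adj.2.1⟩,
    ⟨h.ne.2.1, h.ne.1, h.ne.2.2.symm⟩, h.out.mono fun _ _ _ _ _ e => by
      simp only [List.mem_cons, List.not_mem_nil, or_false] at e ⊢; tauto⟩

lemma C3e.compl (h : C3e G x y X u₁ v₁ u₂ v₂) : C3e G y x Xᶜ v₁ u₁ v₂ u₂ := by
  obtain ⟨m, n, adj, ne, out⟩ := h
  refine ⟨n, by simpa using m, ⟨adj.1.symm, adj.2.1.symm, adj.2.2.symm⟩, by grind,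
    fun a ha b hb e => ?_⟩
  have := out b (not_not.1 hb) a ha e.symm
  simp only [List.mem_cons, List.not_mem_nil, or_false, Prod.mk.injEq] at this ⊢
  tauto

lemma Mem.compl (h : Mem G x y X) : Mem G y x Xᶜ :=
  let ⟨_, _, _, _, h⟩ := h; ⟨_, _, _, _, h.compl⟩

/-- The path does not depend on the names of the edges. -/
lemma TP.pl {n : ℕ} (h : TP G x y X n) (c : C3e G x y X u₁ v₁ u₂ v₂) : PL G X u₁ u₂ n := by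
  obtain ⟨a, b, a', b', d, e⟩ := h
  have h1 := d.out _ c.m.2.1 _ c.n.2.1 c.adj.2.1
  have h2 := d.out _ c.m.2.2 _ c.n.2.2 c.adj.2.2
  have h3 := c.ne
  simp only [List.mem_cons, List.not_mem_nil, or_false] at h1 h2
  have : (u₁ = a ∧ u₂ = a') ∨ (u₁ = a' ∧ u₂ = a) := by grind
  rcases this with ⟨rfl, rfl⟩ | ⟨rfl, rfl⟩
  · exact e
  · exact e.symm

end defs

-- deps:
/-- Cycles as closed walks. -/
def S_CYC : Prop := ∀ {V : Type} [Fintype V] (G : SimpleGraph V) (U : Set V) (t : ℕ),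
  CyIn G U t → HasC G t ∧ t ≤ Fintype.card V

-- deps:
/-- Three listed edges; the trivial cuts. -/
def S_MEM : Prop := ∀ {V : Type} (G : SimpleGraph V) (x y : V), Cb G → N2 G → G.Adj x y →
  (∀ (X : Set V) (e₁ e₂ : V × V), x ∈ X → y ∉ X → Out G X [(x, y), e₁, e₂] → Mem G x y X) ∧
    TP G x y {x} 0

-- deps:
/-- The cuts form a chain. -/
def S_CHN : Prop := ∀ {V : Type} (G : SimpleGraph V) (x y : V) (X Y : Set V), N2 G →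
  Mem G x y X → Mem G x y Y → X ⊆ Y ∨ Y ⊆ X

-- deps:
/-- The set between two cuts. -/
def S_LK4 : Prop := ∀ {V : Type} (G : SimpleGraph V) (x y u₁ v₁ u₂ v₂ u₁' v₁' u₂' v₂' : V)
  (X X' : Set V), N2 G → C3e G x y X u₁ v₁ u₂ v₂ → C3e G x y X' u₁' v₁' u₂' v₂' → X ⊂ X' →
    P4 G (X' \ X) v₁ u₁ v₂ u₂ u₁' v₁' u₂' v₂' ∧ ∀ a ∈ X' \ X, X' \ X ⊆ RS G (X' \ X) a

-- deps: TW2 LK4
/-- A double route between two cuts. -/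
def S_DEX : Prop := ∀ {V : Type} [Fintype V] (G : SimpleGraph V)
  (x y u₁ v₁ u₂ v₂ u₁' v₁' u₂' v₂' : V) (X X' : Set V), Cb G → N2 G → C3e G x y X u₁ v₁ u₂ v₂ →
    C3e G x y X' u₁' v₁' u₂' v₂' → X ⊂ X' → ∃ n, DRt G (X' \ X) v₁ v₂ u₁' u₂' n

-- deps:
/-- A double route extends the turning paths. -/
def S_TPC : Prop := ∀ {V : Type} [Fintype V] (G : SimpleGraph V)
  (x y u₁ v₁ u₂ v₂ u₁' v₁' u₂' v₂' : V) (X X' : Set V) (m : ℕ), C3e G x y X u₁ v₁ u₂ v₂ →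
    C3e G x y X' u₁' v₁' u₂' v₂' → X ⊆ X' → DRt G (X' \ X) v₁ v₂ u₁' u₂' m →
      m + 2 ∈ Lam G x y X X'

-- deps: CYC
/-- Cycles that avoid the edge. -/
def S_TPZ : Prop := ∀ {V : Type} [Fintype V] (G : SimpleGraph V) (x y : V),
  (∀ (U : Set V) (t : ℕ), x ∉ U ∨ y ∉ U → CyIn G U t → HasC (G.deleteEdges {s(x, y)}) t) ∧
    ∀ (X : Set V) (n n' : ℕ), TP G x y X n → TP G y x Xᶜ n' →
      HasC (G.deleteEdges {s(x, y)}) (n + n' + 2) ∧ n + n' + 2 ≤ Fintype.card V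

-- deps: DRP LK4 DEX TPC
/-- The lengths of one window. -/
def S_GRP : Prop := ∀ {V : Type} [Fintype V] (G : SimpleGraph V) (x y : V) (X X' : Set V),
  Cb G → N2 G → Mem G x y X → Mem G x y X' → X ⊆ X' → 3 ≤ (X' \ X).ncard →
    ¬ CyIn G (X' \ X) 4 → (Lam G x y X X').Nonempty ∧
      ∀ d : ℕ, (∀ m ∈ Lam G x y X X', ∀ m' ∈ Lam G x y X X', m ≡ m' [MOD d]) → d ∣ 4

-- deps: A3P
/-- Turning paths of two residues. -/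
def S_END : Prop := ∀ {V : Type} [Fintype V] (G : SimpleGraph V) (x y : V) (X : Set V),
  Cb G → N2 G → Mem G x y X → X.Nontrivial → ¬ CyIn G X 4 →
    ∃ n n', TP G x y X n ∧ TP G x y X n' ∧ n % 4 ≠ n' % 4

-- deps:
/-- Two sums that differ by four, for one set. -/
def S_BEZ : Prop := ∀ A : Set ℕ, A.Nonempty →
  (∀ d : ℕ, (∀ m ∈ A, ∀ m' ∈ A, m ≡ m' [MOD d]) → d ∣ 4) →
    ∃ u₀, ∀ u, u₀ ≤ u → ∃ f g : ℕ → ℕ, (∀ i, f i ∈ A ∧ g i ∈ A) ∧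
      ∑ i ∈ Finset.range u, g i = ∑ i ∈ Finset.range u, f i + 4

-- deps: BEZ
/-- Two sums that differ by four, for a block of sets. -/
def S_BLK : Prop := ∀ s : ℕ, ∃ c, 0 < c ∧ ∀ (A : ℕ → Set ℕ) (I : Finset ℕ), c ≤ I.card →
  (∀ i ∈ I, (A i).Nonempty ∧ (∀ m ∈ A i, m ≤ s) ∧
    ∀ d : ℕ, (∀ m ∈ A i, ∀ m' ∈ A i, m ≡ m' [MOD d]) → d ∣ 4) →
    ∃ f g : ℕ → ℕ, (∀ i ∈ I, f i ∈ A i ∧ g i ∈ A i) ∧ ∑ i ∈ I, g i = ∑ i ∈ I, f i + 4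

-- deps: BLK
/-- A progression of sums. -/
def S_AR4 : Prop := ∀ s : ℕ, ∃ c, 0 < c ∧ ∀ (A : ℕ → Set ℕ) (J : ℕ),
  (∀ i, i < c * J → (A i).Nonempty ∧ (∀ m ∈ A i, m ≤ s) ∧
    ∀ d : ℕ, (∀ m ∈ A i, ∀ m' ∈ A i, m ≡ m' [MOD d]) → d ∣ 4) →
    ∃ L, ∀ j, j ≤ J → ∃ f : ℕ → ℕ, (∀ i, i < c * J → f i ∈ A i) ∧
      ∑ i ∈ Finset.range (c * J), f i = L + 4 * j

-- deps:
/-- A square in a long progression of step four. -/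
def S_SQ4 : Prop := ∀ c : ℕ, ∃ N : ℕ, ∀ n J L n₁ n₁' n₂ n₂' : ℕ, N ≤ n → n ≤ c * J →
  n₁ % 4 ≠ n₁' % 4 → n₂ % 4 ≠ n₂' % 4 →
  (∀ a b, (a = n₁ ∨ a = n₁') → (b = n₂ ∨ b = n₂') → a + L + b + 2 ≤ n) →
    ∃ a b j k, (a = n₁ ∨ a = n₁') ∧ (b = n₂ ∨ b = n₂') ∧ j ≤ J ∧ 2 ≤ k ∧
      a + (L + 4 * j) + b + 2 = k ^ 2

-- deps: MEM
/-- A sequence of cuts. -/
def S_SEQ : Prop := ∀ {V : Type} [Fintype V] (G : SimpleGraph V) (x y : V) (M t : ℕ),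
  Cb G → N2 G → G.Adj x y →
  (∀ X, Mem G x y X → Xᶜ.Nontrivial → ∃ X', Mem G x y X' ∧ X ⊂ X' ∧ (X' \ X).ncard ≤ M) →
  M + 3 * M * t + 3 ≤ Fintype.card V → ∃ f : ℕ → Set V, (f 0).Nontrivial ∧ (f t)ᶜ.Nontrivial ∧
    (∀ i, i ≤ t → Mem G x y (f i)) ∧
    ∀ i, i < t → f i ⊆ f (i + 1) ∧ 3 ≤ (f (i + 1) \ f i).ncard ∧ (f (i + 1) \ f i).ncard ≤ 3 * M

-- deps: TPZ GRP END AR4 SQ4 SEQ
/-- Small links. -/
def S_SMA : Prop := ∀ M : ℕ, ∃ N : ℕ, ∀ {V : Type} [Fintype V] (G : SimpleGraph V) (x y : V),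
  Cb G → N2 G → G.Adj x y → N ≤ Fintype.card V →
  (∀ X, Mem G x y X → Xᶜ.Nontrivial → ∃ X', Mem G x y X' ∧ X ⊂ X' ∧ (X' \ X).ncard ≤ M) →
    Pw (G.deleteEdges {s(x, y)})

-- deps: MEM LK4
/-- A short turning path beyond a cut. -/
def S_TPS : Prop := ∀ {V : Type} [Fintype V] (G : SimpleGraph V) (x y : V) (X : Set V) (g : ℕ),
  Cb G → N2 G → Mem G x y X →
  (X.Nontrivial → ∃ Z, Mem G x y Z ∧ Z ⊂ X ∧ (X \ Z).ncard ≤ g) → ∃ n, n ≤ g ∧ TP G x y X n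

-- deps: MEM CHN TPS
/-- The largest link. -/
def S_GAP : Prop := ∀ {V : Type} [Fintype V] (G : SimpleGraph V) (x y : V) (M : ℕ),
  Cb G → N2 G → G.Adj x y →
  (∀ X, Mem G x y X → Xᶜ.Nontrivial → ∃ X', Mem G x y X' ∧ X ⊂ X' ∧ (X' \ X).ncard ≤ M) ∨
    ∃ X X' n₁ n₂, Mem G x y X ∧ Mem G x y X' ∧ X ⊂ X' ∧ M < (X' \ X).ncard ∧
      (∀ Z, Mem G x y Z → X ⊆ Z → Z ⊆ X' → Z = X ∨ Z = X') ∧ TP G x y X n₁ ∧
      TP G y x X'ᶜ n₂ ∧ n₁ ≤ (X' \ X).ncard ∧ n₂ ≤ (X' \ X).ncard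

end Pool.Agent.P.MP_bb4f54_co.T4
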