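import Pool.Agent.P.MP_bb4f54_co.T4.IfaceC
import Pool.Agent.P.MP_bb4f54_co.T4.IfaceB

section sRD2
/-! Step RD2. -/

set_option autoImplicit false
set_option linter.unusedSectionVars false

namespace Pool.Agent.P.MP_bb4f54_co.T4

open Finset
open Pool.Agent.P.MP_bb4f54_co.T3

namespace RD2x

variable {V : Type}

lemma hadj (G : SimpleGraph V) (X : Set V) (x y : X) (hxy : x ≠ y) (u v : X) :
    (G.induce X ⊔ SimpleGraph.edge x y).Adj u v ↔
      G.Adj u v ∨ (u = x ∧ v = y) ∨ (u = y ∧ v = x) := by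
  rw [SimpleGraph.sup_adj, SimpleGraph.edge_adj, SimpleGraph.comap_adj]
  constructor
  · rintro (h | ⟨h, _⟩)
    · exact Or.inl h
    · exact Or.inr h
  · rintro (h | h)
    · exact Or.inl h
    · refine Or.inr ⟨h, ?_⟩
      rcases h with ⟨rfl, rfl⟩ | ⟨rfl, rfl⟩
      · exact hxy
      · exact hxy.symm

/-- A vertex all of whose neighbours lie in `X`. -/
lemma lift (G : SimpleGraph V) (X : Set V) (H : SimpleGraph X) (hc : Cb G) (v : X)
    (hin : ∀ w, G.Adj v w → w ∈ X) (hH : ∀ w : X, H.Adj v w ↔ G.Adj v w) :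
    ∃ a b c : X, a ≠ b ∧ a ≠ c ∧ b ≠ c ∧ ∀ w, H.Adj v w ↔ w = a ∨ w = b ∨ w = c := by
  obtain ⟨a, b, c, hab, hac, hbc, h⟩ := hc v
  have ha := hin a ((h a).2 (Or.inl rfl))
  have hb := hin b ((h b).2 (Or.inr (Or.inl rfl)))
  have hc' := hin c ((h c).2 (Or.inr (Or.inr rfl)))
  refine ⟨⟨a, ha⟩, ⟨b, hb⟩, ⟨c, hc'⟩, fun e => hab (congrArg Subtype.val e),
    fun e => hac (congrArg Subtype.val e), fun e => hbc (congrArg Subtype.val e), fun w => ?_⟩
  rw [hH, h]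
  simp only [Subtype.ext_iff]

/-- A vertex with exactly one neighbour outside `X`, replaced by `y`. -/
lemma swp (G : SimpleGraph V) (X : Set V) (H : SimpleGraph X) (hc : Cb G) (x y : X) (x' : V)
    (hx' : x' ∉ X) (hax : G.Adj x x') (hna : ¬ G.Adj x y)
    (hin : ∀ w, G.Adj x w → w ∉ X → w = x')
    (hH : ∀ w : X, H.Adj x w ↔ G.Adj x w ∨ w = y) :
    ∃ a b c : X, a ≠ b ∧ a ≠ c ∧ b ≠ c ∧ ∀ w, H.Adj x w ↔ w = a ∨ w = b ∨ w = c := by
  have key : ∃ b c : V, x' ≠ b ∧ x' ≠ c ∧ b ≠ c ∧ ∀ w, G.Adj x w ↔ w = x' ∨ w = b ∨ w = c := by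
    obtain ⟨a, b, c, hab, hac, hbc, h⟩ := hc x
    rcases (h x').1 hax with rfl | rfl | rfl
    · exact ⟨b, c, hab, hac, hbc, h⟩
    · exact ⟨a, c, hab.symm, hbc, hac, fun w => (h w).trans (by tauto)⟩
    · exact ⟨a, b, hac.symm, hbc.symm, hab, fun w => (h w).trans (by tauto)⟩
  obtain ⟨b, c, hb, hc', hbc, h⟩ := key
  have hab : G.Adj x b := (h b).2 (Or.inr (Or.inl rfl))
  have hac : G.Adj x c := (h c).2 (Or.inr (Or.inr rfl))
  have hbX : b ∈ X := by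
    by_contra hn
    exact hb (hin b hab hn).symm
  have hcX : c ∈ X := by
    by_contra hn
    exact hc' (hin c hac hn).symm
  refine ⟨y, ⟨b, hbX⟩, ⟨c, hcX⟩, ?_, ?_, fun e => hbc (congrArg Subtype.val e), fun w => ?_⟩
  · intro e
    apply hna
    rw [e]
    exact hab
  · intro e
    apply hna
    rw [e]
    exact hac
  · rw [hH, h]
    constructor
    · rintro ((e | e | e) | e)
      · exact absurd (e ▸ w.2) hx'
      · exact Or.inr (Or.inl (Subtype.ext e))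
      · exact Or.inr (Or.inr (Subtype.ext e))
      · exact Or.inl e
    · rintro (e | e | e)
      · exact Or.inr e
      · exact Or.inl (Or.inr (Or.inl (congrArg Subtype.val e)))
      · exact Or.inl (Or.inr (Or.inr (congrArg Subtype.val e)))

lemma out_compl {W : Type} (H : SimpleGraph W) (Y : Set W) (e₁ e₂ : W × W)
    (h : Out H Y [e₁, e₂]) : Out H Yᶜ [e₁.swap, e₂.swap] := by
  intro u hu v hv ha
  have hv' : v ∈ Y := by
    by_contra hn
    exact hv hn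
  have := h v hv' u hu ha.symm
  simp only [List.mem_cons, List.not_mem_nil, or_false] at this ⊢
  rcases this with e | e
  · left
    rw [← e]
    rfl
  · right
    rw [← e]
    rfl

lemma img_ss (X : Set V) (Y : Set X) (hY : Yᶜ.Nonempty) : Subtype.val '' Y ⊂ X := by
  refine ⟨?_, fun hs => ?_⟩
  · rintro _ ⟨u, _, rfl⟩
    exact u.2
  · obtain ⟨u, hu⟩ := hY
    obtain ⟨w, hw, e⟩ := hs u.2
    exact hu (Subtype.ext e ▸ hw)

/-- The core: a set missing `y`. -/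
lemma core (G : SimpleGraph V) (X : Set V) (H : SimpleGraph X) (x y : X)
    (hmin : ∀ Y ⊂ X, Y.Nonempty → ∀ f₁ f₂, ¬ Out G Y [f₁, f₂])
    (hsub : ∀ u v : X, G.Adj u v → H.Adj u v) (hxy : H.Adj x y) (x' : V)
    (hna : (∀ u ∈ X, ∀ w, w ∉ X → ¬ G.Adj u w) ∨ ¬ G.Adj x y)
    (hout : ∀ u : X, u ≠ y → ∀ w, w ∉ X → G.Adj u w → u = x ∧ w = x')
    (Y : Set X) (hY : Y.Nonempty) (hy : y ∉ Y) (e₁ e₂ : X × X) : ¬ Out H Y [e₁, e₂] := by
  intro h
  classical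
  have hss := img_ss X Y ⟨y, hy⟩
  have hne : (Subtype.val '' Y).Nonempty := hY.image _
  have hin : ∀ u : X, u ∈ Y → ∀ w : X, (w : V) ∉ Subtype.val '' Y → G.Adj u w →
      (u, w) = e₁ ∨ (u, w) = e₂ := by
    intro u hu w hw ha
    have := h u hu w (fun hw' => hw ⟨w, hw', rfl⟩) (hsub u w ha)
    simpa using this
  rcases hna with hna | hna
  · apply hmin _ hss hne (↑e₁.1, ↑e₁.2) (↑e₂.1, ↑e₂.2)
    rintro _ ⟨u, hu, rfl⟩ w hw ha
    have hwX : w ∈ X := by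
      by_contra hn
      exact hna u u.2 w hn ha
    rcases hin u hu ⟨w, hwX⟩ hw ha with e | e
    · rw [← e]; simp
    · rw [← e]; simp
  · let f : X × X → V × V := fun e => if e = (x, y) then ((x : V), x') else (↑e.1, ↑e.2)
    apply hmin _ hss hne (f e₁) (f e₂)
    rintro _ ⟨u, hu, rfl⟩ w hw ha
    by_cases hwX : w ∈ X
    · have hne' : (u, (⟨w, hwX⟩ : X)) ≠ (x, y) := by
        intro e
        have e1 : u = x := congrArg Prod.fst e
        have e2 : (⟨w, hwX⟩ : X) = y := congrArg Prod.snd e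
        apply hna
        rw [← e1, ← e2]
        exact ha
      have hf : f (u, ⟨w, hwX⟩) = (↑u, w) := if_neg hne'
      rcases hin u hu ⟨w, hwX⟩ hw ha with e | e
      · rw [← e, hf]; simp
      · rw [← e, hf]; simp
    · obtain ⟨rfl, rfl⟩ := hout u (fun e => hy (e ▸ hu)) w hwX ha
      have hf : f (u, y) = (↑u, w) := if_pos rfl
      have := h u hu y hy hxy
      simp only [List.mem_cons, List.not_mem_nil, or_false] at this
      rcases this with e | e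
      · rw [← e, hf]; simp
      · rw [← e, hf]; simp

lemma n2 (G : SimpleGraph V) (X : Set V) (H : SimpleGraph X) (x y : X)
    (hmin : ∀ Y ⊂ X, Y.Nonempty → ∀ f₁ f₂, ¬ Out G Y [f₁, f₂])
    (hsub : ∀ u v : X, G.Adj u v → H.Adj u v) (hxy : H.Adj x y) (x' : V)
    (hna : (∀ u ∈ X, ∀ w, w ∉ X → ¬ G.Adj u w) ∨ ¬ G.Adj x y)
    (hout : ∀ u : X, u ≠ y → ∀ w, w ∉ X → G.Adj u w → u = x ∧ w = x') : N2 H := by
  intro Y hY hYc e₁ e₂ h
  by_cases hy : y ∈ Y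
  · exact core G X H x y hmin hsub hxy x' hna hout Yᶜ hYc (fun hn => hn hy) _ _
      (out_compl H Y e₁ e₂ h)
  · exact core G X H x y hmin hsub hxy x' hna hout Y hY hy e₁ e₂ h

end RD2x

open RD2x in
theorem p_RD2 :
    S_RD2 := by
  intro V G X x y hc hxy hmin hcase
  have hA := hadj G X x y hxy
  have hsub : ∀ u v : X, G.Adj u v → (G.induce X ⊔ SimpleGraph.edge x y).Adj u v :=
    fun u v h => (hA u v).2 (Or.inl h)
  have hHxy : (G.induce X ⊔ SimpleGraph.edge x y).Adj x y := (hA x y).2 (Or.inr (Or.inl ⟨rfl, rfl⟩))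
  rcases hcase with ⟨ha, ho⟩ | ⟨hna, x', y', hx', hy', hax, hay, ho⟩
  · have hno : ∀ u ∈ X, ∀ w, w ∉ X → ¬ G.Adj u w := fun u hu w hw h => by
      simpa using ho u hu w hw h
    refine ⟨fun v => lift G X _ hc v (fun w h => ?_) (fun w => ?_), ?_⟩
    · by_contra hn
      exact hno v v.2 w hn h
    · rw [hA]
      constructor
      · rintro (h | ⟨rfl, rfl⟩ | ⟨rfl, rfl⟩)
        · exact h
        · exact ha
        · exact ha.symm
      · exact Or.inl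
    · exact n2 G X _ x y hmin hsub hHxy (x : V) (Or.inl hno)
        (fun u _ w hw h => absurd h (hno u u.2 w hw))
  · have ho' : ∀ u : X, ∀ w, w ∉ X → G.Adj u w → (u = x ∧ w = x') ∨ (u = y ∧ w = y') := by
      intro u w hw h
      have := ho u u.2 w hw h
      simp only [List.mem_cons, List.not_mem_nil, or_false, Prod.mk.injEq] at this
      rcases this with ⟨e1, e2⟩ | ⟨e1, e2⟩
      · exact Or.inl ⟨Subtype.ext e1, e2⟩
      · exact Or.inr ⟨Subtype.ext e1, e2⟩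
    refine ⟨fun v => ?_, ?_⟩
    · by_cases hvx : v = x
      · subst hvx
        refine swp G X _ hc v y x' hx' hax hna (fun w h hw => ?_) (fun w => ?_)
        · rcases ho' v w hw h with ⟨_, e⟩ | ⟨e, _⟩
          · exact e
          · exact absurd e hxy
        · rw [hA]
          constructor
          · rintro (h | ⟨_, h⟩ | ⟨h, _⟩)
            · exact Or.inl h
            · exact Or.inr h
            · exact absurd h hxy
          · rintro (h | h)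
            · exact Or.inl h
            · exact Or.inr (Or.inl ⟨rfl, h⟩)
      · by_cases hvy : v = y
        · subst hvy
          refine swp G X _ hc v x y' hy' hay (fun h => hna h.symm) (fun w h hw => ?_) (fun w => ?_)
          · rcases ho' v w hw h with ⟨e, _⟩ | ⟨_, e⟩
            · exact absurd e hvx
            · exact e
          · rw [hA]
            constructor
            · rintro (h | ⟨h, _⟩ | ⟨_, h⟩)
              · exact Or.inl h
              · exact absurd h hvx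
              · exact Or.inr h
            · rintro (h | h)
              · exact Or.inl h
              · exact Or.inr (Or.inr ⟨rfl, h⟩)
        · refine lift G X _ hc v (fun w h => ?_) (fun w => ?_)
          · by_contra hn
            rcases ho' v w hn h with ⟨e, _⟩ | ⟨e, _⟩
            · exact hvx e
            · exact hvy e
          · rw [hA]
            constructor
            · rintro (h | ⟨h, _⟩ | ⟨h, _⟩)
              · exact h
              · exact absurd h hvx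
              · exact absurd h hvy
            · exact Or.inl
    · refine n2 G X _ x y hmin hsub hHxy x' (Or.inr hna) (fun u hu w hw h => ?_)
      rcases ho' u w hw h with e | ⟨e, _⟩
      · exact e
      · exact absurd e hu

end Pool.Agent.P.MP_bb4f54_co.T4

end sRD2

section sTC3
/-! Step TC3. -/

set_option autoImplicit false
set_option linter.unusedSectionVars false

namespace Pool.Agent.P.MP_bb4f54_co.T4

open Finset
open Pool.Agent.P.MP_bb4f54_co.T3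

namespace TC3x

variable {V : Type} [Fintype V] [DecidableEq V]

lemma one (F : Finset (Sym2 V)) (hF : F.card ≤ 1) (Y : Set V) (x : V) :
    ∃ e : V × V, ∀ a ∈ Y, ∀ b, b ∉ Y → s(a, b) ∈ F → (a, b) = e := by
  by_cases h : ∃ a ∈ Y, ∃ b, b ∉ Y ∧ s(a, b) ∈ F
  · obtain ⟨a, ha, b, hb, hab⟩ := h
    refine ⟨(a, b), fun a' ha' b' _ h' => ?_⟩
    rcases Sym2.eq_iff.1 (card_le_one.1 hF _ h' _ hab) with ⟨rfl, rfl⟩ | ⟨rfl, rfl⟩
    · rfl
    · exact absurd ha' hb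
  · exact ⟨(x, x), fun a ha b hb hab => absurd ⟨a, ha, b, hb, hab⟩ h⟩

lemma two (F : Finset (Sym2 V)) (hF : F.card ≤ 2) (Y : Set V) (x : V) :
    ∃ e₁ e₂ : V × V, ∀ a ∈ Y, ∀ b, b ∉ Y → s(a, b) ∈ F → (a, b) = e₁ ∨ (a, b) = e₂ := by
  by_cases h : ∃ a ∈ Y, ∃ b, b ∉ Y ∧ s(a, b) ∈ F
  · obtain ⟨a, ha, b, hb, hab⟩ := h
    obtain ⟨e, he⟩ := one (F.erase s(a, b)) (by rw [card_erase_of_mem hab]; omega) Y x
    refine ⟨(a, b), e, fun a' ha' b' hb' h' => ?_⟩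
    by_cases hq : s(a', b') = s(a, b)
    · rcases Sym2.eq_iff.1 hq with ⟨rfl, rfl⟩ | ⟨rfl, rfl⟩
      · exact Or.inl rfl
      · exact absurd ha' hb
    · exact Or.inr (he a' ha' b' hb' (mem_erase.2 ⟨hq, h'⟩))
  · exact ⟨(x, x), (x, x), fun a ha b hb hab => absurd ⟨a, ha, b, hb, hab⟩ h⟩

variable {G : SimpleGraph V} {A : Set V} {p q : ℕ → V} {n m : ℕ} {v₁ v₂ w₁ w₂ : V}

lemma memA {a b : V} (ha : a ∈ A) (h : G.Adj a b) : s(a, b) ∈ Om G A p q n m :=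
  mem_union_left _ (mem_union_left _ (mem_tch.2 ⟨mk_mem_EG.2 h, a, Sym2.mem_mk_left a b, ha⟩))

lemma esg {i : ℕ} {u : V} (hi : i < n) (hu : u ∈ s(p i, p (i + 1))) : u ∈ sg p 0 n := by
  rcases Sym2.mem_iff.1 hu with rfl | rfl
  · exact mem_sg (by omega) (by omega)
  · exact mem_sg (by omega) (by omega)

lemma npq (h : OC G A p q n m v₁ v₂ w₁ w₂) {e : Sym2 V} (he : e ∈ Om G A p q n m) {u u' : V}
    (hu : u ∈ e) (hp : u ∈ sg p 0 n) (hu' : u' ∈ e) (hq : u' ∈ sg q 0 m) : False := by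
  rcases mem_union.1 he with he | he
  · rcases mem_union.1 he with he | he
    · obtain ⟨-, v, hv, hA⟩ := mem_tch.1 he
      have h1 : u ≠ u' := fun k => Set.disjoint_left.1 h.pq hp (k ▸ hq)
      have h2 : u ≠ v := fun k => Set.disjoint_left.1 h.pA hp (k ▸ hA)
      have h3 : u' ≠ v := fun k => Set.disjoint_left.1 h.qA hq (k ▸ hA)
      have h4 : e = s(u, u') := (Sym2.mem_and_mem_iff h1).1 ⟨hu, hu'⟩
      subst h4
      rcases Sym2.mem_iff.1 hv with k | k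
      · exact h2 k.symm
      · exact h3 k.symm
    · obtain ⟨i, -, hi, rfl⟩ := mem_ES.1 he
      exact Set.disjoint_left.1 h.pq (esg hi hu') hq
  · obtain ⟨i, -, hi, rfl⟩ := mem_ES.1 he
    exact Set.disjoint_left.1 h.pq hp (esg hi hu)

lemma sep (hTCP : S_TCP) {Γ : Finset (Sym2 V)} {Y : Set V} (h₁ : s(v₁, p 0) ∈ Γ)
    (h₂ : s(v₂, p n) ∈ Γ) (hE : ES p 0 n ⊆ Γ) (hv : ¬ (v₁ ∈ Y ∧ v₂ ∈ Y)) :
    (v₁ ∉ Y ∧ v₂ ∉ Y) ∨ ∃ f : V × V, (v₁ ∈ Y → (v₁, p 0) = f) ∧ (v₂ ∈ Y → (v₂, p n) = f) ∧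
      ∃ e ∈ cut id Γ Y, ∃ u ∈ e, u ∈ sg p 0 n := by
  have H := (hTCP Γ p n v₁ Y h₁ hE).2 v₂ h₂
  by_cases a : v₁ ∈ Y
  · have b : v₂ ∉ Y := fun b => hv ⟨a, b⟩
    exact Or.inr ⟨_, fun _ => rfl, fun k => absurd k b, H ⟨fun _ => b, fun _ => a⟩⟩
  · by_cases b : v₂ ∈ Y
    · exact Or.inr ⟨_, fun k => absurd k a, fun _ => rfl,
        H ⟨fun k => absurd k a, fun k => absurd b k⟩⟩
    · exact Or.inl ⟨a, b⟩

lemma core (hTCP : S_TCP) (h : OC G A p q n m v₁ v₂ w₁ w₂) (Y : Set V) (hY : ∃ v ∈ A, v ∈ Y)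
    (hc : (cut id (Om G A p q n m) Y).card ≤ 2) (hw : ¬ (w₁ ∈ Y ∧ w₂ ∈ Y))
    (hv : v₁ ∈ Y → v₂ ∈ Y → w₁ ∉ Y ∧ w₂ ∉ Y) : False := by
  obtain ⟨m1, m2, m3, m4⟩ := h.p4.m
  obtain ⟨a1, a2, a3, a4⟩ := h.p4.adj
  have inn : ∀ a ∈ Y, a ∈ A → ∀ b, b ∉ Y → G.Adj a b → s(a, b) ∈ cut id (Om G A p q n m) Y :=
    fun a ha hA b hb hab => (mem_cut_mk (en := id) rfl).2 ⟨memA hA hab, Or.inl ⟨ha, hb⟩⟩
  by_cases hvv : v₁ ∈ Y ∧ v₂ ∈ Y
  · obtain ⟨e₁, e₂, he⟩ := two _ hc Y v₁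
    obtain ⟨k1, k2⟩ := hv hvv.1 hvv.2
    exact h.pr (Y ∩ A) Set.inter_subset_right ⟨hvv.1, m1⟩ ⟨hvv.2, m2⟩ (fun k => k1 k.1)
      (fun k => k2 k.1) e₁ e₂ fun a ha b hb hb' hab =>
        he a ha.1 b (fun k => hb' ⟨k, hb⟩) (inn a ha.1 ha.2 b (fun k => hb' ⟨k, hb⟩) hab)
  have hne : (Y ∩ A).Nonempty := let ⟨v, a, b⟩ := hY; ⟨v, b, a⟩
  have fin : ∀ e₁ e₂ : V × V,
      (∀ a ∈ Y, a ∈ A → ∀ b ∈ A, b ∉ Y → G.Adj a b → (a, b) = e₁ ∨ (a, b) = e₂) →
      (v₁ ∈ Y → (v₁, p 0) = e₁) → (v₂ ∈ Y → (v₂, p n) = e₁) →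
      (w₁ ∈ Y → (w₁, q 0) = e₂) → (w₂ ∈ Y → (w₂, q m) = e₂) → False := by
    intro e₁ e₂ hi c1 c2 c3 c4
    refine h.no2 (Y ∩ A) Set.inter_subset_right hne e₁ e₂ fun a ha b hb hab => ?_
    simp only [List.mem_cons, List.not_mem_nil, or_false]
    by_cases hA : b ∈ A
    · exact hi a ha.1 ha.2 b hA (fun k => hb ⟨k, hA⟩) hab
    · have := h.p4.out a ha.2 b hA hab
      simp only [List.mem_cons, List.not_mem_nil, or_false, Prod.mk.injEq] at this
      rcases this with ⟨rfl, rfl⟩ | ⟨rfl, rfl⟩ | ⟨rfl, rfl⟩ | ⟨rfl, rfl⟩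
      · exact Or.inl (c1 ha.1)
      · exact Or.inl (c2 ha.1)
      · exact Or.inr (c3 ha.1)
      · exact Or.inr (c4 ha.1)
  have nA : ∀ {a b u : V} {e : Sym2 V} {T : Set V}, a ∈ A → b ∈ A → u ∈ e → u ∈ T →
      Disjoint T A → s(a, b) ≠ e := by
    rintro a b u e T ha hb hu hT hd rfl
    rcases Sym2.mem_iff.1 hu with rfl | rfl
    · exact Set.disjoint_left.1 hd hT ha
    · exact Set.disjoint_left.1 hd hT hb
  have sp := sep (p := p) (n := n) hTCP (memA (q := q) (m := m) (p := p) (n := n) m1 a1)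
    (memA m2 a2) (fun _ k => mem_union_left _ (mem_union_right _ k)) hvv
  have sq := sep (p := q) (n := m) hTCP (memA (q := q) (m := m) (p := p) (n := n) m3 a3)
    (memA m4 a4) (fun _ k => mem_union_right _ k) hw
  rcases sp with ⟨k1, k2⟩ | ⟨f, k1, k2, e, he, u, hu, hp⟩
  · rcases sq with ⟨k3, k4⟩ | ⟨f', k3, k4, e', he', u', hu', hq⟩
    · obtain ⟨e₁, e₂, H⟩ := two _ hc Y v₁
      exact fin e₁ e₂ (fun a ha hA b _ hb hab => H a ha b hb (inn a ha hA b hb hab))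
        (fun k => absurd k k1) (fun k => absurd k k2) (fun k => absurd k k3) (fun k => absurd k k4)
    · obtain ⟨g, H⟩ := one (erase _ e') (by rw [card_erase_of_mem he']; omega) Y v₁
      exact fin g f' (fun a ha hA b hB hb hab => Or.inl (H a ha b hb
        (mem_erase.2 ⟨nA hA hB hu' hq h.qA, inn a ha hA b hb hab⟩)))
        (fun k => absurd k k1) (fun k => absurd k k2) k3 k4
  · rcases sq with ⟨k3, k4⟩ | ⟨f', k3, k4, e', he', u', hu', hq⟩
    · obtain ⟨g, H⟩ := one (erase _ e) (by rw [card_erase_of_mem he]; omega) Y v₁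
      exact fin f g (fun a ha hA b hB hb hab => Or.inr (H a ha b hb
        (mem_erase.2 ⟨nA hA hB hu hp h.pA, inn a ha hA b hb hab⟩)))
        k1 k2 (fun k => absurd k k3) (fun k => absurd k k4)
    · refine fin f f' (fun a ha hA b hB hb hab => ?_) k1 k2 k3 k4
      have hee : e' ≠ e := fun k => npq h (cut_subset he) hu hp (k ▸ hu') hq
      have h1 := mem_erase.2 ⟨hee, he'⟩
      have h2 := mem_erase.2 ⟨nA hA hB hu' hq h.qA,
        mem_erase.2 ⟨nA hA hB hu hp h.pA, inn a ha hA b hb hab⟩⟩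
      have h3 := card_pos.2 ⟨_, h2⟩
      rw [card_erase_of_mem h1, card_erase_of_mem he] at h3
      omega

end TC3x

theorem p_TC3 (hTCP : S_TCP) :
    S_TC3 := by
  intro V _ _ G A p q n m v₁ v₂ w₁ w₂ h Y hY hY'
  by_contra hc
  have hc' : (cut id (Om G A p q n m) Y).card ≤ 2 := by omega
  by_cases k : ¬ (w₁ ∈ Y ∧ w₂ ∈ Y) ∧ (v₁ ∈ Y → v₂ ∈ Y → w₁ ∉ Y ∧ w₂ ∉ Y)
  · exact TC3x.core hTCP h Y hY hc' k.1 k.2
  · refine TC3x.core hTCP h Yᶜ hY' (by rwa [cut_compl]) ?_ ?_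
    · simp only [Set.mem_compl_iff]
      tauto
    · simp only [Set.mem_compl_iff]
      tauto

end Pool.Agent.P.MP_bb4f54_co.T4

end sTC3

section sTCD
/-! Step TCD. -/

set_option autoImplicit false
set_option linter.unusedSectionVars false

namespace Pool.Agent.P.MP_bb4f54_co.T4

open Finset
open Pool.Agent.P.MP_bb4f54_co.T3

namespace TCDx

variable {V : Type} [Fintype V] [DecidableEq V] {G : SimpleGraph V} {Γ : Finset (Sym2 V)}
  {A : Set V} {p q : ℕ → V} {n m : ℕ} {v v₁ v₂ : V}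

lemma dgr_eq (hΓ : Γ ⊆ EG G) (S : Finset V) (h : ∀ x, s(v, x) ∈ Γ ↔ x ∈ S) :
    dgr id Γ v = S.card := by
  have : cut id Γ {v} = S.image fun x => s(v, x) := by
    ext e
    rw [mem_cut_single, mem_image]
    constructor
    · rintro ⟨h1, h2, -⟩
      obtain ⟨x, rfl⟩ := Sym2.mem_iff_exists.1 h2
      exact ⟨x, (h x).1 h1, rfl⟩
    · rintro ⟨x, hx, rfl⟩
      exact ⟨(h x).2 hx, Sym2.mem_mk_left _ _, nl_EG _ (hΓ ((h x).2 hx))⟩
  rw [dgr, this, card_image_of_injective _ fun x y e => Sym2.congr_right.1 e]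

lemma es_sub (h : Str G p n) : ES p 0 n ⊆ EG G := fun e he => by
  obtain ⟨i, -, hi, rfl⟩ := mem_ES.1 he
  exact mk_mem_EG.2 (h.adj i hi)

lemma es_mem {x : V} (h : s(v, x) ∈ ES p 0 n) : v ∈ sg p 0 n := by
  obtain ⟨i, -, hi, e⟩ := mem_ES.1 h
  rcases Sym2.eq_iff.1 e with ⟨rfl, -⟩ | ⟨rfl, -⟩
  · exact mem_sg (Nat.zero_le _) hi.le
  · exact mem_sg (Nat.zero_le _) hi

lemma tch_iff {x : V} : s(v, x) ∈ tch id (EG G) A ↔ G.Adj v x ∧ (v ∈ A ∨ x ∈ A) := by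
  simp [mem_tch, mk_mem_EG]

lemma side (hΓ : Γ ⊆ EG G)
    (hm : ∀ e, e ∈ Γ ↔ e ∈ tch id (EG G) A ∨ e ∈ ES p 0 n ∨ e ∈ ES q 0 m) (sp : Str G p n)
    (pA : Disjoint (sg p 0 n) A) (pq : Disjoint (sg p 0 n) (sg q 0 m)) (m1 : v₁ ∈ A) (m2 : v₂ ∈ A)
    (a1 : G.Adj v₁ (p 0)) (a2 : G.Adj v₂ (p n)) (nv : (v₁, p 0) ≠ (v₂, p n))
    (out : ∀ x ∈ A, ∀ y, y ∉ A → G.Adj x y →
      (x, y) = (v₁, p 0) ∨ (x, y) = (v₂, p n) ∨ y ∈ sg q 0 m) (hv : v ∈ sg p 0 n) :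
    dgr id Γ v = 2 := by
  have hA := Set.disjoint_left.1 pA hv
  have hq := Set.disjoint_left.1 pq hv
  have nA : ∀ k, k ≤ n → p k ∉ A := fun k hk =>
    Set.disjoint_left.1 pA (mem_sg (Nat.zero_le _) hk)
  obtain ⟨i, -, hi, rfl⟩ := hv
  rw [dgr_eq hΓ {if i = 0 then v₁ else p (i - 1), if i = n then v₂ else p (i + 1)} fun x => ?_]
  · refine card_pair ?_
    split_ifs with h1 h2 h2
    · rintro rfl
      exact nv (by rw [← h1, h2])
    · rintro rfl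
      exact nA _ (by omega) m1
    · rintro rfl
      exact nA _ (by omega) m2
    · intro e
      have := sp.inj _ _ (by omega) (by omega) e
      omega
  · rw [hm, tch_iff, mem_insert, mem_singleton]
    constructor
    · rintro (⟨h1, h2⟩ | h | h)
      · rcases out x (h2.resolve_left hA) _ hA h1.symm with e | e | e
        · obtain ⟨rfl, e'⟩ := Prod.mk.inj e
          exact Or.inl (if_pos (sp.inj _ _ hi (Nat.zero_le _) e')).symm
        · obtain ⟨rfl, e'⟩ := Prod.mk.inj e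
          exact Or.inr (if_pos (sp.inj _ _ hi le_rfl e')).symm
        · exact absurd e hq
      · obtain ⟨k, -, hk, e⟩ := mem_ES.1 h
        rcases Sym2.eq_iff.1 e with ⟨e', rfl⟩ | ⟨e', rfl⟩
        · obtain rfl := sp.inj _ _ hi hk.le e'
          exact Or.inr (if_neg hk.ne).symm
        · obtain rfl := sp.inj _ _ hi hk e'
          exact Or.inl (if_neg k.succ_ne_zero).symm
      · exact absurd (es_mem h) hq
    · rintro (rfl | rfl)
      · split_ifs with h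
        · exact Or.inl ⟨h ▸ a1.symm, Or.inr m1⟩
        · refine Or.inr (Or.inl (mem_ES.2 ⟨i - 1, Nat.zero_le _, by omega, ?_⟩))
          rw [Sym2.eq_swap, show i - 1 + 1 = i by omega]
      · split_ifs with h
        · exact Or.inl ⟨h ▸ a2.symm, Or.inr m2⟩
        · exact Or.inr (Or.inl (mem_ES.2 ⟨i, Nat.zero_le _, by omega, rfl⟩))

end TCDx

theorem p_TCD :
    S_TCD := by
  intro V _ _ G A p q n m v₁ v₂ w₁ w₂ h
  have hΓ : Om G A p q n m ⊆ EG G :=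
    union_subset (union_subset tch_subset (TCDx.es_sub h.sp)) (TCDx.es_sub h.sq)
  have hm : ∀ e, e ∈ Om G A p q n m ↔ e ∈ tch id (EG G) A ∨ e ∈ ES p 0 n ∨ e ∈ ES q 0 m :=
    fun e => by rw [Om, mem_union, mem_union, or_assoc]
  have out : ∀ x ∈ A, ∀ y, y ∉ A → G.Adj x y → (x, y) = (v₁, p 0) ∨ (x, y) = (v₂, p n) ∨
      (x, y) = (w₁, q 0) ∨ (x, y) = (w₂, q m) := fun x hx y hy e => by
    simpa only [List.mem_cons, List.not_mem_nil, or_false] using h.p4.out x hx y hy e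
  have s0 : ∀ (p : ℕ → V) (n : ℕ) {x y a b : V}, (x, y) = (a, p 0) ∨ (x, y) = (b, p n) →
      y ∈ sg p 0 n := by
    rintro p n x y a b (e | e) <;> rw [(Prod.mk.inj e).2]
    · exact mem_sg le_rfl (Nat.zero_le _)
    · exact mem_sg (Nat.zero_le _) le_rfl
  refine ⟨hΓ, fun v hv => ?_, fun v hv => hv.elim ?_ ?_, fun v h1 h2 h3 => ?_⟩
  · obtain ⟨a, b, c, e1, e2, e3, e⟩ := h.cb v
    rw [TCDx.dgr_eq hΓ {a, b, c} fun x => ?_, card_eq_three.2 ⟨a, b, c, e1, e2, e3, rfl⟩]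
    simp only [mem_insert, mem_singleton, ← e]
    exact ⟨fun hx => mk_mem_EG.1 (hΓ hx), fun hx => (hm _).2 (Or.inl (TCDx.tch_iff.2
      ⟨hx, Or.inl hv⟩))⟩
  · exact TCDx.side hΓ hm h.sp h.pA h.pq h.p4.m.1 h.p4.m.2.1 h.p4.adj.1 h.p4.adj.2.1 h.nv
      fun x hx y hy e => (out x hx y hy e).imp_right fun h => h.imp_right (s0 q m)
  · refine TCDx.side hΓ (fun e => (hm e).trans (or_congr_right or_comm)) h.sq h.qA h.pq.symm
      h.p4.m.2.2.1 h.p4.m.2.2.2 h.p4.adj.2.2.1 h.p4.adj.2.2.2 h.nw fun x hx y hy e => ?_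
    rcases or_assoc.2 (out x hx y hy e) with e | e | e
    · exact Or.inr (Or.inr (s0 p n e))
    · exact Or.inl e
    · exact Or.inr (Or.inl e)
  · rw [TCDx.dgr_eq hΓ ∅ fun x => ?_, card_empty]
    refine iff_of_false (fun hx => ?_) (notMem_empty x)
    rcases (hm _).1 hx with e | e | e
    · obtain ⟨e1, e2⟩ := TCDx.tch_iff.1 e
      rcases or_assoc.2 (out x (e2.resolve_left h1) v h1 e1.symm) with e | e
      · exact h2 (s0 p n e)
      · exact h3 (s0 q m e)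
    · exact h2 (TCDx.es_mem e)
    · exact h3 (TCDx.es_mem e)

end Pool.Agent.P.MP_bb4f54_co.T4

end sTCD

section sRD1
/-! Step RD1. -/

set_option autoImplicit false
set_option linter.unusedSectionVars false

namespace Pool.Agent.P.MP_bb4f54_co.T4

open Finset
open Pool.Agent.P.MP_bb4f54_co.T3

namespace RD1x

variable {V : Type} {G : SimpleGraph V}

theorem two (h : Cb G) {v a : V} (ha : G.Adj v a) :
    ∃ b c, b ≠ c ∧ b ≠ a ∧ c ≠ a ∧ G.Adj v b ∧ G.Adj v c ∧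
      ∀ w, G.Adj v w → w = a ∨ w = b ∨ w = c := by
  obtain ⟨x, y, z, e₁, e₂, e₃, h⟩ := h v
  simp only [h] at ha ⊢
  rcases ha with rfl | rfl | rfl
  · exact ⟨y, z, by grind⟩
  · exact ⟨x, z, by grind⟩
  · exact ⟨x, y, by grind⟩

end RD1x

theorem p_RD1 :
    S_RD1 := by
  intro V G X e₁ e₂ hC hne hO hmin
  by_cases h0 : ∃ x ∈ X, ∃ x', x' ∉ X ∧ G.Adj x x'
  swap
  · obtain ⟨x, hx⟩ := hne
    obtain ⟨a, b, c, -, -, -, h⟩ := hC x
    have ha : G.Adj x a := (h a).2 (Or.inl rfl)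
    have haX : a ∈ X := by
      by_contra hn
      exact h0 ⟨x, hx, a, hn, ha⟩
    exact ⟨x, hx, a, haX, ha.ne, Or.inl ⟨ha, fun u hu v hv huv => (h0 ⟨u, hu, v, hv, huv⟩).elim⟩⟩
  obtain ⟨x, hx, x', hx', ax⟩ := h0
  have m1 := hO x hx x' hx' ax
  by_cases h1 : ∃ y ∈ X, y ≠ x ∧ ∃ y', y' ∉ X ∧ G.Adj y y'
  swap
  · exfalso
    obtain ⟨b, c, hbc, hb, hc, ab, ac, hall⟩ := RD1x.two hC ax
    refine hmin (X \ {x}) (Set.sdiff_singleton_ssubset.2 hx) ?_ (b, x) (c, x) ?_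
    · by_cases hbX : b ∈ X
      · exact ⟨b, hbX, ab.ne'⟩
      by_cases hcX : c ∈ X
      · exact ⟨c, hcX, ac.ne'⟩
      have m2 := hO x hx b hbX ab
      have m3 := hO x hx c hcX ac
      simp only [List.mem_cons, List.not_mem_nil, or_false] at m1 m2 m3
      grind
    · intro u hu v hv huv
      by_cases hvX : v ∈ X
      · have hvx : v = x := by
          by_contra hn
          exact hv ⟨hvX, hn⟩
        subst hvx
        rcases hall u huv.symm with rfl | rfl | rfl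
        · exact absurd hu.1 hx'
        · simp
        · simp
      · exact (h1 ⟨u, hu.1, hu.2, v, hvX, huv⟩).elim
  obtain ⟨y, hy, hyx, y', hy', ay⟩ := h1
  have m2 := hO y hy y' hy' ay
  have hO' : Out G X [(x, x'), (y, y')] := by
    intro u hu v hv huv
    have m3 := hO u hu v hv huv
    simp only [List.mem_cons, List.not_mem_nil, or_false] at m1 m2 m3 ⊢
    grind
  refine ⟨x, hx, y, hy, hyx.symm, Or.inr ⟨fun axy => ?_, x', y', hx', hy', ax, ay, hO'⟩⟩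
  obtain ⟨c, ac, c1, c2, hc⟩ := hC.third ax axy (fun e => hx' (e ▸ hy))
  obtain ⟨d, ad, d1, d2, hd⟩ := hC.third ay axy.symm (fun e => hy' (e ▸ hx))
  have hcX : c ∈ X := by
    by_contra hn
    have m3 := hO' x hx c hn ac
    simp only [List.mem_cons, List.not_mem_nil, or_false, Prod.mk.injEq] at m3
    rcases m3 with ⟨-, e⟩ | ⟨e, -⟩
    · exact c1 e
    · exact hyx e.symm
  refine hmin (X \ {x, y}) ⟨Set.sdiff_subset, fun h => (h hx).2 (Or.inl rfl)⟩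
    ⟨c, hcX, fun h => h.elim ac.ne' c2⟩ (c, x) (d, y) fun u hu v hv huv => ?_
  have hux : u ≠ x := fun e => hu.2 (Or.inl e)
  have huy : u ≠ y := fun e => hu.2 (Or.inr e)
  by_cases hvX : v ∈ X
  · have hv' : v = x ∨ v = y := by
      by_contra hn
      exact hv ⟨hvX, hn⟩
    rcases hv' with rfl | rfl
    · rcases hc u huv.symm with rfl | rfl | rfl
      · exact absurd hu.1 hx'
      · exact absurd rfl huy
      · simp
    · rcases hd u huv.symm with rfl | rfl | rfl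
      · exact absurd hu.1 hy'
      · exact absurd rfl hux
      · simp
  · have m3 := hO' u hu.1 v hvX huv
    simp only [List.mem_cons, List.not_mem_nil, or_false, Prod.mk.injEq] at m3
    rcases m3 with ⟨e, -⟩ | ⟨e, -⟩
    · exact absurd e hux
    · exact absurd e huy

end Pool.Agent.P.MP_bb4f54_co.T4

end sRD1

section sDIA4
/-! Step DIA4. -/

set_option autoImplicit false
set_option linter.unusedSectionVars false

namespace Pool.Agent.P.MP_bb4f54_co.T4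

open Finset
open Pool.Agent.P.MP_bb4f54_co.T3

namespace DIA4x

theorem fin {a x K g t : ℕ} {ψ : ℝ} (hx : 0 < x) (hψ : ψ ≤ 1 / (t + 1)) (ht : t ≤ g)
    (h : (a : ℝ) / x ≤ 1 / (2 * (K + 1) * (g + 1)) + ψ / (2 * (K + 1))) :
    (K + 1) * (t + 1) * a ≤ x := by
  have h1 : (1 : ℝ) / (2 * (K + 1) * (g + 1)) ≤ 1 / (2 * (K + 1) * (t + 1)) := by gcongr
  have h2 : ψ / (2 * (K + 1)) ≤ 1 / (2 * (K + 1) * (t + 1)) := by
    calc ψ / (2 * (K + 1)) ≤ 1 / (t + 1) / (2 * (K + 1)) := by gcongr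
      _ = _ := by field_simp
  have h3 : (a : ℝ) / x ≤ 1 / ((K + 1) * (t + 1)) := by
    refine h.trans ((add_le_add h1 h2).trans (le_of_eq ?_))
    field_simp; norm_num
  rw [div_le_div_iff₀ (by exact_mod_cast hx) (by positivity), one_mul, mul_comm] at h3
  exact_mod_cast h3

theorem psi_le {x g : ℕ} (h : 2 ^ (g + 1) ≤ x) : psi x ≤ 1 / (g + 1) := by
  refine (psi_anti h).trans ?_
  rw [psi, ← pow_mul, Nat.log_pow (by norm_num)]
  have : (0 : ℝ) ≤ g := by positivity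
  refine one_div_le_one_div_of_le (by positivity) ?_
  push_cast
  linarith

end DIA4x

theorem p_DIA4 (hOT : S_OT) (hPOT : S_POT) :
    S_DIA4 := by
  classical
  intro K g n₀
  refine ⟨n₀ + 2 ^ (g + 1), (n₀ + 2 ^ (g + 1)) * (24 * (K + 1) * (g + 1)),
    32 * (K + 1) * (g + 1), ?_⟩
  intro V _ _ G _ A hd hN hA
  set s := n₀ + 2 ^ (g + 1) with hs
  set D := 24 * (K + 1) * (g + 1) with hD
  obtain ⟨I, hI, hmax⟩ := exists_max_image (univ.filter fun I : Finset (Finset V) =>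
    (∀ S ∈ I, S ⊆ A ∧ S.Nonempty ∧ S.card ≤ s ∧ K * ot G S ≤ S.card) ∧
      ∀ S ∈ I, ∀ S' ∈ I, S ≠ S' → Disjoint S S') card ⟨∅, by simp⟩
  obtain ⟨-, h1, h2⟩ := mem_filter.1 hI
  by_cases hn : A.card ≤ s * D * I.card
  · exact Or.inr ⟨I, h1, h2, hn⟩
  left
  set U := I.biUnion id with hU
  have hUc : U.card ≤ I.card * s := card_biUnion_le_card_mul _ _ _ fun S hS => (h1 S hS).2.2.1
  have hDU : D * U.card < A.card := by
    have := Nat.mul_le_mul_left D hUc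
    nlinarith
  have hD2 : 2 ≤ D := by nlinarith [Nat.zero_le K, Nat.zero_le g, Nat.zero_le (K * g)]
  have hc : A.card ≤ (A ∩ Uᶜ).card + U.card := by
    rw [← sdiff_eq_inter_compl]; exact card_le_card_sdiff_add_card
  have h2U : 2 * U.card < A.card := (Nat.mul_le_mul_right _ hD2).trans_lt hDU
  have hpos : 0 < (A ∩ Uᶜ).card := by omega
  have hot : ot G (A ∩ Uᶜ) ≤ 4 + 3 * U.card := by
    have a := ((hOT G).1 U).trans_le ((hOT G).2.2.2.1 hd U Uᶜ)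
    have b := (hOT G).2.1 A Uᶜ
    omega
  obtain ⟨X, hX, hne, hE, hp⟩ := hPOT G hd K (A ∩ Uᶜ) (card_pos.1 hpos)
  have hXA : X ⊆ A := hX.trans inter_subset_left
  have h3 : (ot G (A ∩ Uᶜ) : ℝ) / (A ∩ Uᶜ).card ≤ 1 / (2 * (K + 1) * (g + 1)) := by
    rw [div_le_div_iff₀ (by exact_mod_cast hpos) (by positivity), one_mul]
    have h4 : ot G (A ∩ Uᶜ) * (2 * (K + 1) * (g + 1)) ≤ (A ∩ Uᶜ).card := by
      have h5 := Nat.mul_le_mul_left D hot
      have h6 : D * ot G (A ∩ Uᶜ) = 12 * (ot G (A ∩ Uᶜ) * (2 * (K + 1) * (g + 1))) := by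
        rw [hD]; ring
      have h7 : D * (4 + 3 * U.card) = 3 * (32 * (K + 1) * (g + 1)) + 3 * (D * U.card) := by
        rw [hD]; ring
      omega
    exact_mod_cast h4
  have h4 := hp.trans (add_le_add_left h3 _)
  by_cases hsm : X.card ≤ s
  · exfalso
    have h5 := DIA4x.fin (t := 0) hne.card_pos (by simpa using psi_le_one _) (Nat.zero_le g) h4
    have hdis : ∀ S ∈ I, Disjoint X S := fun S hS => disjoint_left.2 fun v hv hv' =>
      mem_compl.1 (mem_inter.1 (hX hv)).2 (mem_biUnion.2 ⟨S, hS, hv'⟩)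
    have hXI : X ∉ I := fun h => hne.ne_empty (disjoint_self.1 (hdis X h))
    have h6 := hmax (insert X I)
      (mem_filter.2 ⟨mem_univ _, fun S hS => ?_, fun S hS S' hS' e => ?_⟩)
    · rw [card_insert_of_notMem hXI] at h6
      omega
    · rcases mem_insert.1 hS with rfl | hS
      · exact ⟨hXA, hne, hsm, by nlinarith⟩
      · exact h1 S hS
    · rcases mem_insert.1 hS with a | a <;> rcases mem_insert.1 hS' with b | b
      · exact absurd (a.trans b.symm) e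
      · exact a ▸ hdis _ b
      · exact b ▸ (hdis _ a).symm
      · exact h2 S a S' b e
  · have h5 := DIA4x.fin (t := g) hne.card_pos (DIA4x.psi_le (by omega)) le_rfl h4
    refine ⟨X, hXA, (Nat.le_add_right _ _).trans (not_le.1 hsm).le, hE,
      le_trans (Nat.mul_le_mul_right _ ?_) h5⟩
    nlinarith

end Pool.Agent.P.MP_bb4f54_co.T4

end sDIA4

section sOCX
/-! Step OCX. -/

set_option autoImplicit false
set_option linter.unusedSectionVars false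

namespace Pool.Agent.P.MP_bb4f54_co.T4

open Finset
open Pool.Agent.P.MP_bb4f54_co.T3

theorem p_OCX (hMEM : S_MEM) (hLK4 : S_LK4) :
    S_OCX := by
  intro V _ _ G x y X X' n m hc h2 hX hX' hss hmax ht ht'
  obtain ⟨u₁, v₁, u₂, v₂, c⟩ := hX
  obtain ⟨w₁, z₁, w₂, z₂, c'⟩ := hX'
  have p4 := (hLK4 G x y u₁ v₁ u₂ v₂ w₁ z₁ w₂ z₂ X X' h2 c c' hss).1
  obtain ⟨p, sp, rfl, rfl, hp⟩ := (ht.pl c).str
  obtain ⟨q, sq, rfl, rfl, hq⟩ := (ht'.pl c'.compl).str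
  refine ⟨p, q, v₁, v₂, w₁, w₂, ⟨hc, h2.no2 (z := x) fun h => h.2 c.m.1, sp, sq,
    Set.disjoint_left.2 fun a ha hA => hA.2 (hp ha),
    Set.disjoint_left.2 fun a ha hA => hq ha hA.1,
    Set.disjoint_left.2 fun a ha hb => hq hb (hss.1 (hp ha)), p4,
    fun e => c.ne.2.2 (by rw [Prod.mk.injEq] at e ⊢; exact e.symm), c'.ne.2.2,
    fun Y hY a1 a2 b1 b2 e₁ e₂ h => ?_⟩, fun h => ?_⟩
  · have hout : Out G (X ∪ Y) [(x, y), e₁, e₂] := by
      intro a ha b hb e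
      rw [Set.mem_union, not_or] at hb
      simp only [List.mem_cons, List.not_mem_nil, or_false]
      rcases ha with ha | ha
      · have := c.out a ha b hb.1 e
        simp only [List.mem_cons, List.not_mem_nil, or_false, Prod.mk.injEq] at this
        rcases this with ⟨rfl, rfl⟩ | ⟨-, rfl⟩ | ⟨-, rfl⟩
        · exact Or.inl rfl
        · exact absurd a1 hb.2
        · exact absurd a2 hb.2
      · by_cases hb' : b ∈ X'
        · exact Or.inr (h a ha b ⟨hb', hb.1⟩ hb.2 e)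
        · have := c'.out a (hY ha).1 b hb' e
          simp only [List.mem_cons, List.not_mem_nil, or_false, Prod.mk.injEq] at this
          rcases this with ⟨rfl, rfl⟩ | ⟨rfl, -⟩ | ⟨rfl, -⟩
          · exact Or.inl rfl
          · exact absurd ha b1
          · exact absurd ha b2
    have hZ := (hMEM G x y hc h2 c.adj.1).1 (X ∪ Y) e₁ e₂ (Or.inl c.m.1)
      (fun hy => hy.elim c.n.1 fun hy => c'.n.1 (hY hy).1) hout
    rcases hmax _ hZ Set.subset_union_left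
      (Set.union_subset hss.1 fun a ha => (hY ha).1) with e | e
    · exact c.n.2.1 (e ▸ (Or.inr a1 : v₁ ∈ X ∪ Y))
    · have : w₁ ∈ X ∪ Y := e ▸ c'.m.2.1
      exact this.elim p4.m.2.2.1.2 b1
  · simp only [Om, mem_union, mem_tch, mem_ES, id, Sym2.mem_iff] at h
    rcases h with (⟨-, v, rfl | rfl, hv⟩ | ⟨i, -, hi, e⟩) | ⟨i, -, hi, e⟩
    · exact hv.2 c.m.1
    · exact c'.n.1 hv.1
    · have : y ∈ s(p i, p (i + 1)) := e ▸ Sym2.mem_mk_right x y
      rcases Sym2.mem_iff.1 this with e | e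
      · exact c.n.1 (e ▸ hp (mem_sg (Nat.zero_le _) hi.le))
      · exact c.n.1 (e ▸ hp (mem_sg (Nat.zero_le _) hi))
    · have : x ∈ s(q i, q (i + 1)) := e ▸ Sym2.mem_mk_left x y
      rcases Sym2.mem_iff.1 this with e | e
      · exact hq (mem_sg (Nat.zero_le _) hi.le) (e ▸ c'.m.1)
      · exact hq (mem_sg (Nat.zero_le _) hi) (e ▸ c'.m.1)

end Pool.Agent.P.MP_bb4f54_co.T4

end sOCX

section sMAA
/-! Step MAA. -/

set_option autoImplicit false
set_option linter.unusedSectionVars false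

namespace Pool.Agent.P.MP_bb4f54_co.T4

open Finset
open Pool.Agent.P.MP_bb4f54_co.T3

theorem p_MAA (hSEA : S_SEA) (hINT : S_INT) (hITER : S_ITER) (hMAJ : S_MAJ) (hPRA : S_PRA) (hSQ : S_SQ) :
    S_MAA := by
  classical
  obtain ⟨K, hK⟩ := hINT
  obtain ⟨N₁, s, q, h1⟩ := hSEA K (0 + 2)
  obtain ⟨N₂, h2⟩ := hPRA (0 + 2) ((s + 1).choose 2) (20 * q)
  refine ⟨N₁ + N₂, fun {V} _ _ G G' A Ω hG hn hA hc hΩ hΩ' hT ht hcard => ?_⟩
  suffices h : ∃ L, 3 ≤ L ∧ ∀ j, j ≤ (0 + 2) * (Nat.sqrt L + 1) → HasC G' (L + 2 * j) by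
    obtain ⟨L, l1, l2⟩ := h
    exact (hSQ (HasC G') 0 L l1 l2).2
  rcases h1 G G' A hG (by omega) hc (fun a ha b _ e => mk_mem_EG.1 (hΩ' (ht _ (mk_mem_EG.2 e)
    ⟨a, Sym2.mem_mk_left _ _, ha⟩))) with h | ⟨I, i1, i2, i3⟩
  · exact h
  have hx : ∀ S, ∃ S₀ ⊆ S, S ∈ I → ∀ Γ ⊆ EG G, TC id Γ →
      (∀ e ∈ EG G, (∃ u ∈ e, u ∈ S) → e ∈ Γ) → Res (EG G) (Fi G S₀) Γ := fun S => by
    by_cases hS : S ∈ I
    · obtain ⟨S₀, a, b⟩ := hK G S hG (i1 S hS).2.1
        (fun e => hA (univ_subset_iff.1 (e ▸ (i1 S hS).1))) (i1 S hS).2.2.2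
      exact ⟨S₀, a, fun _ => b⟩
    · exact ⟨S, subset_rfl, fun h' => (hS h').elim⟩
  choose f hf hf' using hx
  have k0 : ∀ S, ∀ e ∈ Fi G (f S), ∀ u ∈ e, u ∈ S := fun S e he u hu =>
    hf S (mem_coe.1 ((mem_ins.1 he).2 u hu))
  have k1 : ∀ S ∈ I, ∀ S' ∈ I, S ≠ S' → Disjoint (Fi G (f S)) (Fi G (f S')) :=
    fun S a S' b hne => disjoint_left.2 fun e h h' =>
      disjoint_left.1 (i2 S a S' b hne) (k0 S e h _ e.out_fst_mem) (k0 S' e h' _ e.out_fst_mem)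
  have k2 : ∀ S ∈ I, Fi G (f S) ⊆ Ω := fun S hS e he =>
    ht e (ins_subset he) ⟨_, e.out_fst_mem, (i1 S hS).1 (k0 S e he _ e.out_fst_mem)⟩
  obtain ⟨J, j1, Γ, j2, c, j3, j4, -, j5⟩ := hITER Ω I (fun S => Fi G (f S)) hT k2 k1
    (fun S hS Γ a b h => by
      obtain ⟨Γ', c, r1, r2, r3, r4⟩ := hf' S hS Γ (a.trans hΩ) b fun e he ⟨u, u1, u2⟩ =>
        h e (ht e he ⟨u, u1, (i1 S hS).1 u2⟩) fun S' hS' hne h' =>
          disjoint_left.1 (i2 S' hS' S hS hne) (k0 S' e h' u u1) u2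
      exact ⟨Γ', c, r1, r2, r3, r4.imp_left fun g =>
        g.mono subset_rfl hΩ (inter_subset_left.trans (k2 S hS))⟩)
    ((I.card + 1) / 2) (by omega)
  obtain ⟨J', m1, Ω', m2, Γ', m3, m4, m5, m6⟩ := hMAJ Ω Γ J (fun S => Fi G (f S)) c j2 j4
    (fun i hi j hj => k1 i (j1 hi) j (j1 hj)) j5
  refine h2 G' Ω' Γ' J' (fun S => Fi G (f S)) c (5 * A.card) (by omega)
    ((card_le_card m2).trans hcard) (m2.trans hΩ') m3 m5
    ((Nat.mul_le_mul_left 5 (i3.trans (Nat.mul_le_mul_left q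
      (show I.card ≤ 4 * J'.card by omega)))).trans (le_of_eq (by ring)))
    (fun i hi j hj => k1 i (j1 (m1 hi)) j (j1 (m1 hj))) fun S hS => ⟨?_, m6 S hS⟩
  refine (card_le_card (t := S.sym2) fun e he => mem_sym2_iff.2 (k0 S e he)).trans ?_
  rw [card_sym2]
  exact Nat.choose_le_choose 2 (Nat.succ_le_succ (i1 S (j1 (m1 hS))).2.2.1)

end Pool.Agent.P.MP_bb4f54_co.T4

end sMAA

section sTCA
/-! Step TCA. -/

set_option autoImplicit false
set_option linter.unusedSectionVars false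

namespace Pool.Agent.P.MP_bb4f54_co.T4

open Finset
open Pool.Agent.P.MP_bb4f54_co.T3

theorem p_TCA (hTCD : S_TCD) (hTCP : S_TCP) (hTC3 : S_TC3) :
    S_TCA := by
  intro V _ _ G A p q n m v₁ v₂ w₁ w₂ h
  obtain ⟨d0, d3, d2, dz⟩ := hTCD G A p q n m v₁ v₂ w₁ w₂ h
  have hA : ∀ v, v ∉ A → dgr id (Om G A p q n m) v = 0 ∨ v ∈ sg p 0 n ∨ v ∈ sg q 0 m := by
    intro v hv
    by_cases h1 : v ∈ sg p 0 n
    · exact Or.inr (Or.inl h1)
    by_cases h2 : v ∈ sg q 0 m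
    · exact Or.inr (Or.inr h2)
    exact Or.inl (dz v hv h1 h2)
  have h3 : ∀ v, dgr id (Om G A p q n m) v = 3 → v ∈ A := by
    intro v hv
    by_contra hc
    rcases hA v hc with e | e
    · omega
    · have := d2 v e
      omega
  have he : ∀ a b, a ∈ A → G.Adj a b → s(a, b) ∈ Om G A p q n m := fun a b ha hab =>
    mem_union_left _ (mem_union_left _
      (mem_tch.2 ⟨mk_mem_EG.2 hab, a, Sym2.mem_mk_left a b, ha⟩))
  have key : ∀ Y : Set V, (∀ v ∈ A, v ∈ Y) → (∃ v ∉ Y, dgr id (Om G A p q n m) v ≠ 0) →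
      (cut id (Om G A p q n m) Y).Nonempty := by
    rintro Y hY ⟨v, hv, hd⟩
    rcases (hA v fun e => hv (hY v e)).resolve_left hd with ⟨i, -, hi, rfl⟩ | ⟨i, -, hi, rfl⟩
    · obtain ⟨e, h1, -⟩ := (hTCP _ p n v₁ Y (he _ _ h.p4.m.1 h.p4.adj.1)
        (subset_union_right.trans subset_union_left)).1 i hi (iff_of_true (hY _ h.p4.m.1) hv)
      exact ⟨e, h1⟩
    · obtain ⟨e, h1, -⟩ := (hTCP _ q m w₁ Y (he _ _ h.p4.m.2.2.1 h.p4.adj.2.2.1)
        subset_union_right).1 i hi (iff_of_true (hY _ h.p4.m.2.2.1) hv)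
      exact ⟨e, h1⟩
  refine ⟨nl_EG.mono d0, fun v => ?_, ⟨v₁, d3 v₁ h.p4.m.1⟩, ?_, ?_⟩
  · by_cases hv : v ∈ A
    · exact Or.inr (Or.inr (d3 v hv))
    · exact (hA v hv).imp_right fun e => Or.inl (d2 v e)
  · rintro Y ⟨a, ha, ha3⟩ ⟨b, hb, hb3⟩
    exact hTC3 G A p q n m v₁ v₂ w₁ w₂ h Y ⟨a, h3 a ha3, ha⟩ ⟨b, h3 b hb3, hb⟩
  · rintro Y ⟨a, ha, ha0⟩ hb
    by_cases h1 : ∃ v ∈ A, v ∉ Y
    · by_cases h2 : ∃ v ∈ A, v ∈ Y
      · have := hTC3 G A p q n m v₁ v₂ w₁ w₂ h Y h2 h1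
        exact card_pos.1 (by omega)
      · rw [← cut_compl]
        exact key Yᶜ (fun v hv e => h2 ⟨v, hv, e⟩) ⟨a, fun e => e ha, ha0⟩
    · exact key Y (fun v hv => by_contra fun e => h1 ⟨v, hv, e⟩) hb

end Pool.Agent.P.MP_bb4f54_co.T4

end sTCA

section sPRA
/-! Step PRA. -/

set_option autoImplicit false
set_option linter.unusedSectionVars false

namespace Pool.Agent.P.MP_bb4f54_co.T4

open Finset
open Pool.Agent.P.MP_bb4f54_co.T3

theorem p_PRA (hEW : S_EW) (hWLK : S_WLK) (hMULT : S_MULT) (hARI0 : S_ARI0) (hARI1 : S_ARI1) :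
    S_PRA := by
  classical
  intro C s q
  obtain ⟨N, hN⟩ := hARI1 q ((2 * s + 1) * (2 * C))
  refine ⟨N, fun {V κ} _ _ _ G Ω Γ J F c n hn hΩn hΩ hΓ hT hq hd h => ?_⟩
  obtain ⟨Z, z1, z2, z3⟩ := hEW id Γ (fun e => (J.filter (fun i => c i = e)).card) hT
  rw [sum_card_fiberwise_eq_card_filter, sum_card_fiberwise_eq_card_filter,
    filter_true_of_mem fun i hi => (h i hi).2.1] at z3
  have hb := hN _ _ _ hn hq z3
  have hx : ∀ i, ∃ R : Fin 4 → Finset (Sym2 V), i ∈ J.filter (fun i => c i ∈ Z) →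
      (∀ j, R j ⊆ F i ∩ Ω) ∧ (R 0).card + (R 1).card = (R 2).card + (R 3).card + 2 ∧
        ∀ Z' ⊆ Ω, Cy id Z' → Z' ∩ F i = Z ∩ F i → ∀ j, Cy id ((Z' \ F i) ∪ R j) := fun i => by
    by_cases hi : i ∈ J.filter (fun i => c i ∈ Z)
    · obtain ⟨R, hR⟩ := (h i (mem_filter.1 hi).1).2.2 Z z1 z2 (mem_filter.1 hi).2
      exact ⟨R, fun _ => hR⟩
    · exact ⟨fun _ => ∅, fun h' => (hi h').elim⟩
  choose R hR using hx
  have hs : J.filter (fun i => c i ∈ Z) ⊆ J := filter_subset _ _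
  generalize J.filter (fun i => c i ∈ Z) = J' at *
  obtain ⟨L, hL⟩ := hARI0 J' (fun i j => (R i j).card) s (C * (Nat.sqrt n + 1))
    (fun i hi => ⟨fun j => (card_le_card (((hR i hi).1 j).trans inter_subset_left)).trans
      (h i (hs hi)).1, (hR i hi).2.1⟩) (le_trans (le_of_eq (by ring)) hb)
  have key : ∀ j, j ≤ C * (Nat.sqrt n + 1) →
      (HasC G ((Z \ J'.biUnion F).card + L + 2 * j) ∧
        3 ≤ (Z \ J'.biUnion F).card + L + 2 * j) ∧ (Z \ J'.biUnion F).card + L + 2 * j ≤ n := by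
    intro j hj
    obtain ⟨σ, hσ⟩ := hL j hj
    obtain ⟨Z', a, b, e⟩ := hMULT Ω Z J' F (fun i => R i (σ i)) (z1.trans hΓ) z2
      (fun i hi j hj => hd i (hs hi) j (hs hj))
      (fun i hi => ⟨(hR i hi).1 _, fun Z' a b e => (hR i hi).2.2 Z' a b e _⟩)
    have := And.intro ((hWLK G).1 Z' (a.trans hΩ) b) ((card_le_card a).trans hΩn)
    rwa [e, hσ, ← add_assoc] at this
  obtain ⟨⟨-, k2⟩, k3⟩ := key 0 (Nat.zero_le _)
  exact ⟨_, k2, fun j hj => (key j (hj.trans (Nat.mul_le_mul_left _ (Nat.succ_le_succ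
    (Nat.sqrt_le_sqrt k3))))).1.1⟩

end Pool.Agent.P.MP_bb4f54_co.T4

end sPRA

section sTRF
/-! Step TRF. -/

set_option autoImplicit false
set_option linter.unusedSectionVars false

namespace Pool.Agent.P.MP_bb4f54_co.T4

open Finset
open Pool.Agent.P.MP_bb4f54_co.T3

namespace TRFx

variable {V : Type} [Fintype V] [DecidableEq V] {G G' : SimpleGraph V} {X U : Finset V}

lemma rch (h : ∀ a ∈ X, ∀ b ∈ X, G.Adj a b → G'.Adj a b) (hU : U ⊆ X) {r : ℕ} {a b : V}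
    (hr : Rch G U r a b) : Rch G' U r a b := by
  obtain ⟨p, h1, h2⟩ := hr
  have he : ∀ e ∈ p.edges, e ∈ G'.edgeSet := fun e he => by
    induction e using Sym2.ind with
    | _ x y =>
      exact h x (hU (h2 x (p.fst_mem_support_of_mem_edges he))) y
        (hU (h2 y (p.snd_mem_support_of_mem_edges he))) (p.adj_of_mem_edges he)
  exact ⟨p.transfer G' he, by simpa using h1, by simpa using h2⟩

lemma xp (h : ∀ a ∈ X, ∀ b ∈ X, G.Adj a b → G'.Adj a b) (hU : U ⊆ X) {r : ℕ} {a : V}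
    (hr : Xp G U a r) : Xp G' U a r := ⟨hr.1, fun x hx => rch h hU (hr.2 x hx)⟩

end TRFx

theorem p_TRF :
    S_TRF := by
  intro V _ _ G G' X h
  refine ⟨fun B k hC W A₁ A₂ a b c d e f => ?_, fun K D r hH W hW => ?_⟩
  · obtain ⟨a₁, h1, a₂, h2, h3⟩ := hC W A₁ A₂ a b c d e f
    exact ⟨a₁, h1, a₂, h2, TRFx.rch h sdiff_subset h3⟩
  obtain ⟨u, u', a₁, a₂, b₁, b₂, F₁, F₂, F₃, F₄, H⟩ := hH W hW
  have s : (X \ W) \ {u, u'} ⊆ X := sdiff_subset.trans sdiff_subset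
  have hu := (mem_sdiff.1 H.hu).1
  have hu' := (mem_sdiff.1 H.hu').1
  exact ⟨u, u', a₁, a₂, b₁, b₂, F₁, F₂, F₃, F₄, h _ hu _ hu' H.e, h _ (s (H.s₁ H.x₁.1)) _ hu H.e₁,
    h _ (s (H.s₂ H.x₂.1)) _ hu H.e₂, h _ (s (H.s₃ H.x₃.1)) _ hu' H.e₃,
    h _ (s (H.s₄ H.x₄.1)) _ hu' H.e₄, TRFx.xp h (H.s₁.trans s) H.x₁,
    TRFx.xp h (H.s₂.trans s) H.x₂, TRFx.xp h (H.s₃.trans s) H.x₃, TRFx.xp h (H.s₄.trans s) H.x₄,
    H.c₁, H.c₂, H.c₃, H.c₄, H.hu, H.hu', H.s₁, H.s₂, H.s₃, H.s₄, H.d₁₂, H.d₁₃, H.d₁₄, H.d₂₃,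
    H.d₂₄, H.d₃₄⟩

end Pool.Agent.P.MP_bb4f54_co.T4

end sTRF

section sFRC
/-! Step FRC. -/

set_option autoImplicit false
set_option linter.unusedSectionVars false

namespace Pool.Agent.P.MP_bb4f54_co.T4

open Finset
open Pool.Agent.P.MP_bb4f54_co.T3

theorem p_FRC (hT4M : S_T4M) (hRD1 : S_RD1) (hRD2 : S_RD2) :
    S_FRC := by
  classical
  obtain ⟨N, hN⟩ := hT4M
  refine ⟨N, fun V _ _ _ G _ hd => ?_⟩
  have cb : Cb G := fun v => by
    obtain ⟨a, b, c, h1, h2, h3, h⟩ := Finset.card_eq_three.1 (hd v)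
    refine ⟨a, b, c, h1, h2, h3, fun x => ?_⟩
    rw [← SimpleGraph.mem_neighborFinset, h]
    simp
  obtain ⟨v⟩ := ‹Nonempty V›
  obtain ⟨X, ⟨hne, e₁, e₂, hO⟩, hmin⟩ := Set.exists_min_image
    {X : Set V | X.Nonempty ∧ ∃ e₁ e₂, Out G X [e₁, e₂]} Set.ncard (Set.toFinite _)
    ⟨Set.univ, ⟨v, trivial⟩, (v, v), (v, v), fun _ _ _ h => (h trivial).elim⟩
  by_cases hX : X.ncard ≤ N
  · refine Or.inr ⟨X.toFinset, by simpa using hne, by rwa [← Set.ncard_eq_toFinset_card'], ?_⟩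
    refine (Finset.card_le_card (t := {e₁, e₂}) fun e he => ?_).trans Finset.card_le_two
    obtain ⟨h1, h2, h3⟩ := G.mem_interedges_iff.1 he
    simpa using hO e.1 (by simpa using h1) e.2 (by simpa using h2) h3
  have hm : ∀ Y ⊂ X, Y.Nonempty → ∀ f₁ f₂, ¬ Out G Y [f₁, f₂] := fun Y hY hn f₁ f₂ h =>
    (Set.ncard_lt_ncard hY (Set.toFinite _)).not_ge (hmin Y ⟨hn, f₁, f₂, h⟩)
  obtain ⟨x, hx, y, hy, xy, h⟩ := hRD1 G X e₁ e₂ cb hne hO hm
  have xy' : (⟨x, hx⟩ : X) ≠ ⟨y, hy⟩ := fun e => xy (congrArg Subtype.val e)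
  obtain ⟨c1, c2⟩ := hRD2 G X ⟨x, hx⟩ ⟨y, hy⟩ cb xy' hm h
  obtain ⟨a, ha, w, c, hc, hl⟩ := hN _ ⟨x, hx⟩ ⟨y, hy⟩ c1 c2
    (Or.inr ((SimpleGraph.edge_adj _ _ _ _).2 ⟨Or.inl ⟨rfl, rfl⟩, xy'⟩))
    (by rw [← Set.toFinset_card, ← Set.ncard_eq_toFinset_card']; omega)
  let f : (G.induce X ⊔ SimpleGraph.edge ⟨x, hx⟩ ⟨y, hy⟩).deleteEdges {s(⟨x, hx⟩, ⟨y, hy⟩)} →g G :=
    ⟨Subtype.val, fun {u w} h => by
      obtain ⟨h1 | h1, h2⟩ := SimpleGraph.deleteEdges_adj.1 h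
      · exact h1
      · obtain ⟨⟨rfl, rfl⟩ | ⟨rfl, rfl⟩, -⟩ := (SimpleGraph.edge_adj _ _ _ _).1 h1
        · exact (h2 rfl).elim
        · exact (h2 Sym2.eq_swap).elim⟩
  exact Or.inl ⟨a, ha, _, c.map f, hc.map Subtype.val_injective, by rw [c.length_map, hl]⟩

end Pool.Agent.P.MP_bb4f54_co.T4

end sFRC

section sSEA
/-! Step SEA. -/

set_option autoImplicit false
set_option linter.unusedSectionVars false

namespace Pool.Agent.P.MP_bb4f54_co.T4

open Finset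
open Pool.Agent.P.MP_bb4f54_co.T3

theorem p_SEA (hBRG : S_BRG) (hDIA4 : S_DIA4) (hCONN : S_CONN) (hSML : S_SML) (hGROW : S_GROW) (hHOC : S_HOC) (hNUM : S_NUM) (hWIN : S_WIN) (hTRF : S_TRF) :
    S_SEA := by
  classical
  intro K C
  have hc : 0 < 48 * (K + 1) := by omega
  obtain ⟨M₀, h0⟩ := hSML (48 * (K + 1))
  obtain ⟨M₁, h1⟩ := hGROW (48 * (K + 1)) hc
  obtain ⟨L₀, hL₀⟩ := hNUM (48 * (K + 1)) (M₀ + M₁) C
  obtain ⟨s, q, N, hd⟩ := hDIA4 K (4 * 4 ^ (2 * (M₀ + M₁) + 3)) (2 ^ L₀)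
  refine ⟨N, s, q, fun G G' A hG hN hA hG' => ?_⟩
  have h3 := (hBRG G).2 hG
  rcases hd G A (fun v => (h3.d3 v).le) hN ((hBRG G).1 A ▸ hA) with ⟨X, x0, x1, x2, x3⟩ | ⟨I, i1, i2⟩
  · left
    have hpos : 0 < X.card := lt_of_lt_of_le (Nat.two_pow_pos _) x1
    have p1 : 2 ^ Nat.log 2 X.card ≤ X.card := Nat.pow_log_le_self 2 (by omega)
    have p2 : X.card < 2 ^ (Nat.log 2 X.card + 1) := Nat.lt_pow_succ_log_self (by norm_num) _
    have p3 : L₀ < Nat.log 2 X.card + 1 :=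
      (Nat.pow_lt_pow_iff_right (by norm_num : 1 < 2)).1 (by omega)
    obtain ⟨β, ρ, k, rfl, hk, n1, n2, n3, n4, n5⟩ := hL₀ _ (Nat.le_of_lt_succ p3)
    have hC : Conn G X (2 ^ β) k := hk ▸ hCONN G X _ _ _ hc x2 p2 n1
    have hH := hHOC G X _ (M₀ + M₁) (2 ^ β) k _ h3 x2 hC (by omega)
      (fun Y a b c => (h0 G X x2 Y a b c).trans (by omega))
      (fun S A a b => by
        rw [← pow_mul, mul_comm β]
        exact h1 _ (by omega) G X S A (34 * β) x2 (n3.trans p1) a b) x3 (n4.trans p1)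
    obtain ⟨t1, t2⟩ := hTRF G G' X fun a ha b hb => hG' a (x0 ha) b (x0 hb)
    refine hWIN G' (2 ^ β) C ?_ n5 ((t2 _ _ _ hH).window (t1 _ _ hC) le_rfl n2)
    rcases β with _ | β
    · omega
    · exact ⟨2 ^ β, by ring⟩
  · exact Or.inr ⟨I, fun S hS => by rw [(hBRG G).1]; exact i1 S hS, i2⟩

end Pool.Agent.P.MP_bb4f54_co.T4

end sSEA

section sBR4
/-! Step BR4. -/

set_option autoImplicit false
set_option linter.unusedSectionVars false

namespace Pool.Agent.P.MP_bb4f54_co.T4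

open Finset
open Pool.Agent.P.MP_bb4f54_co.T3

theorem p_BR4 :
    S_BR4 := by
  intro V _ _ G
  have mk : ∀ {Y : Set V} {x y : V}, x ∈ Y → y ∉ Y → G.Adj x y → s(x, y) ∈ cut id (EG G) Y :=
    fun hx hy e => mem_cut.2 ⟨mk_mem_EG.2 e, _, _, rfl, hx, hy⟩
  refine ⟨fun Y L h => ?_, fun hc h => ⟨fun v => ?_, fun Y h1 h2 => ?_⟩⟩
  · refine le_trans (card_le_card (t := L.toFinset.image fun e => s(e.1, e.2)) fun e he => ?_)
      (card_image_le.trans L.toFinset_card_le)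
    obtain ⟨h1, x, y, rfl, hx, hy⟩ := mem_cut.1 he
    exact mem_image.2 ⟨(x, y), List.mem_toFinset.2 (h x hx y hy (mk_mem_EG.1 h1)), rfl⟩
  · obtain ⟨a, b, c, h1, h2, h3, h4⟩ := hc v
    refine card_eq_three.2 ⟨s(v, a), s(v, b), s(v, c), mt Sym2.congr_right.1 h1,
      mt Sym2.congr_right.1 h2, mt Sym2.congr_right.1 h3, ?_⟩
    ext e
    simp only [mem_insert, mem_singleton]
    constructor
    · intro he
      obtain ⟨h5, x, y, rfl, rfl, -⟩ := mem_cut.1 he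
      rcases (h4 y).1 (mk_mem_EG.1 h5) with rfl | rfl | rfl <;> simp
    · have : ∀ y, G.Adj v y → s(v, y) ∈ cut id (EG G) {v} := fun y e => mk rfl e.ne' e
      rintro (rfl | rfl | rfl) <;> exact this _ ((h4 _).2 (by simp))
  · have key : ∀ e₁ e₂ : V × V, ∃ x ∈ Y, ∃ y ∉ Y, G.Adj x y ∧ (x, y) ≠ e₁ ∧ (x, y) ≠ e₂ :=
      fun e₁ e₂ => by simpa [Out] using h Y h1 h2 e₁ e₂
    obtain ⟨v, -⟩ := h1
    obtain ⟨x₁, a₁, y₁, b₁, c₁, -⟩ := key (v, v) (v, v)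
    obtain ⟨x₂, a₂, y₂, b₂, c₂, d₂, -⟩ := key (x₁, y₁) (x₁, y₁)
    obtain ⟨x₃, a₃, y₃, b₃, c₃, d₃, d₄⟩ := key (x₁, y₁) (x₂, y₂)
    refine two_lt_card.2 ⟨_, mk a₁ b₁ c₁, _, mk a₂ b₂ c₂, _, mk a₃ b₃ c₃, ?_, ?_, ?_⟩ <;>
      rw [Ne, Sym2.eq_iff] <;> grind

end Pool.Agent.P.MP_bb4f54_co.T4

end sBR4

section sTCN
/-! Step TCN. -/

set_option autoImplicit false
set_option linter.unusedSectionVars false

namespace Pool.Agent.P.MP_bb4f54_co.T4

open Finset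
open Pool.Agent.P.MP_bb4f54_co.T3

theorem p_TCN :
    S_TCN := by
  intro V _ _ G A p q n m hG
  classical
  choose a b c _ _ _ h using hG
  have hE : ∀ (v : ℕ → V) (k : ℕ), (ES v 0 k).card ≤ k := fun v k => by
    unfold ES
    exact card_image_le.trans (by simp)
  have hT : (tch id (EG G) A).card ≤ 3 * A.ncard := by
    have hs : tch id (EG G) A ⊆
        A.toFinset.biUnion fun v => ({s(v, a v), s(v, b v), s(v, c v)} : Finset (Sym2 V)) := by
      intro e he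
      obtain ⟨he, v, hv, hA⟩ := mem_tch.1 he
      obtain ⟨x, rfl⟩ := Sym2.mem_iff_exists.1 hv
      refine mem_biUnion.2 ⟨v, Set.mem_toFinset.2 hA, ?_⟩
      rcases (h v x).1 (mk_mem_EG.1 he) with rfl | rfl | rfl <;> simp
    refine (card_le_card hs).trans ((card_biUnion_le_card_mul _ _ 3 fun v _ => card_le_three).trans ?_)
    rw [Set.ncard_eq_toFinset_card', mul_comm]
  unfold Om
  have h1 := card_union_le (tch id (EG G) A ∪ ES p 0 n) (ES q 0 m)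
  have h2 := card_union_le (tch id (EG G) A) (ES p 0 n)
  have h3 := hE p n
  have h4 := hE q m
  omega

end Pool.Agent.P.MP_bb4f54_co.T4

end sTCN

section sTCP
/-! Step TCP. -/

set_option autoImplicit false
set_option linter.unusedSectionVars false

namespace Pool.Agent.P.MP_bb4f54_co.T4

open Finset
open Pool.Agent.P.MP_bb4f54_co.T3

theorem p_TCP :
    S_TCP := by
  intro V _ Γ p n a Y h0 hE
  have key : ∀ i, i ≤ n → (a ∈ Y ↔ p i ∉ Y) → ∃ e ∈ cut id Γ Y, ∃ u ∈ e, u ∈ sg p 0 n := by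
    intro i
    induction i with
    | zero =>
      intro _ h
      exact ⟨s(a, p 0), (mem_cut_mk (en := id) rfl).2 ⟨h0, by tauto⟩, p 0, by simp,
        mem_sg le_rfl (Nat.zero_le _)⟩
    | succ i ih =>
      intro hi h
      by_cases h1 : a ∈ Y ↔ p i ∉ Y
      · exact ih (by omega) h1
      · exact ⟨s(p i, p (i + 1)), (mem_cut_mk (en := id) rfl).2
          ⟨hE (mem_ES.2 ⟨i, Nat.zero_le _, by omega, rfl⟩), by tauto⟩, p i, by simp,
          mem_sg (Nat.zero_le _) (by omega)⟩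
  refine ⟨key, fun a' h1 h2 => ?_⟩
  by_cases h3 : a ∈ Y ↔ p n ∉ Y
  · exact key n le_rfl h3
  · exact ⟨s(a', p n), (mem_cut_mk (en := id) rfl).2 ⟨h1, by tauto⟩, p n, by simp,
      mem_sg (Nat.zero_le _) le_rfl⟩

end Pool.Agent.P.MP_bb4f54_co.T4

end sTCP

section sBIG
/-! Step BIG. -/

set_option autoImplicit false
set_option linter.unusedSectionVars false

namespace Pool.Agent.P.MP_bb4f54_co.T4

open Finset
open Pool.Agent.P.MP_bb4f54_co.T3

theorem p_BIG (hBR4 : S_BR4) (hMAA : S_MAA) (hTCD : S_TCD) (hTCN : S_TCN) (hTCA : S_TCA) (hOCX : S_OCX) :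
    S_BIG := by
  classical
  obtain ⟨N, hN⟩ := hMAA
  refine ⟨N, fun {V} _ G x y X X' n m hc h2 m1 m2 hs hn hz t1 t2 b1 b2 => ?_⟩
  obtain ⟨p, q, v₁, v₂, w₁, w₂, oc, he⟩ := hOCX G x y X X' n m hc h2 m1 m2 hs hz t1 t2
  have hcoe : ((X' \ X).toFinset : Set V) = X' \ X := Set.coe_toFinset _
  have hcard : (X' \ X).ncard = (X' \ X).toFinset.card := Set.ncard_eq_toFinset_card' _
  have h1 := (hTCD G _ p q n m _ _ _ _ oc).1
  have h3 := hTCN G (X' \ X) p q n m hc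
  obtain ⟨_, _, _, _, c⟩ := m1
  refine hN G _ (X' \ X).toFinset (Om G (X' \ X) p q n m) ((hBR4 G).2 hc h2) (by omega)
    (fun e => (Set.mem_toFinset.1 (e ▸ mem_univ x : x ∈ (X' \ X).toFinset)).2 c.m.1)
    (by rw [hcoe]; exact (hBR4 G).1 _ _ oc.p4.out) h1 (fun e h => ?_) (hTCA G _ p q n m _ _ _ _ oc)
    (fun e h ⟨u, u1, u2⟩ => mem_union_left _ (mem_union_left _
      (mem_tch.2 ⟨h, u, u1, Set.mem_toFinset.1 u2⟩))) (by omega)
  rw [mem_EG, SimpleGraph.edgeSet_deleteEdges]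
  exact ⟨mem_EG.1 (h1 h), fun e' => he (Set.mem_singleton_iff.1 e' ▸ h)⟩

end Pool.Agent.P.MP_bb4f54_co.T4

end sBIG

section sT4M
/-! Step T4M. -/

set_option autoImplicit false
set_option linter.unusedSectionVars false

namespace Pool.Agent.P.MP_bb4f54_co.T4

open Finset
open Pool.Agent.P.MP_bb4f54_co.T3

theorem p_T4M (hSMA : S_SMA) (hGAP : S_GAP) (hBIG : S_BIG) :
    S_T4M := by
  obtain ⟨M, hM⟩ := hBIG
  obtain ⟨N, hN⟩ := hSMA M
  refine ⟨N, fun G x y hc h2 ha hn => ?_⟩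
  rcases hGAP G x y M hc h2 ha with h | ⟨X, X', n₁, n₂, a, b, c, d, e, f, g, i, j⟩
  · exact hN G x y hc h2 ha hn h
  · exact hM G x y X X' n₁ n₂ hc h2 a b c d e f g i j

end Pool.Agent.P.MP_bb4f54_co.T4

end sT4M
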