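import Pool.Agent.P.MP_bb4f54_co.T4.B1
import Pool.Agent.P.MP_bb4f54_co.T4.B2
import Pool.Agent.P.MP_bb4f54_co.T4.B3
import Pool.Agent.P.MP_bb4f54_co.T4.B4
import Pool.Agent.P.MP_bb4f54_co.T3.All

/-! All steps put together. -/

set_option autoImplicit false

namespace Pool.Agent.P.MP_bb4f54_co.T4

theorem q_CYC : S_CYC := p_CYC

theorem q_TPZ : S_TPZ := p_TPZ q_CYC

theorem q_A3C : S_A3C := p_A3C

theorem q_MNS : S_MNS := p_MNS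

theorem q_FAN : S_FAN := p_FAN

theorem q_NZ : S_NZ := p_NZ

theorem q_THV : S_THV := p_THV q_FAN q_NZ

theorem q_A3M : S_A3M := p_A3M q_MNS q_THV

theorem q_A3P : S_A3P := p_A3P q_A3C q_A3M

theorem q_SRG : S_SRG := p_SRG

theorem q_TH3 : S_TH3 := p_TH3

theorem q_D0 : S_D0 := p_D0 q_SRG q_TH3

theorem q_DE : S_DE := p_DE

theorem q_D1 : S_D1 := p_D1

theorem q_DA : S_DA := p_DA q_THV q_D1

theorem q_DB : S_DB := p_DB q_MNS q_D1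

theorem q_DPQ : S_DPQ := p_DPQ q_MNS q_D1 q_DA q_DB

theorem q_TW2 : S_TW2 := p_TW2

theorem q_DC2 : S_DC2 := p_DC2 q_NZ q_TW2

theorem q_DC4 : S_DC4 := p_DC4 q_MNS q_DA q_DB q_DPQ q_DC2

theorem q_SHP : S_SHP := p_SHP q_DA q_DB q_DPQ q_DC4

theorem q_DD1 : S_DD1 := p_DD1 q_DA

theorem q_DD2 : S_DD2 := p_DD2 q_THV

theorem q_DL : S_DL := p_DL q_MNS q_NZ q_D1 q_DPQ q_SHP q_DD1 q_DD2

theorem q_DG : S_DG := p_DG q_D1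

theorem q_D4 : S_D4 := p_D4 q_FAN q_D1 q_DG

theorem q_D5a : S_D5a := p_D5a q_D1

theorem q_D5 : S_D5 := p_D5 q_FAN q_D5a

theorem q_DM : S_DM := p_DM q_MNS q_D1 q_DL q_D4 q_D5

theorem q_DRP : S_DRP := p_DRP q_A3P q_D0 q_DE q_DM

theorem q_LK4 : S_LK4 := p_LK4

theorem q_DEX : S_DEX := p_DEX q_TW2 q_LK4

theorem q_TPC : S_TPC := p_TPC

theorem q_GRP : S_GRP := p_GRP q_DRP q_LK4 q_DEX q_TPC

theorem q_END : S_END := p_END q_A3P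

theorem q_BEZ : S_BEZ := p_BEZ

theorem q_BLK : S_BLK := p_BLK q_BEZ

theorem q_AR4 : S_AR4 := p_AR4 q_BLK

theorem q_SQ4 : S_SQ4 := p_SQ4

theorem q_MEM : S_MEM := p_MEM

theorem q_SEQ : S_SEQ := p_SEQ q_MEM

theorem q_SMA : S_SMA := p_SMA q_TPZ q_GRP q_END q_AR4 q_SQ4 q_SEQ

theorem q_CHN : S_CHN := p_CHN

theorem q_TPS : S_TPS := p_TPS q_MEM q_LK4

theorem q_GAP : S_GAP := p_GAP q_MEM q_CHN q_TPS

theorem q_BR4 : S_BR4 := p_BR4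

theorem q_DIA4 : S_DIA4 := p_DIA4 T3.q_OT T3.q_POT

theorem q_TRF : S_TRF := p_TRF

theorem q_SEA : S_SEA := p_SEA T3.q_BRG q_DIA4 T3.q_CONN T3.q_SML T3.q_GROW T3.q_HOC T3.q_NUM T3.q_WIN q_TRF

theorem q_PRA : S_PRA := p_PRA T3.q_EW T3.q_WLK T3.q_MULT T3.q_ARI0 T3.q_ARI1

theorem q_MAA : S_MAA := p_MAA q_SEA T3.q_INT T3.q_ITER T3.q_MAJ q_PRA T3.q_SQ

theorem q_TCD : S_TCD := p_TCD

theorem q_TCN : S_TCN := p_TCN

theorem q_TCP : S_TCP := p_TCP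

theorem q_TC3 : S_TC3 := p_TC3 q_TCP

theorem q_TCA : S_TCA := p_TCA q_TCD q_TCP q_TC3

theorem q_OCX : S_OCX := p_OCX q_MEM q_LK4

theorem q_BIG : S_BIG := p_BIG q_BR4 q_MAA q_TCD q_TCN q_TCA q_OCX

theorem q_T4M : S_T4M := p_T4M q_SMA q_GAP q_BIG

theorem q_RD1 : S_RD1 := p_RD1

theorem q_RD2 : S_RD2 := p_RD2

theorem q_FRC : S_FRC := p_FRC q_T4M q_RD1 q_RD2

end Pool.Agent.P.MP_bb4f54_co.T4
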