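import Pool.Agent.P.MP_bb4f54_co.T4.IfaceA

section sFAN
/-! Step FAN. -/

set_option autoImplicit false
set_option linter.unusedSectionVars false

namespace Pool.Agent.P.MP_bb4f54_co.T4

namespace FANx

open Pool.Agent.P.MP_a3bdf6_co

variable {V : Type} {G : SimpleGraph V} {T E L : Set V} {k : V}

/-- The edges into `T` minus `k`, with two new sinks for `E` and `L`. -/
def R (G : SimpleGraph V) (T E L : Set V) (k : V) : V ⊕ Bool → V ⊕ Bool → Prop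
  | .inl x, .inl y => G.Adj x y ∧ y ∈ T ∧ y ≠ k
  | .inl x, .inr true => x ∈ E
  | .inl x, .inr false => x ∈ L
  | .inr _, _ => False

lemma conv {l : List (V ⊕ Bool)} {u w : V ⊕ Bool} (h : Wk (R G T E L k) u w l) :
    ∀ a b, u = .inl a → w = .inr b → a ∈ T → a ≠ k → ∃ e, R G T E L k (.inl e) (.inr b) ∧
      a ∈ RS G {x | Sum.inl x ∈ l ∧ x ∈ T ∧ x ≠ k} e := by
  induction h with
  | single => rintro a b rfl h; cases h
  | @cons u u' w l h1 h2 ih =>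
    rintro a b rfl rfl ha hk
    rcases u' with a' | b'
    · obtain ⟨e, he, hr⟩ := ih a' b rfl rfl h1.2.1 h1.2.2
      refine ⟨e, he, RS.step (RS.mono ?_ hr) h1.1.symm ⟨List.mem_cons_self, ha, hk⟩⟩
      exact fun x hx => ⟨List.mem_cons_of_mem _ hx.1, hx.2⟩
    · cases h2 with
      | single => exact ⟨a, h1, RS.self ⟨List.mem_cons_self, ha, hk⟩⟩
      | cons h3 _ => exact h3.elim

lemma back {U : Set V} {N : Set (V ⊕ Bool)} (hU : U ⊆ T)
    (hN : ∀ v ∈ U, v ≠ k → Sum.inl v ∈ N) :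
    RS G U k ⊆ {x | x = k ∨ ∃ a, a ∈ T ∧ G.Adj k a ∧ Rch (R G T E L k) N (.inl a) (.inl x)} := by
  refine RS.closed (Or.inl rfl) fun c hc b hb e => ?_
  by_cases hbk : b = k
  · exact Or.inl hbk
  rcases hc with rfl | ⟨a, h1, h2, h3⟩
  · exact Or.inr ⟨b, hU hb, e, Rch.refl (hN b hb hbk)⟩
  · exact Or.inr ⟨a, h1, h2, h3.tail ⟨e, hU hb, hbk⟩ (hN b hb hbk)⟩

/-- A path from `k` along a walk. -/
lemma path {l : List (V ⊕ Bool)} {a : V} {b : Bool} (h : Wk (R G T E L k) (.inl a) (.inr b) l)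
    (ha : a ∈ T) (hk : G.Adj k a) : ∃ e n, R G T E L k (.inl e) (.inr b) ∧
      PL G (insert k {x | Sum.inl x ∈ l ∧ x ∈ T ∧ x ≠ k}) k e n := by
  obtain ⟨e, he, n, hp⟩ := conv h a b rfl rfl ha hk.ne'
  exact ⟨e, _, he, hp.symm.cons hk fun h => h.2.2 rfl⟩

/-- The case of a separating vertex. -/
lemma cut {z : V} (hG : Cb G) (hk : k ∈ T) (hT : T ⊆ RS G T k) (hE : E ⊆ T) (hL : L ⊆ T)
    (nE : E.Nonempty) (nL : L.Nonempty) (hd : Disjoint E L)
    (ho : ∀ x, x ∈ E ∨ x ∈ L → ∃ y, y ∉ T ∧ G.Adj x y) (hz : z ∈ T) (hzk : k ≠ z)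
    (h0 : ∀ x ∈ RS G (T \ {z}) k, x ∉ E ∧ x ∉ L) :
    ∃ Y ⊆ T, k ∈ Y ∧ Le1 G Y T ∧ ∀ x ∈ Y, x ∉ E ∧ x ∉ L := by
  have hs : RS G (T \ {z}) k ⊆ T := fun x hx => (RS.sub hx).1
  have hk0 : k ∈ RS G (T \ {z}) k := RS.self ⟨hk, hzk⟩
  have hout : ∀ x ∈ RS G (T \ {z}) k, ∀ y ∈ T, y ∉ RS G (T \ {z}) k → G.Adj x y → y = z :=
    fun x hx y hy hy' e => by_contra fun hyz => hy' (RS.step hx e ⟨hy, hyz⟩)
  by_cases h1 : ∃ x ∈ RS G (T \ {z}) k, ∃ x' ∈ RS G (T \ {z}) k, G.Adj z x ∧ G.Adj z x' ∧ x ≠ x'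
  · obtain ⟨x, hx, x', hx', a, a', hne⟩ := h1
    obtain ⟨c, -, -, -, hc⟩ := hG.third a a' hne
    have hle : ∀ u ∈ insert z (RS G (T \ {z}) k), ∀ y ∈ T, y ∉ insert z (RS G (T \ {z}) k) →
        G.Adj u y → (u, y) = (z, c) := by
      rintro u (rfl | hu) y hy hy' e
      · rcases hc y e with rfl | rfl | rfl
        · exact absurd (Or.inr hx) hy'
        · exact absurd (Or.inr hx') hy'
        · rfl
      · exact absurd (Or.inl (hout u hu y hy (fun h => hy' (Or.inr h)) e)) hy'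
    by_cases hm : z ∈ E ∨ z ∈ L
    · exfalso
      obtain ⟨y, hy, e⟩ := ho z hm
      have hcT : c ∉ T := by
        rcases hc y e with rfl | rfl | rfl
        · exact absurd (hs hx) hy
        · exact absurd (hs hx') hy
        · exact hy
      have hall : T ⊆ insert z (RS G (T \ {z}) k) := hT.trans <|
        RS.closed (Or.inr hk0) fun u hu b hb e' => by_contra fun hb' =>
          hcT ((Prod.mk.inj (hle u hu b hb hb' e')).2 ▸ hb)
      obtain ⟨e₁, he₁⟩ := nE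
      obtain ⟨l₁, hl₁⟩ := nL
      rcases hall (hE he₁) with rfl | h
      · rcases hall (hL hl₁) with rfl | h
        · exact Set.disjoint_left.1 hd he₁ hl₁
        · exact (h0 _ h).2 hl₁
      · exact (h0 _ h).1 he₁
    · refine ⟨insert z (RS G (T \ {z}) k), Set.insert_subset hz hs, Or.inr hk0, ⟨_, hle⟩, ?_⟩
      rintro u (rfl | hu)
      · exact not_or.1 hm
      · exact h0 u hu
  · refine ⟨_, hs, hk0, ?_, h0⟩
    by_cases h2 : ∃ x ∈ RS G (T \ {z}) k, G.Adj z x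
    · obtain ⟨x, hx, a⟩ := h2
      refine ⟨(x, z), fun u hu y hy hy' e => ?_⟩
      obtain rfl := hout u hu y hy hy' e
      by_contra hne
      exact h1 ⟨u, hu, x, hx, e.symm, a, fun h => hne (by rw [h])⟩
    · refine ⟨(k, k), fun u hu y hy hy' e => ?_⟩
      obtain rfl := hout u hu y hy hy' e
      exact absurd ⟨u, hu, e.symm⟩ h2

end FANx

open Pool.Agent.P.MP_a3bdf6_co FANx in
theorem p_FAN :
    S_FAN := by
  classical
  intro V _ G T E L k hG hk hT hE hL nE nL hd ho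
  by_cases hkE : k ∈ E
  · obtain ⟨l, hl⟩ := nL
    obtain ⟨n, hp⟩ := hT (hL hl)
    exact Or.inl ⟨k, hkE, l, hl, {k}, T, 0, n, Set.singleton_subset_iff.2 hk, le_rfl,
      PL.single k, hp, fun x hx _ => hx⟩
  by_cases hkL : k ∈ L
  · obtain ⟨e, he⟩ := nE
    obtain ⟨n, hp⟩ := hT (hE he)
    exact Or.inl ⟨e, he, k, hkL, T, {k}, n, 0, le_rfl, Set.singleton_subset_iff.2 hk, hp,
      PL.single k, fun x _ hx => hx⟩
  let A : Finset (V ⊕ Bool) := (Finset.univ.filter fun a => a ∈ T ∧ G.Adj k a).image Sum.inl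
  let B : Finset (V ⊕ Bool) := {.inr true, .inr false}
  have hA : ∀ u, u ∈ A ↔ ∃ a, (a ∈ T ∧ G.Adj k a) ∧ Sum.inl a = u := by simp [A]
  by_cases h : ∀ Y : Finset (V ⊕ Bool), Y.card < 2 →
      ∃ a ∈ A, ∃ b ∈ B, Rch (R G T E L k) {z | z ∉ Y} a b
  · left
    obtain ⟨S, hS, hc⟩ := menger _ A B 2 h
    have hB : B.card ≤ S.card := hc ▸ Finset.card_le_two
    obtain ⟨P, hP, a, ha, w⟩ := hS.cover_end hB (b := .inr true) (by simp [B])
    obtain ⟨P', hP', a', ha', w'⟩ := hS.cover_end hB (b := .inr false) (by simp [B])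
    obtain ⟨a, ⟨h1, h2⟩, rfl⟩ := (hA _).1 ha
    obtain ⟨a', ⟨h1', h2'⟩, rfl⟩ := (hA _).1 ha'
    obtain ⟨e, n, he, hp⟩ := path w h1 h2
    obtain ⟨l, m, hl, hq⟩ := path w' h1' h2'
    refine ⟨e, he, l, hl, _, _, n, m, Set.insert_subset hk fun x hx => hx.2.1,
      Set.insert_subset hk fun x hx => hx.2.1, hp, hq, ?_⟩
    rintro x (rfl | hx) hx'
    · rfl
    rcases hx' with rfl | hx'
    · rfl
    have := hS.2 P hP P' hP' _ hx.1 hx'.1
    subst this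
    simpa using (w.ends_unique w').2
  push Not at h
  obtain ⟨Y, hY, h⟩ := h
  obtain ⟨w, hw⟩ : ∃ w : V ⊕ Bool, Y ⊆ {w} := Finset.card_le_one_iff_subset_singleton.1 (by omega)
  have sep : ∀ U ⊆ T, ∀ b : Bool, (∀ v ∈ U, v ≠ k → Sum.inl v ≠ w) → Sum.inr b ≠ w →
      ∀ x ∈ RS G U k, ¬ R G T E L k (.inl x) (.inr b) := by
    intro U hU b h1 h2 x hx hr
    have hn : ∀ v, v ≠ w → v ∈ {z | z ∉ Y} := fun v hv hv' => hv (by simpa using hw hv')
    rcases back (E := E) (L := L) (N := {z | z ∉ Y}) hU (fun v a c => hn _ (h1 v a c)) hx with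
      rfl | ⟨a, k1, k2, k3⟩
    · cases b
      · exact hkL hr
      · exact hkE hr
    · exact h _ ((hA _).2 ⟨a, ⟨k1, k2⟩, rfl⟩) (.inr b) (by cases b <;> simp [B])
        (k3.tail hr (hn _ h2))
  obtain ⟨e, he⟩ := id nE
  obtain ⟨l, hl⟩ := id nL
  rcases w with z | b
  · by_cases hz : z ∈ T ∧ k ≠ z
    · refine Or.inr (cut hG hk hT hE hL nE nL hd ho hz.1 hz.2 fun x hx => ?_)
      have := fun b => sep (T \ {z}) Set.sdiff_subset b (fun v hv _ e => hv.2 (Sum.inl.inj e))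
        (by simp) x hx
      exact ⟨this true, this false⟩
    · refine absurd he (sep T le_rfl true (fun v hv hvk e => hz ?_) (by simp) e (hT (hE he)))
      obtain rfl := Sum.inl.inj e
      exact ⟨hv, hvk.symm⟩
  · cases b
    · exact absurd he (sep T le_rfl true (by simp) (by simp) e (hT (hE he)))
    · exact absurd hl (sep T le_rfl false (by simp) (by simp) l (hT (hL hl)))

end Pool.Agent.P.MP_bb4f54_co.T4

end sFAN

section sSHP
/-! Step SHP. -/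

set_option autoImplicit false
set_option linter.unusedSectionVars false

namespace Pool.Agent.P.MP_bb4f54_co.T4



namespace SHPx

theorem ports (hDA : S_DA) {V : Type} [Fintype V] {G : SimpleGraph V} {R : Type} [CommRing R]
    {W O N : Set V} {p q : ℕ → V} {a b : ℕ} (c : DC G R W O p q a b) (hN : N ⊆ O) (hB : Big G N)
    (h : ∃ k ∈ N, ∃ i, i ≤ a ∧ G.Adj (p i) k) :
    (∃ k ∈ N, ∃ i, i ≤ a ∧ G.Adj (p i) k ∧
      ∀ x ∈ N, ∀ u, u ≤ a → G.Adj x (p u) → (x, p u) = (k, p i)) ∨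
    ∃ k ∈ N, ∃ k' ∈ N, ∃ i i', i < i' ∧ i' ≤ a ∧ G.Adj (p i) k ∧ G.Adj (p i') k' ∧
      ∀ x ∈ N, ∀ u, u ≤ a → G.Adj x (p u) → (x, p u) = (k, p i) ∨ (x, p u) = (k', p i') := by
  have pn : ∀ {u}, u ≤ a → p u ∉ N := fun h h' => c.pno h (hN h')
  have eq : ∀ x ∈ N, ∀ y ∈ N, ∀ u, u ≤ a → G.Adj (p u) x → G.Adj (p u) y → x = y :=
    fun x hx y hy u ua e e' => c.up u ua x y e e' (Or.inl (hN hx)) (Or.inl (hN hy))
  have three : ∀ x ∈ N, ∀ y ∈ N, ∀ z ∈ N, ∀ u v w, u < v → v < w → w ≤ a → G.Adj (p u) x →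
      G.Adj (p v) y → G.Adj (p w) z → False := by
    intro x hx y hy z hz u v w uv vw wa e1 e2 e3
    refine hDA G R W O p q a b c N ∅ ∅ y x z u v w 1 1 hN hB hy hx hz ?_ uv vw wa e2
      (Set.empty_subset _) (Set.empty_subset _) (Set.disjoint_empty _) (Rg.edge e1.symm)
      (Rg.edge e3.symm)
    rintro rfl
    have := c.sp.inj u w (by omega) wa (hB.one x hx _ _ (pn (by omega)) (pn wa) e1.symm e3.symm)
    omega
  have two : ∀ k ∈ N, ∀ k' ∈ N, ∀ i i', i < i' → i' ≤ a → G.Adj (p i) k → G.Adj (p i') k' →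
      ∀ x ∈ N, ∀ u, u ≤ a → G.Adj x (p u) → (x, p u) = (k, p i) ∨ (x, p u) = (k', p i') := by
    intro k hk k' hk' i i' ii ia e e' x hx u ua e''
    rcases lt_trichotomy u i with h | rfl | h
    · exact (three x hx k hk k' hk' u i i' h ii ia e''.symm e e').elim
    · exact Or.inl (by rw [eq x hx k hk u ua e''.symm e])
    rcases lt_trichotomy u i' with h' | rfl | h'
    · exact (three k hk x hx k' hk' i u i' h h' ia e e''.symm e').elim
    · exact Or.inr (by rw [eq x hx k' hk' u ua e''.symm e'])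
    · exact (three k hk k' hk' x hx i i' u ii h' ua e e' e''.symm).elim
  obtain ⟨k, hk, i, ia, e⟩ := h
  by_cases h : ∃ x ∈ N, ∃ u, u ≤ a ∧ G.Adj x (p u) ∧ u ≠ i
  · obtain ⟨x, hx, u, ua, e', ui⟩ := h
    rcases lt_or_gt_of_ne ui with h | h
    · exact Or.inr ⟨x, hx, k, hk, u, i, h, ia, e'.symm, e, two x hx k hk u i h ia e'.symm e⟩
    · exact Or.inr ⟨k, hk, x, hx, i, u, h, ua, e, e'.symm, two k hk x hx i u h ua e e'.symm⟩
  · refine Or.inl ⟨k, hk, i, ia, e, fun x hx u ua e' => ?_⟩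
    obtain rfl : u = i := by
      by_contra ui
      exact h ⟨x, hx, u, ua, e', ui⟩
    rw [eq x hx k hk u ua e'.symm e]

end SHPx

theorem p_SHP (hDA : S_DA) (hDB : S_DB) (hDPQ : S_DPQ) (hDC4 : S_DC4) :
    S_SHP := by
  intro V _ G R _ W O p q a b c hA hD N hM hB
  obtain ⟨g, hg⟩ := hM.le
  have out : ∀ L : List (V × V), (∀ x ∈ N, ∀ y ∈ O, y ∉ N → G.Adj x y → (x, y) ∈ L) →
      (∀ x ∈ N, ∀ u, u ≤ a → G.Adj x (p u) → (x, p u) ∈ L) →
      (∀ x ∈ N, ∀ u, u ≤ b → G.Adj x (q u) → (x, q u) ∈ L) → Out G N L := by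
    intro L h1 h2 h3 x hx y hy e
    rcases c.clo x (hM.sub hx) y e with h | ⟨u, ua, rfl⟩ | ⟨u, ua, rfl⟩
    · exact h1 x hx y h hy e
    · exact h2 x hx u ua e
    · exact h3 x hx u ua e
  rcases SHPx.ports hDA c hM.sub hB (hDPQ G R W O p q a b c hA N hM) with
    ⟨k, hk, i, ia, e, h⟩ | ⟨k, hk, k', hk', i, i', ii, ia, e, e', h⟩ <;>
  rcases SHPx.ports hDA c.swap hM.sub hB (hDPQ G R W O q p b a c.swap hA N hM) with
    ⟨m, hm, j, jb, f, h'⟩ | ⟨m, hm, m', hm', j, j', jj, jb, f, f', h'⟩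
  · refine (hDB G R W O p q a b c hA N hM hB (k, p i) (m, q j) g (out _ ?_ ?_ ?_)).elim
    · intro x hx y hy hy' e
      simp [hg x hx y hy hy' e]
    · intro x hx u ua e
      simp [h x hx u ua e]
    · intro x hx u ua e
      simp [h' x hx u ua e]
  · refine (hDC4 G R W O q p b a c.swap hA hD N hM hB m m' k j j' i g hm hm' hk jj jb ia f f' e
      (out _ ?_ ?_ ?_)).elim
    · intro x hx y hy hy' e
      simp [hg x hx y hy hy' e]
    · intro x hx u ua e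
      simp [h x hx u ua e]
    · intro x hx u ua e
      rcases h' x hx u ua e with h1 | h1 <;> simp [h1]
  · refine (hDC4 G R W O p q a b c hA hD N hM hB k k' m i i' j g hk hk' hm ii ia jb e e' f
      (out _ ?_ ?_ ?_)).elim
    · intro x hx y hy hy' e
      simp [hg x hx y hy hy' e]
    · intro x hx u ua e
      rcases h x hx u ua e with h1 | h1 <;> simp [h1]
    · intro x hx u ua e
      simp [h' x hx u ua e]
  · by_cases hz : ∃ z ∈ N, ∃ z' ∈ O, z' ∉ N ∧ G.Adj z z'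
    · obtain ⟨z, hz, z', h1⟩ := hz
      exact ⟨k, k', m, m', z, z', i, i', j, j', ⟨hk, hk', hm, hm', hz⟩, h1, ⟨ii, ia⟩, ⟨jj, jb⟩,
        ⟨e, e'⟩, f, f'⟩
    refine (hDC4 G R W O p q a b c hA hD N hM hB k k' m i i' j (m', q j') hk hk' hm ii ia
      (by omega) e e' f (out _ ?_ ?_ ?_)).elim
    · intro x hx y hy hy' e
      exact (hz ⟨x, hx, y, hy, hy', e⟩).elim
    · intro x hx u ua e
      rcases h x hx u ua e with h1 | h1 <;> simp [h1]
    · intro x hx u ua e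
      rcases h' x hx u ua e with h1 | h1 <;> simp [h1]

end Pool.Agent.P.MP_bb4f54_co.T4

end sSHP

section sD0
/-! Step D0. -/

set_option autoImplicit false
set_option linter.unusedSectionVars false

namespace Pool.Agent.P.MP_bb4f54_co.T4

namespace D0x

variable {V : Type} {G : SimpleGraph V} {R : Type} [CommRing R] {W O : Set V} {p q : ℕ → V}
  {a b n : ℕ} {a₁ a₁' a₂ a₂' b₁ b₁' b₂ b₂' : V}

theorem exDS (h : DRt G W a₁ a₂ b₁ b₂ n) :
    ∃ p q a b, DS G W p q a b a₁ a₂ b₁ b₂ ∧ n = a + b := by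
  obtain ⟨U₁, U₂, n₁, n₂, s1, s2, d, e, ⟨h1, h2⟩ | ⟨h1, h2⟩⟩ := h <;>
    obtain ⟨p, c1, c2, c3, c4⟩ := h1.str <;> obtain ⟨q, d1, d2, d3, d4⟩ := h2.str
  · exact ⟨p, q, _, _, ⟨c1, d1, c4.trans s1, d4.trans s2, d.mono c4 d4, c2, d2, .inl ⟨c3, d3⟩⟩, e⟩
  · exact ⟨p, q, _, _, ⟨c1, d1, c4.trans s1, d4.trans s2, d.mono c4 d4, c2, d2, .inr ⟨c3, d3⟩⟩, e⟩

theorem swapP (h : P4 G W a₁ a₁' a₂ a₂' b₁ b₁' b₂ b₂') : P4 G W a₂ a₂' a₁ a₁' b₁ b₁' b₂ b₂' :=
  ⟨⟨h.m.2.1, h.m.1, h.m.2.2⟩, ⟨h.n.2.1, h.n.1, h.n.2.2⟩, ⟨h.adj.2.1, h.adj.1, h.adj.2.2⟩,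
    ⟨h.ne.2.2.1, h.ne.2.2.2, h.ne.1, h.ne.2.1⟩, h.out.mono fun x _ y _ _ e => by
      simp only [List.mem_cons] at e ⊢
      tauto⟩

theorem half (hSRG : S_SRG) (hTH3 : S_TH3) (cb : Cb G) (hP : P4 G W a₁ a₁' a₂ a₂' b₁ b₁' b₂ b₂')
    (h : DS G W p q a b a₁ a₂ b₁ b₂) (hO : O = W \ (sg p 0 a ∪ sg q 0 b))
    (hm : ∀ m, DRt G W a₁ a₂ b₁ b₂ m → a + b ≤ m ∧ (m : R) = a + b) :
    (∀ i j n, i < j → j ≤ a → Rg G O (p i) (p j) n → (n : R) + i = j ∧ j ≤ n + i) ∧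
    (∀ i, i ≤ a → ∃ k, G.Adj (p i) k ∧ (k ∈ O ∨ k ∈ sg q 0 b)) ∧
    ∀ i, i ≤ a → ∀ k k', G.Adj (p i) k → G.Adj (p i) k' → (k ∈ O ∨ k ∈ sg q 0 b) →
      (k' ∈ O ∨ k' ∈ sg q 0 b) → k = k' := by
  subst hO
  have rp : ∀ i j n, i < j → j ≤ a → Rg G (W \ (sg p 0 a ∪ sg q 0 b)) (p i) (p j) n →
      (n : R) + i = j ∧ j ≤ n + i := by
    intro i j n hij hj hr
    obtain ⟨h1, h2⟩ := hm _ ((hSRG G W p q a b _ _ _ _ h).2.1 i j n hij hj hr)
    push_cast [Nat.cast_sub hj] at h2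
    exact ⟨by linear_combination h2, by omega⟩
  have th := hTH3 G W p q a b _ _ _ _ _ _ _ _ cb hP h fun i j hij hj e => by
    have := (rp i j 1 hij hj (Rg.edge e)).2
    omega
  have mem : ∀ k, k ∈ W \ sg p 0 a ↔ k ∈ W \ (sg p 0 a ∪ sg q 0 b) ∨ k ∈ sg q 0 b := by
    intro k
    constructor
    · rintro ⟨h1, h2⟩
      by_cases h3 : k ∈ sg q 0 b
      · exact .inr h3
      · exact .inl ⟨h1, fun e => e.elim h2 h3⟩
    · rintro (⟨h1, h2⟩ | h1)
      · exact ⟨h1, fun e => h2 (.inl e)⟩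
      · exact ⟨h.qw h1, Set.disjoint_right.1 h.d h1⟩
  refine ⟨rp, fun i hi => ?_, fun i hi k k' e e' m m' =>
    (th i hi).2 k ((mem k).2 m) k' ((mem k').2 m') e e'⟩
  obtain ⟨k, h1, h2⟩ := (th i hi).1
  exact ⟨k, h2, (mem k).1 h1⟩

end D0x

open D0x in
theorem p_D0 (hSRG : S_SRG) (hTH3 : S_TH3) :
    S_D0 := by
  classical
  intro V _ G R _ W a₁ a₁' a₂ a₂' b₁ b₁' b₂ b₂' cb no2 n4 h4 hP hex heq
  obtain ⟨p, q, a, b, h, e⟩ := exDS (Nat.find_spec hex)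
  have hm : ∀ m, DRt G W a₁ a₂ b₁ b₂ m → a + b ≤ m ∧ (m : R) = a + b := fun m hm =>
    ⟨e ▸ Nat.find_min' hex hm, by rw [heq m _ hm (Nat.find_spec hex), e, Nat.cast_add]⟩
  obtain ⟨rp, tp, up⟩ := half hSRG hTH3 cb hP h rfl hm
  obtain ⟨rq, tq, uq⟩ := half (R := R) (O := W \ (sg p 0 a ∪ sg q 0 b)) hSRG hTH3 cb (swapP hP)
    h.swap (by rw [Set.union_comm]) fun m hm' => by
      obtain ⟨h1, h2⟩ := hm m hm'.swapL
      exact ⟨by omega, by rw [h2, add_comm]⟩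
  refine ⟨p, q, a, b, cb, no2.mono Set.diff_subset, h4, h.sp, h.sq, Set.diff_subset, h.pw, h.qw,
    h.d, Set.disjoint_left.2 fun x hx hx' => hx'.2 (.inl hx),
    Set.disjoint_left.2 fun x hx hx' => hx'.2 (.inr hx), n4, ?_, tp, tq, up, uq, rp, rq, ?_⟩
  · intro x hx y hxy
    by_cases hy : y ∈ W
    · by_cases h1 : y ∈ sg p 0 a ∪ sg q 0 b
      · rcases h1 with ⟨k, -, k2, k3⟩ | ⟨k, -, k2, k3⟩
        exacts [.inr (.inl ⟨k, k2, k3⟩), .inr (.inr ⟨k, k2, k3⟩)]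
      · exact .inl ⟨hy, h1⟩
    · exfalso
      have m1 : p 0 ∈ sg p 0 a := mem_sg le_rfl (Nat.zero_le _)
      have m2 : p a ∈ sg p 0 a := mem_sg (Nat.zero_le _) le_rfl
      have m3 : q 0 ∈ sg q 0 b := mem_sg le_rfl (Nat.zero_le _)
      have m4 : q b ∈ sg q 0 b := mem_sg (Nat.zero_le _) le_rfl
      have ho := hP.out x hx.1 y hy hxy
      simp only [List.mem_cons, Prod.mk.injEq, List.not_mem_nil, or_false] at ho
      apply hx.2
      rcases ho with ⟨e, -⟩ | ⟨e, -⟩ | ⟨e, -⟩ | ⟨e, -⟩ <;> rw [e]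
      · exact .inl (h.p0 ▸ m1)
      · exact .inr (h.q0 ▸ m3)
      · exact h.en.elim (fun t => .inl (t.1 ▸ m2)) fun t => .inr (t.2 ▸ m4)
      · exact h.en.elim (fun t => .inr (t.2 ▸ m4)) fun t => .inl (t.1 ▸ m2)
  · intro i j i' j' U U' n n' c1 c2 c3 c4 c5 c6 c7 c8 c9
    obtain ⟨h1, h2⟩ := hm _
      ((hSRG G W p q a b _ _ _ _ h).2.2 i j i' j' U U' n n' c1 c2 c3 c4 c5 c6 c7 c8 c9)
    push_cast [Nat.cast_sub c2, Nat.cast_sub c4] at h2
    exact ⟨by linear_combination h2, by omega⟩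

end Pool.Agent.P.MP_bb4f54_co.T4

end sD0

section sTH3
/-! Step TH3. -/

set_option autoImplicit false
set_option linter.unusedSectionVars false

namespace Pool.Agent.P.MP_bb4f54_co.T4

namespace TH3x

theorem core {V : Type} {G : SimpleGraph V} {W : Set V} {p : ℕ → V} {a : ℕ} {s' e' : V}
    (cb : Cb G) (sp : Str G p a) (pw : sg p 0 a ⊆ W) (hs : s' ∉ W) (he : e' ∉ W)
    (as : G.Adj (p 0) s') (ae : G.Adj (p a) e') (ne : (p 0, s') ≠ (p a, e'))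
    (out : ∀ i, i ≤ a → ∀ y, y ∉ W → G.Adj (p i) y → (p i, y) = (p 0, s') ∨ (p i, y) = (p a, e'))
    (ch : ∀ i j, i < j → j ≤ a → G.Adj (p i) (p j) → j = i + 1) (i : ℕ) (hi : i ≤ a) :
    (∃ k ∈ W \ sg p 0 a, G.Adj (p i) k) ∧
      ∀ k ∈ W \ sg p 0 a, ∀ k' ∈ W \ sg p 0 a, G.Adj (p i) k → G.Adj (p i) k' → k = k' := by
  have mw : ∀ j, j ≤ a → p j ∈ sg p 0 a := fun j hj => mem_sg (Nat.zero_le _) hj
  obtain ⟨s, s1, s2⟩ : ∃ s, G.Adj (p i) s ∧ ((i = 0 ∧ s = s') ∨ ∃ j, i = j + 1 ∧ s = p j) := by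
    rcases i with _ | j
    · exact ⟨s', as, .inl ⟨rfl, rfl⟩⟩
    · exact ⟨p j, (sp.adj j hi).symm, .inr ⟨j, rfl, rfl⟩⟩
  obtain ⟨t, t1, t2⟩ : ∃ t, G.Adj (p i) t ∧ ((i = a ∧ t = e') ∨ (i < a ∧ t = p (i + 1))) := by
    rcases hi.eq_or_lt with h | h
    · exact ⟨e', h ▸ ae, .inl ⟨h, rfl⟩⟩
    · exact ⟨_, sp.adj i h, .inr ⟨h, rfl⟩⟩
  have st : s ≠ t := by
    rintro rfl
    rcases s2 with ⟨h1, h2⟩ | ⟨j, h1, h2⟩ <;> rcases t2 with ⟨h3, h4⟩ | ⟨h3, h4⟩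
    · exact ne (by rw [← h3, h1, ← h2, h4])
    · exact hs (h2 ▸ h4 ▸ pw (mw _ h3))
    · exact he (h4 ▸ h2 ▸ pw (mw _ (by omega)))
    · have := sp.inj j (i + 1) (by omega) h3 (h2.symm.trans h4)
      omega
  have sn : s ∉ W \ sg p 0 a := fun h => by
    rcases s2 with ⟨-, h2⟩ | ⟨j, h1, h2⟩
    · exact hs (h2 ▸ h.1)
    · exact h.2 (h2 ▸ mw _ (by omega))
  have tn : t ∉ W \ sg p 0 a := fun h => by
    rcases t2 with ⟨-, h2⟩ | ⟨h1, h2⟩
    · exact he (h2 ▸ h.1)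
    · exact h.2 (h2 ▸ mw _ h1)
  obtain ⟨c, c1, c2, c3, c4⟩ := cb.third s1 t1 st
  refine ⟨⟨c, ⟨by_contra fun h => ?_, ?_⟩, c1⟩, fun k hk k' hk' e e' => ?_⟩
  · rcases out i hi c h c1 with h1 | h1 <;> obtain ⟨h2, h3⟩ := Prod.mk.inj h1
    · have := sp.inj _ _ hi (Nat.zero_le _) h2
      rcases s2 with ⟨-, h4⟩ | ⟨j, h4, -⟩
      · exact c2 (h3.trans h4.symm)
      · omega
    · have := sp.inj _ _ hi le_rfl h2
      rcases t2 with ⟨-, h4⟩ | ⟨h4, -⟩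
      · exact c3 (h3.trans h4.symm)
      · omega
  · rintro ⟨k, -, hk, rfl⟩
    rcases lt_trichotomy k i with h | h | h
    · have := ch k i h hi c1.symm
      rcases s2 with ⟨h4, -⟩ | ⟨j, h4, h5⟩
      · omega
      · exact c2 (by rw [h5, show k = j by omega])
    · exact c1.ne (by rw [h])
    · have := ch i k h hk c1
      rcases t2 with ⟨h4, -⟩ | ⟨-, h5⟩
      · omega
      · exact c3 (by rw [h5, this])
  · have h1 := c4 k e
    have h2 := c4 k' e'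
    grind

end TH3x

theorem p_TH3 :
    S_TH3 := by
  intro V G W p q a b a₁ a₁' a₂ a₂' b₁ b₁' b₂ b₂' cb h4 ds ch
  have pq : ∀ i j, i ≤ a → j ≤ b → p i ≠ q j := fun i j hi hj e =>
    Set.disjoint_left.1 ds.d (mem_sg (Nat.zero_le _) hi) (e ▸ mem_sg (Nat.zero_le _) hj)
  have o : ∀ i, i ≤ a → ∀ y, y ∉ W → G.Adj (p i) y → (p i, y) = (a₁, a₁') ∨ (p i, y) = (a₂, a₂') ∨
      (p i, y) = (b₁, b₁') ∨ (p i, y) = (b₂, b₂') := fun i hi y hy e => by
    simpa using h4.out _ (ds.pw (mem_sg (Nat.zero_le _) hi)) y hy e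
  obtain ⟨sp, -, pw, -, -, rfl, rfl, ⟨rfl, rfl⟩ | ⟨rfl, rfl⟩⟩ := ds
  · refine TH3x.core cb sp pw h4.n.1 h4.n.2.2.1 h4.adj.1 h4.adj.2.2.1 h4.ne.1
      (fun i hi y hy e => ?_) ch
    have h1 := pq i 0 hi (Nat.zero_le _)
    have h2 := pq i b hi le_rfl
    have := o i hi y hy e
    grind
  · refine TH3x.core cb sp pw h4.n.1 h4.n.2.2.2 h4.adj.1 h4.adj.2.2.2 h4.ne.2.1
      (fun i hi y hy e => ?_) ch
    have h1 := pq i 0 hi (Nat.zero_le _)
    have h2 := pq i b hi le_rfl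
    have := o i hi y hy e
    grind

end Pool.Agent.P.MP_bb4f54_co.T4

end sTH3

section sD5
/-! Step D5. -/

set_option autoImplicit false
set_option linter.unusedSectionVars false

namespace Pool.Agent.P.MP_bb4f54_co.T4



theorem p_D5 (hFAN : S_FAN) (hD5a : S_D5a) :
    S_D5 := by
  intro V _ G R _ W O p q a b c x i j x' hx hx' hne ⟨n, hn⟩
  obtain _ | n := n
  · exact hne hn.eq_of_zero
  obtain ⟨z, hz, hp⟩ := hn.uncons
  have hzO : z ∈ O \ {x} := hp.left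
  by_cases hzx : z = x'
  · subst hzx
    have hi := hx'.hi
    have n1 := c.pno hx.hi
    have n2 := c.pno hi
    have h1 := ((PL.edge (c.sp.adj i hi)).snoc hx'.ap (by
      rintro (e | e)
      · exact n1 (e ▸ hx'.m)
      · exact n2 (e ▸ hx'.m))).snoc hz.symm (by
      rintro (e | e | e)
      · exact hne e
      · exact n1 (e ▸ hx.m)
      · exact n2 (e ▸ hx.m))
    refine c.n4 ⟨_, _, _, h1.mono ?_, hx.ap.symm, by omega, rfl⟩
    rintro y (rfl | rfl | rfl | rfl)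
    · exact c.ow hx.m
    · exact c.ow hx'.m
    · exact c.pw (mem_sg (Nat.zero_le _) hx.hi)
    · exact c.pw (mem_sg (Nat.zero_le _) hi)
  have hT : RS G (O \ {x}) z ⊆ O \ {x} := RS.sub
  have hzT : z ∈ RS G (O \ {x}) z := RS.self hzO
  have hxT : x' ∈ RS G (O \ {x}) z := ⟨n, hp⟩
  let L : Set V := {l | l ∈ RS G (O \ {x}) z ∧ l ≠ x' ∧
    ((∃ u, u ≤ a ∧ G.Adj (p u) l) ∨ ∃ u, u ≤ b ∧ G.Adj (q u) l)}
  have key : ∀ Y ⊆ RS G (O \ {x}) z, z ∈ Y → Le1 G Y (RS G (O \ {x}) z) →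
      (∀ y ∈ Y, y ≠ x' ∧ y ∉ L) → False := by
    rintro Y hY hzY ⟨e, he⟩ h
    refine c.no2 Y (fun y hy => (hT (hY hy)).1) ⟨z, hzY⟩ (z, x) e fun y hy w hw ha => ?_
    rcases c.clo y (hT (hY hy)).1 w ha with hO | ⟨u, hu, rfl⟩ | ⟨u, hu, rfl⟩
    · by_cases hwx : w = x
      · subst hwx
        rw [hx.one c y (hT (hY hy)).1 z hzO.1 ha.symm hz]
        simp
      · rw [he y hy w (RS.step (hY hy) ha ⟨hO, hwx⟩) hw ha]
        simp
    · exact absurd ⟨hY hy, (h y hy).1, Or.inl ⟨u, hu, ha.symm⟩⟩ (h y hy).2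
    · exact absurd ⟨hY hy, (h y hy).1, Or.inr ⟨u, hu, ha.symm⟩⟩ (h y hy).2
  rcases L.eq_empty_or_nonempty with hL | hL
  · refine key (RS G (O \ {x}) z \ {x'}) Set.diff_subset ⟨hzT, hzx⟩ ?_
      fun y hy => ⟨hy.2, by simp [hL]⟩
    by_cases h : ∃ y ∈ O, G.Adj x' y
    · obtain ⟨y₀, h0, h1⟩ := h
      refine ⟨(y₀, x'), fun y hy w hw hw' ha => ?_⟩
      obtain rfl : w = x' := by_contra fun e => hw' ⟨hw, e⟩
      rw [hx'.one c y (hT hy.1).1 y₀ h0 ha.symm h1]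
    · refine ⟨(x', x'), fun y hy w hw hw' ha => ?_⟩
      obtain rfl : w = x' := by_contra fun e => hw' ⟨hw, e⟩
      exact absurd ⟨y, (hT hy.1).1, ha.symm⟩ h
  rcases hFAN G (RS G (O \ {x}) z) {x'} L z c.cb hzT (fun y hy => RS.pl hy)
    (Set.singleton_subset_iff.2 hxT) (fun y hy => hy.1) ⟨x', rfl⟩ hL
    (Set.disjoint_singleton_left.2 fun h => h.2.1 rfl) (by
      rintro y (rfl | ⟨-, -, ⟨u, hu, h⟩ | ⟨u, hu, h⟩⟩)
      · exact ⟨_, fun h => c.pno hx'.hi (hT h).1, hx'.ap.symm⟩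
      · exact ⟨_, fun h => c.pno hu (hT h).1, h.symm⟩
      · exact ⟨_, fun h => c.qno hu (hT h).1, h.symm⟩) with
    ⟨e, rfl, l, ⟨-, hl, ⟨u, hu, h⟩ | ⟨u, hu, h⟩⟩, U₁, U₂, n₁, n₂, s1, s2, p1, p2, d⟩ |
    ⟨Y, hY, hzY, h1, h2⟩
  · exact hD5a G R W O p q a b c x i j _ _ z l U₁ U₂ n₁ n₂ u hx hx' hz (s1.trans hT) (s2.trans hT)
      p1 p2 d hl hu h
  · exact hD5a G R W O q p b a c.swap x j i _ _ z l U₁ U₂ n₁ n₂ u hx.swap hx'.swap hz (s1.trans hT)
      (s2.trans hT) p1 p2 d hl hu h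
  · exact key Y hY hzY h1 h2

end Pool.Agent.P.MP_bb4f54_co.T4

end sD5

section sD4
/-! Step D4. -/

set_option autoImplicit false
set_option linter.unusedSectionVars false

namespace Pool.Agent.P.MP_bb4f54_co.T4



theorem p_D4 (hFAN : S_FAN) (hD1 : S_D1) (hDG : S_DG) :
    S_D4 := by
  intro V _ G R _ W O p q a b c hL x i j x' i' j' hx hx' hii hr
  by_contra hne
  have hu : i + 1 < i' := by omega
  have hua : i + 1 ≤ a := by have := hx'.hi; omega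
  obtain ⟨l, hU⟩ := RS.pl hr
  have four : 2 * ((2 : ℕ) : R) = 0 → False := fun e => c.h4 (by
    push_cast at e; linear_combination e)
  obtain ⟨k, hk, hkO | ⟨w, -, hw, rfl⟩⟩ := c.tp (i + 1) hua
  swap
  · have := (hDG G R W O p q a b c x i j x' i' j' _ ∅ l (i + 1) w 1 hx hx' RS.sub
      (Set.empty_subset _) (Set.disjoint_empty _) hU (by omega) hu hw (Rg.edge hk)).2
    exact c.h2 (by simpa using this)
  have d1 := hD1 G R W O p q a b c
  by_cases hm : k ∈ RS G O x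
  · have kx : k ≠ x := fun e => by
      have := d1.1 k hkO i (i + 1) hx.hi hua (e ▸ hx.ap) hk
      omega
    have kx' : k ≠ x' := fun e => by
      have := d1.1 k hkO i' (i + 1) hx'.hi hua (e ▸ hx'.ap) hk
      omega
    have hxk : x ∈ RS G O k := RS.symm hm
    rcases hFAN G (RS G O k) {y | y ∈ RS G O k ∧ ∃ s, s < i + 1 ∧ G.Adj (p s) y}
      {y | y ∈ RS G O k ∧ ∃ s, i + 1 < s ∧ s ≤ a ∧ G.Adj (p s) y} k c.cb (RS.self hkO)
      (fun y hy => RS.pl hy) (fun y hy => hy.1) (fun y hy => hy.1)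
      ⟨x, hxk, i, by omega, hx.ap⟩ ⟨x', RS.trans hxk hr, i', hu, hx'.hi, hx'.ap⟩
      (Set.disjoint_left.2 fun y ⟨h1, s, h2, h3⟩ ⟨_, t, h4, h5, h6⟩ => by
        have := d1.1 y (RS.sub h1) s t (by omega) h5 h3 h6
        omega)
      (fun y hy => by
        rcases hy with ⟨-, s, h2, h3⟩ | ⟨-, s, -, h2, h3⟩
        · exact ⟨p s, fun h => c.pno (by omega) (RS.sub h), h3.symm⟩
        · exact ⟨p s, fun h => c.pno h2 (RS.sub h), h3.symm⟩) with
      ⟨e, ⟨-, s, h2, h3⟩, f, ⟨-, t, h4, h5, h6⟩, U₁, U₂, n₁, n₂, u₁, u₂, P₁, P₂, hd⟩ |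
        ⟨Y, hY, hkY, ⟨e, he⟩, hn⟩
    · have := (d1.2 k e k f U₁ {k} U₂ n₁ 0 n₂ s (i + 1) t (u₁.trans RS.sub)
        (Set.singleton_subset_iff.2 hkO) (u₂.trans RS.sub) P₁ (PL.single k) P₂ (fun _ _ h => h) hd
        (fun _ h _ => h) h2 h4 h5 h3 hk h6).1
      exact c.h2 (by simpa using this)
    · obtain ⟨y, hy, s, t, hl⟩ := hL Y (hY.trans RS.sub) ⟨k, hkY⟩
        ⟨e, fun y hy z hz hn' h => he y hy z (RS.step (hY hy) h hz) hn' h⟩
      obtain rfl : s = i + 1 := by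
        by_contra h
        rcases lt_or_gt_of_ne h with h | h
        · exact (hn y hy).1 ⟨hY hy, s, h, hl.ap⟩
        · exact (hn y hy).2 ⟨hY hy, s, h, hl.hi, hl.ap⟩
      obtain rfl : y = k := c.up _ hua _ _ hl.ap hk (Or.inl hl.m) (Or.inl hkO)
      exact four (hDG G R W O p q a b c x i j x' i' j' _ {y} l (i + 1) t 2 hx hx'
        (Set.sdiff_subset.trans RS.sub) (Set.singleton_subset_iff.2 hkO) Set.disjoint_sdiff_left
        (hU.avoid kx kx' fun z hz z' hz' => hl.one c z (RS.sub hz) z' (RS.sub hz')) (by omega) hu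
        hl.hj (Rg.two hl.ap hl.aq)).2
  · have hd : Disjoint (RS G O x) (RS G O k) :=
      Set.disjoint_left.2 fun y h1 h2 => hm (RS.trans h1 (RS.symm h2))
    obtain ⟨y, hy, s, t, hl⟩ := hL (RS G O k) RS.sub ⟨k, RS.self hkO⟩
      ⟨(k, k), fun y hy z hz hn e => absurd (RS.step hy e hz) hn⟩
    obtain ⟨n, P⟩ := RS.pl hy
    have hd' : Disjoint (RS G O x) {y} := hd.mono_right (Set.singleton_subset_iff.2 hy)
    rcases (hDG G R W O p q a b c x i j x' i' j' _ _ l (i + 1) t (n + 2) hx hx' RS.sub RS.sub hd hU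
      (by omega) hu hl.hj (P.rg hk hl.aq)).1 with ⟨h1, h2⟩ | ⟨h1, h2⟩
    · exact four (hDG G R W O q p b a c.swap x j i x' j' i' _ {y} l t s 2 hx.swap hx'.swap RS.sub
        (Set.singleton_subset_iff.2 hl.m) hd' hU h1 h2 hl.hi (Rg.two hl.aq hl.ap)).2
    · exact four (hDG G R W O q p b a c.swap x' j' i' x j i _ {y} l t s 2 hx'.swap hx.swap RS.sub
        (Set.singleton_subset_iff.2 hl.m) hd' hU.symm h1 h2 hl.hi (Rg.two hl.aq hl.ap)).2

end Pool.Agent.P.MP_bb4f54_co.T4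

end sD4

section sDL
/-! Step DL. -/

set_option autoImplicit false
set_option linter.unusedSectionVars false

namespace Pool.Agent.P.MP_bb4f54_co.T4



theorem p_DL (hMNS : S_MNS) (hNZ : S_NZ) (hD1 : S_D1) (hDPQ : S_DPQ) (hSHP : S_SHP) (hDD1 : S_DD1) (hDD2 : S_DD2) :
    S_DL := by
  intro V _ G R _ W O p q a b c hA hD Y hY hne hL
  obtain ⟨m1, m2, m3⟩ := hMNS G O c.cb
  have leaf : ∀ x, Mn G O {x} → ∃ i j, Lf G O p q a b x i j := by
    intro x hM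
    obtain ⟨_, rfl, i, ia, e⟩ := hDPQ G R W O p q a b c hA _ hM
    obtain ⟨_, rfl, j, jb, f⟩ := hDPQ G R W O q p b a c.swap hA _ hM
    exact ⟨i, j, hM.sub rfl, ia, jb, e, f⟩
  obtain ⟨N, hN, hM⟩ := m1 Y hY hne hL
  rcases m2 N hM with ⟨x, rfl⟩ | hB
  · exact ⟨x, hN rfl, leaf x hM⟩
  exfalso
  obtain ⟨k, k', m, m', z, z', i, i', j, j', s⟩ := hSHP G R W O p q a b c hA hD N hM hB
  obtain ⟨N', s', hM'⟩ := m1 (RS G (O \ N) z') (fun w hw => (RS.sub hw).1)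
    ⟨z', RS.self ⟨s.zz.1, s.zz.2.1⟩⟩
    ⟨(z', z), m3 N z z' hM.le s.mem.2.2.2.2 s.zz.1 s.zz.2.1 s.zz.2.2⟩
  have d1 := hDD1 G R W O p q a b c N k k' m m' z z' i i' j j' hM.sub hB s
  rcases m2 N' hM' with ⟨y, rfl⟩ | hB'
  · obtain ⟨u, v, l⟩ := leaf y hM'
    have h1 := d1 y (s' rfl) u l.hi l.ap
    have h2 := hDD1 G R W O q p b a c.swap N m m' k k' z z' j j' i i' hM.sub hB s.swap y (s' rfl)
      v l.hj l.aq
    exact hDD2 G R W O p q a b c N k k' m m' z z' i i' j j' hM.sub hB s y (s' rfl) u v l h1.1 h1.2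
      h2.2
  obtain ⟨k₁, k₁', m₁, m₁', y, y', i₁, i₁', j₁, j₁', t⟩ := hSHP G R W O p q a b c hA hD N' hM' hB'
  have sub : N ⊆ O \ N' := fun x hx => ⟨hM.sub hx, fun h => (RS.sub (s' h)).2 hx⟩
  obtain ⟨g, hg⟩ := hM'.le
  have only : ∀ u ∈ N', ∀ v ∈ O, v ∉ N' → G.Adj u v → v = y' := fun u hu v hv hv' e =>
    congrArg Prod.snd ((hg u hu v hv hv' e).trans
      (hg y t.mem.2.2.2.2 y' t.zz.1 t.zz.2.1 t.zz.2.2).symm)
  have hz : z ∈ RS G (O \ N') y' := by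
    by_cases h : z' ∈ N'
    · rw [← only z' h z (sub s.mem.2.2.2.2).1 (sub s.mem.2.2.2.2).2 s.zz.2.2.symm]
      exact RS.self (sub s.mem.2.2.2.2)
    refine RS.step (RS.symm ?_) s.zz.2.2.symm (sub s.mem.2.2.2.2)
    by_contra hc
    have : RS G (O \ N) z' ⊆ RS G (O \ N') z' := by
      refine RS.closed (RS.self ⟨s.zz.1, h⟩) fun u hu v hv e => ?_
      by_cases hv' : v ∈ N'
      · exact (hc (only v hv' u (RS.sub hu).1 (RS.sub hu).2 e.symm ▸ hu)).elim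
      · exact RS.step hu e ⟨hv.1, hv'⟩
    exact (RS.sub (this (s' t.mem.1))).2 t.mem.1
  have hk : k ∈ RS G (O \ N') y' :=
    RS.trans hz (RS.mono (fun x hx => sub hx.1) (hNZ G N c.cb hB z' z k
      ⟨s.mem.2.2.2.2, fun e => s.zz.2.1 (e ▸ s.mem.2.2.2.2)⟩
      ⟨s.mem.1, fun e => s.zz.2.1 (e ▸ s.mem.1)⟩))
  have h1 := d1 k₁ (s' t.mem.1) i₁ (by have := t.hi; omega) t.ap.1
  have h2 := hDD1 G R W O p q a b c N' k₁ k₁' m₁ m₁' y y' i₁ i₁' j₁ j₁' hM'.sub hB' t k hk i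
    (by have := s.hi; omega) s.ap.1
  omega

end Pool.Agent.P.MP_bb4f54_co.T4

end sDL

section sDG
/-! Step DG. -/

set_option autoImplicit false
set_option linter.unusedSectionVars false

namespace Pool.Agent.P.MP_bb4f54_co.T4



theorem p_DG (hD1 : S_D1) :
    S_DG := by
  intro V G R _ W O p q a b c x i j x' i' j' U X l u w n L L' hU hX d P iu ui wb M
  have hi' := L'.hi
  have hj := L.hj
  have hj' := L'.hj
  have ua : u ≤ a := by omega
  have xx : x ≠ x' := fun e => by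
    have := (hD1 G R W O p q a b c).1 x L.m i i' L.hi hi' L.ap (e ▸ L'.ap)
    omega
  have jj : j ≠ j' := fun e => xx (c.uq j hj x x' L.aq (e ▸ L'.aq) (.inl L.m) (.inl L'.m))
  have key : ∀ y k, y ∈ U → G.Adj (q k) y → w ≠ k := fun y k hy ha e => by
    obtain ⟨z, h1, h2⟩ := M.symm.nb
    have := c.uq w wb y z (e ▸ ha) h1 (.inl (hU hy))
      (h2.symm.imp (fun h => hX h) fun h => ⟨u, Nat.zero_le _, ua, h⟩)
    subst this
    rcases h2 with h | h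
    · exact c.pno ua (h ▸ hU hy)
    · exact Set.disjoint_left.1 d hy h
  have wj := key x j P.left L.aq
  have wj' := key x' j' P.right L'.aq
  have s1 : ({x} : Set V) ⊆ U := Set.singleton_subset_iff.2 P.left
  have s2 : ({x'} : Set V) ⊆ U := Set.singleton_subset_iff.2 P.right
  have r1 := Rg.two L.ap L.aq
  have r2 := Rg.two L'.ap L'.aq
  have d1 := P.rg L.ap L'.aq
  have d2 := P.symm.rg L'.ap L.aq
  have ep := (c.rp i i' _ (by omega) hi' ((P.rg L.ap L'.ap).mono hU)).1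
  have A1 := fun h : w < j => (c.sw i j u w U X _ _ iu ua h hj hU hX d (r1.mono s1) M).1
  have A2 := fun h : w < j' => (c.sw i j' u w U X _ _ iu ua h hj' hU hX d d1 M).1
  have B1 := fun h : j' < w => (c.sw u w i' j' X U _ _ ui hi' h wb hX hU d.symm M (r2.mono s2)).1
  have B2 := fun h : j < w => (c.sw u w i' j X U _ _ ui hi' h wb hX hU d.symm M d2).1
  push_cast at ep A1 A2 B1 B2
  rcases lt_or_gt_of_ne jj with h | h
  · have eq := (c.rq j j' _ h hj' ((P.rg L.aq L'.aq).mono hU)).1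
    push_cast at eq
    rcases lt_or_gt_of_ne wj with h1 | h1
    · exact absurd (by linear_combination A1 h1 - A2 (by omega) + eq) c.h2
    rcases lt_or_gt_of_ne wj' with h2 | h2
    · exact ⟨.inl ⟨h1, h2⟩, by linear_combination A2 h2 + B2 h1 - ep - eq⟩
    · exact absurd (by linear_combination B1 h2 - B2 h1 + eq) c.h2
  · have eq := (c.rq j' j _ h hj ((P.symm.rg L'.aq L.aq).mono hU)).1
    have e4 := (c.sw i j i' j' _ _ _ _ (by omega) hi' h hj (s1.trans hU) (s2.trans hU)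
      (Set.disjoint_singleton.2 xx) r1 r2).1
    push_cast at eq e4
    rcases lt_or_gt_of_ne wj' with h1 | h1
    · exact absurd (by linear_combination e4 - ep + A2 h1 - A1 (by omega)) c.h2
    rcases lt_or_gt_of_ne wj with h2 | h2
    · exact ⟨.inr ⟨h1, h2⟩, by linear_combination A1 h2 + B1 h1 - e4⟩
    · exact absurd (by linear_combination e4 - ep + B2 h2 - B1 h1) c.h2

end Pool.Agent.P.MP_bb4f54_co.T4

end sDG

section sDM
/-! Step DM. -/

set_option autoImplicit false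
set_option linter.unusedSectionVars false

namespace Pool.Agent.P.MP_bb4f54_co.T4

namespace DMx

theorem key (hD4 : S_D4) (hD5 : S_D5) {V : Type} [Fintype V] {G : SimpleGraph V} {R : Type}
    [CommRing R] {W O : Set V} {p q : ℕ → V} {a b : ℕ} (c : DC G R W O p q a b)
    (hL : ∀ Y ⊆ O, Y.Nonempty → Le1 G Y O → ∃ x ∈ Y, ∃ i j, Lf G O p q a b x i j)
    {x x' : V} {i j i' j' : ℕ} (h : Lf G O p q a b x i j) (h' : Lf G O p q a b x' i' j')
    (hx : x ≠ x') (hr : x' ∈ RS G O x) (hi : i < i') : False := by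
  have hL' : ∀ Y ⊆ O, Y.Nonempty → Le1 G Y O → ∃ x ∈ Y, ∃ i j, Lf G O q p b a x i j :=
    fun Y a b c => let ⟨x, h1, i, j, h2⟩ := hL Y a b c; ⟨x, h1, j, i, h2.swap⟩
  obtain rfl := hD4 G R W O p q a b c hL x i j x' i' j' h h' hi hr
  rcases lt_trichotomy j j' with hj | rfl | hj
  · obtain rfl := hD4 G R W O q p b a c.swap hL' x j i x' j' _ h.swap h'.swap hj hr
    exact hD5 G R W O p q a b c x i j x' h h' hx hr
  · exact hx (c.uq j h.hj x x' h.aq h'.aq (Or.inl h.m) (Or.inl h'.m))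
  · obtain rfl := hD4 G R W O q p b a c.swap hL' x' j' _ x j i h'.swap h.swap hj (RS.symm hr)
    have := (c.sw i (j' + 1) (i + 1) j' {x} {x'} 2 2 hi h'.hi hj h.hj
      (Set.singleton_subset_iff.2 h.m) (Set.singleton_subset_iff.2 h'.m)
      (Set.disjoint_singleton.2 hx) (Rg.two h.ap h.aq) (Rg.two h'.ap h'.aq)).1
    push_cast at this
    exact c.h2 (by linear_combination this)

end DMx

theorem p_DM (hMNS : S_MNS) (hD1 : S_D1) (hDL : S_DL) (hD4 : S_D4) (hD5 : S_D5) :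
    S_DM := by
  intro V _ G R _ W O p q a b c hA hD
  by_contra hne
  have hO : O.Nonempty := Set.nonempty_iff_ne_empty.2 hne
  have hL := hDL G R W O p q a b c hA hD
  obtain ⟨x, -, i, j, h⟩ := hL O subset_rfl hO (le1_self hO)
  obtain ⟨z, hz, z1, z2, -⟩ := c.cb.third h.ap.symm h.aq.symm (c.pq h.hi h.hj)
  have hzO : z ∈ O := by
    rcases c.clo x h.m z hz with e | ⟨k, hk, rfl⟩ | ⟨k, hk, rfl⟩
    · exact e
    · exact absurd (congrArg p ((hD1 G R W O p q a b c).1 x h.m k i hk h.hi hz.symm h.ap)) z1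
    · exact absurd (congrArg q ((hD1 G R W O q p b a c.swap).1 x h.m k j hk h.hj hz.symm h.aq)) z2
  have h1 : Le1 G {x} O := ⟨(x, z), by
    rintro _ rfl y hy - e
    rw [h.one c y hy z hzO e hz]⟩
  have hzx : z ∉ ({x} : Set V) := fun e => hz.ne' e
  obtain ⟨x', hx', i', j', h'⟩ := hL (RS G (O \ {x}) z) (RS.sub.trans Set.sdiff_subset)
    ⟨z, RS.self ⟨hzO, hzx⟩⟩ ⟨(z, x), (hMNS G O c.cb).2.2 {x} x z h1 rfl hzO hzx hz⟩
  have hx : x ≠ x' := fun e => (RS.sub hx').2 e.symm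
  have hr : x' ∈ RS G O x :=
    RS.trans (RS.step (RS.self h.m) hz hzO) (RS.mono Set.sdiff_subset hx')
  rcases lt_trichotomy i i' with hi | rfl | hi
  · exact DMx.key hD4 hD5 c hL h h' hx hr hi
  · exact hx (c.up i h.hi x x' h.ap h'.ap (Or.inl h.m) (Or.inl h'.m))
  · exact DMx.key hD4 hD5 c hL h' h hx.symm (RS.symm hr) hi

end Pool.Agent.P.MP_bb4f54_co.T4

end sDM

section sDC2
/-! Step DC2. -/

set_option autoImplicit false
set_option linter.unusedSectionVars false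

namespace Pool.Agent.P.MP_bb4f54_co.T4



theorem p_DC2 (hNZ : S_NZ) (hTW2 : S_TW2) :
    S_DC2 := by
  intro V _ G R _ W O p q a b c hD N X X' k k' m m₀ z z₀ i i' j j' n₀ n₁ hN hB h4 km kz ii ia jj jb
    hX hX' dX r r'
  have sX : X ⊆ O := fun x hx => (hX hx).1
  have sX' : X' ⊆ O := fun x hx => (hX' hx).1
  have dN : ∀ {U Y : Set V}, U ⊆ N → Y ⊆ O \ N → Disjoint U Y := fun hU hY =>
    Set.disjoint_left.2 fun x a b => (hY b).2 (hU a)
  have ak : G.Adj (p i) k := h4.adj.1.symm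
  have ak' : G.Adj (p i') k' := h4.adj.2.2.1.symm
  have key : ∀ n, DRt G N k m k' z n → (n : R) + 2 + n₀ + n₁ + i + j = i' + j' := by
    rintro n ⟨U₁, U₂, s, t, h1, h2, d, rfl, ⟨a1, a2⟩ | ⟨a1, a2⟩⟩
    · have e1 := (c.rp i i' _ ii ia ((a1.rg ak ak').mono (h1.trans hN))).1
      have e2 := (c.rq j j' _ jj jb ((r.symm.cat a2 r' (dN h2 hX) (dN h2 hX') dX).mono
        (Set.union_subset (Set.union_subset (h2.trans hN) sX) sX'))).1
      push_cast at e1 e2 ⊢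
      linear_combination e1 + e2
    · have r1 := (Rg.edge (U := ∅) ak).cat a1 r' (Set.disjoint_empty _) (dN h1 hX')
        (Set.empty_disjoint _)
      have r2 := (Rg.edge (U := ∅) ak').cat a2.symm r (Set.disjoint_empty _) (dN h2 hX)
        (Set.empty_disjoint _)
      rw [Set.union_empty] at r1 r2
      have e := (c.sw i j' i' j _ _ _ _ ii ia jj jb (Set.union_subset (h1.trans hN) sX')
        (Set.union_subset (h2.trans hN) sX) (Set.disjoint_union_left.2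
          ⟨Set.disjoint_union_right.2 ⟨d, dN h1 hX⟩,
            Set.disjoint_union_right.2 ⟨(dN h2 hX').symm, dX.symm⟩⟩) r1 r2).1
      push_cast at e ⊢
      linear_combination e
  refine c.h4 (hD N hN _ _ _ _ _ _ _ _ h4 hB.thr (hTW2 G N k m k' z fun y => ?_)
    fun n n' h h' => by linear_combination key n h - key n' h')
  obtain ⟨u, hu, hu'⟩ : ∃ u, (u = k ∨ u = m) ∧ u ∈ N \ {y} := by
    by_cases e : k = y
    · exact ⟨m, Or.inr rfl, h4.m.2.1, fun e' => km (e.trans (Eq.symm e'))⟩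
    · exact ⟨k, Or.inl rfl, h4.m.1, e⟩
  obtain ⟨v, hv, hv'⟩ : ∃ u, (u = k' ∨ u = z) ∧ u ∈ N \ {y} := by
    by_cases e : k' = y
    · exact ⟨z, Or.inr rfl, h4.m.2.2.2, fun e' => kz (e.trans (Eq.symm e'))⟩
    · exact ⟨k', Or.inl rfl, h4.m.2.2.1, e⟩
  obtain ⟨n, hn⟩ := hNZ G N c.cb hB y u v hu' hv'
  exact ⟨u, v, n, hu, hv, hn⟩

end Pool.Agent.P.MP_bb4f54_co.T4

end sDC2

section sD5a
/-! Step D5a. -/

set_option autoImplicit false
set_option linter.unusedSectionVars false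

namespace Pool.Agent.P.MP_bb4f54_co.T4

theorem p_D5a (hD1 : S_D1) :
    S_D5a := by
  intro V G R _ W O p q a b c x i j x' j' z l U₁ U₂ n₁ n₂ u hx hx' hxz h₁ h₂ P₁ P₂ hd hl hu hul
  have o₁ : U₁ ⊆ O := fun y hy => (h₁ hy).1
  have o₂ : U₂ ⊆ O := fun y hy => (h₂ hy).1
  have oE : ({z, x} : Set V) ⊆ O := by
    rintro y (rfl | rfl)
    · exact o₁ P₁.left
    · exact hx.m
  have e₁ : ∀ y ∈ U₁, y ∈ ({z, x} : Set V) → y = z := by
    rintro y hy (h | h)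
    · exact h
    · exact absurd h (h₁ hy).2
  have e₂ : ∀ y ∈ U₂, y ∈ ({z, x} : Set V) → y = z := by
    rintro y hy (h | h)
    · exact h
    · exact absurd h (h₂ hy).2
  have hlO : l ∈ O := o₂ P₂.right
  have E : PL G {z, x} z x 1 := PL.edge hxz.symm
  have n1 : u ≠ i := by
    rintro rfl
    exact (h₂ P₂.right).2 (c.up u hu l x hul hx.ap (Or.inl hlO) (Or.inl hx.m))
  have n2 : u ≠ i + 1 := by
    rintro rfl
    exact hl (c.up (i + 1) hu l x' hul hx'.ap (Or.inl hlO) (Or.inl hx'.m))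
  rcases Nat.lt_or_ge u i with h | h
  · obtain ⟨t, -, -⟩ := (hD1 G R W O p q a b c).2 z l x x' U₂ {z, x} U₁ n₂ 1 n₁ u i (i + 1) o₂ oE o₁
      P₂ E P₁ e₂ (fun y a b => hd y b a) (fun y a b => e₁ y b a) h (Nat.lt_succ_self i) hx'.hi hul
      hx.ap hx'.ap
    exact c.h4 (by push_cast at t; linear_combination t)
  · obtain ⟨t, s, -⟩ := (hD1 G R W O p q a b c).2 z x x' l {z, x} U₁ U₂ 1 n₁ n₂ i (i + 1) u oE o₁ o₂
      E P₁ P₂ (fun y a b => e₁ y b a) (fun y a b => e₂ y b a) hd (Nat.lt_succ_self i) (by omega) hu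
      hx.ap hx'.ap hul
    exact c.h2 (by push_cast at s; linear_combination 2 * s - t)

end Pool.Agent.P.MP_bb4f54_co.T4

end sD5a

section sDA
/-! Step DA. -/

set_option autoImplicit false
set_option linter.unusedSectionVars false

namespace Pool.Agent.P.MP_bb4f54_co.T4



theorem p_DA (hTHV : S_THV) (hD1 : S_D1) :
    S_DA := by
  intro V _ G R _ W O p q a b c N X X' k u w i₀ i i₁ n₀ n₁ hN hB hk hu hw huw h0 h1 h2 hpk hX hX'
    hd r0 r1
  have out : ∀ (x : V) (Y : Set V) (j n : ℕ), j ≤ a → Y ⊆ O \ N → Rg G Y x (p j) n →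
      ∃ y, y ∉ N ∧ G.Adj x y := fun x Y j n hj hY r => by
    obtain ⟨y, e, hy⟩ := r.nb
    refine ⟨y, fun hyN => ?_, e⟩
    rcases hy with rfl | hy
    · exact c.pno hj (hN hyN)
    · exact (hY hy).2 hyN
  obtain ⟨U₁, U₂, m₁, m₂, s₁, s₂, l₁, l₂, hU⟩ := hTHV G N u k w c.cb hB hu hk hw huw
    (out u X i₀ n₀ (by omega) hX r0) (out w X' i₁ n₁ h2 hX' r1)
  have dj : ∀ (U Y : Set V), U ⊆ N → Y ⊆ O \ N → Disjoint U Y := fun U Y a b =>
    Set.disjoint_left.2 fun x hx hy => (b hy).2 (a hx)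
  have xo : X ⊆ O := fun x hx => (hX hx).1
  have xo' : X' ⊆ O := fun x hx => (hX' hx).1
  have e1 := (c.rp i₀ i _ h0 (by omega) ((r0.symm.cat l₁.symm (Rg.edge (U := ∅) hpk.symm)
    (dj _ _ s₁ hX) (Set.disjoint_empty _) (Set.disjoint_empty _)).mono
    (Set.union_subset (Set.union_subset (s₁.trans hN) xo) (Set.empty_subset _)))).1
  have e2 := (c.rp i i₁ _ h1 h2 (((Rg.edge (U := ∅) hpk).cat l₂ r1 (Set.disjoint_empty _)
    (dj _ _ s₂ hX') (Set.empty_disjoint _)).mono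
    (Set.union_subset (Set.union_subset (s₂.trans hN) (Set.empty_subset _)) xo'))).1
  have s₃ : U₁ ∪ U₂ ⊆ N := Set.union_subset s₁ s₂
  have e3 := (c.rp i₀ i₁ _ (by omega) h2 ((r0.symm.cat (l₁.symm.concat l₂ hU) r1
    (dj _ _ s₃ hX) (dj _ _ s₃ hX') hd).mono
    (Set.union_subset (Set.union_subset (s₃.trans hN) xo) xo'))).1
  push_cast at e1 e2 e3
  exact c.h2 (by linear_combination e1 + e2 - e3)

end Pool.Agent.P.MP_bb4f54_co.T4

end sDA

section sDRP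
/-! Step DRP. -/

set_option autoImplicit false
set_option linter.unusedSectionVars false

namespace Pool.Agent.P.MP_bb4f54_co.T4



theorem p_DRP (hA3P : S_A3P) (hD0 : S_D0) (hDE : S_DE) (hDM : S_DM) :
    S_DRP := by
  intro V _ G R _ W cb
  induction W using WellFoundedLT.induction with
  | ind W ih =>
    intro n2 n4 a₁ a₁' a₂ a₂' b₁ b₁' b₂ b₂' h4 h3 he hu
    by_contra hn
    obtain ⟨p, q, a, b, c⟩ := hD0 G R W _ _ _ _ _ _ _ _ cb n2 n4 hn h4 he hu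
    have p0 : p 0 ∈ sg p 0 a := mem_sg le_rfl (Nat.zero_le _)
    have e := hDM G R W _ p q a b c
      (fun N hN => hA3P G R N cb (n2.mono (hN.trans c.ow)) fun h => n4 (h.mono (hN.trans c.ow)))
      fun N hN => ih N (lt_of_le_of_ne (hN.trans c.ow) fun e =>
        (hN (e ▸ c.pw p0)).2 (Or.inl p0)) (n2.mono (hN.trans c.ow))
        fun h => n4 (h.mono (hN.trans c.ow))
    rw [e] at c
    obtain rfl := hDE G R W p q a b c
    obtain rfl := hDE G R W q p b 0 c.swap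
    have k : ∀ x ∈ W, x = p 0 ∨ x = q 0 := fun x hx => by
      rcases Set.sdiff_eq_empty.1 e hx with ⟨i, -, h, rfl⟩ | ⟨i, -, h, rfl⟩ <;>
        simp [Nat.le_zero.1 h]
    obtain ⟨x, hx, y, hy, z, hz, e1, e2, e3⟩ := h3
    have := k x hx
    have := k y hy
    have := k z hz
    grind

end Pool.Agent.P.MP_bb4f54_co.T4

end sDRP

section sA3P
/-! Step A3P. -/

set_option autoImplicit false
set_option linter.unusedSectionVars false

namespace Pool.Agent.P.MP_bb4f54_co.T4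



theorem p_A3P (hA3C : S_A3C) (hA3M : S_A3M) :
    S_A3P := by
  intro V _ G R _ U hc
  induction U using (wellFounded_lt (α := Set V)).induction with
  | _ U ih =>
    intro h2 h4 a a' b b' e ha hb ha' hb' e1 e2 hne ho hn hl
    by_contra h
    obtain ⟨O, p, n, hO, hA⟩ := hA3C G R U a a' b b' e hc h2 h4 h ha hb ha' hb' e1 e2 hne ho hn hl
    exact hA3M G R O p n e hA fun N hN => ih N (hN.trans_ssubset hO)
      (h2.mono (hN.trans hO.subset)) fun c => h4 (c.mono (hN.trans hO.subset))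

end Pool.Agent.P.MP_bb4f54_co.T4

end sA3P
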