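import Pool.Agent.P.MP_bb4f54_co.T3.Base

/-! Paths given by vertex sequences, leaving edges, reachable sets. -/

set_option autoImplicit false
set_option linter.unusedSectionVars false

namespace Pool.Agent.P.MP_bb4f54_co.T4

variable {V : Type}

/-- `p 0, …, p n` is a path. -/
structure Str (G : SimpleGraph V) (p : ℕ → V) (n : ℕ) : Prop where
  adj : ∀ i, i < n → G.Adj (p i) (p (i + 1))
  inj : ∀ i j, i ≤ n → j ≤ n → p i = p j → i = j

/-- A path from `u` to `v` with `n` edges and all vertices in `U`. -/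
def PL (G : SimpleGraph V) (U : Set V) (u v : V) (n : ℕ) : Prop :=
  ∃ p, Str G p n ∧ p 0 = u ∧ p n = v ∧ ∀ i, i ≤ n → p i ∈ U

/-- The vertices `p i, …, p j`. -/
def sg (p : ℕ → V) (i j : ℕ) : Set V := {x | ∃ k, i ≤ k ∧ k ≤ j ∧ x = p k}

/-- A cycle of length `t` with all vertices in `U`. -/
def CyIn (G : SimpleGraph V) (U : Set V) (t : ℕ) : Prop :=
  ∃ u v n, PL G U u v n ∧ G.Adj v u ∧ 2 ≤ n ∧ t = n + 1

/-- An edge from `x` to `y`, or a path in `U` between a neighbour of `x` and one of `y`. -/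
def Rg (G : SimpleGraph V) (U : Set V) (x y : V) (n : ℕ) : Prop :=
  (n = 1 ∧ G.Adj x y) ∨ ∃ u v m, n = m + 2 ∧ PL G U u v m ∧ G.Adj x u ∧ G.Adj y v

/-- Every vertex has exactly three neighbours. -/
def Cb (G : SimpleGraph V) : Prop :=
  ∀ v, ∃ a b c, a ≠ b ∧ a ≠ c ∧ b ≠ c ∧ ∀ x, G.Adj v x ↔ x = a ∨ x = b ∨ x = c

/-- Every edge leaving `Y` is in the list. -/
def Out (G : SimpleGraph V) (Y : Set V) (L : List (V × V)) : Prop :=
  ∀ x ∈ Y, ∀ y, y ∉ Y → G.Adj x y → (x, y) ∈ L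

/-- At least three edges leave every nonempty subset of `W`. -/
def No2 (G : SimpleGraph V) (W : Set V) : Prop :=
  ∀ Y ⊆ W, Y.Nonempty → ∀ e₁ e₂, ¬ Out G Y [e₁, e₂]

/-- At most one edge goes from `Y` to the rest of `T`. -/
def Le1 (G : SimpleGraph V) (Y T : Set V) : Prop :=
  ∃ e : V × V, ∀ x ∈ Y, ∀ y ∈ T, y ∉ Y → G.Adj x y → (x, y) = e

/-- A minimal nonempty subset of `T` with at most one edge to the rest of `T`. -/
structure Mn (G : SimpleGraph V) (T N : Set V) : Prop where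
  sub : N ⊆ T
  ne : N.Nonempty
  le : Le1 G N T
  min : ∀ Y ⊆ N, Y.Nonempty → Le1 G Y T → Y = N

/-- Three distinct elements. -/
def Thr3 (W : Set V) : Prop := ∃ x ∈ W, ∃ y ∈ W, ∃ z ∈ W, x ≠ y ∧ x ≠ z ∧ y ≠ z

/-- A 2-edge-connected set; at most one edge leaves it at each vertex. -/
structure Big (G : SimpleGraph V) (N : Set V) : Prop where
  ec : ∀ Y ⊆ N, Y.Nonempty → Y ≠ N → ¬ Le1 G Y N
  one : ∀ x ∈ N, ∀ y y', y ∉ N → y' ∉ N → G.Adj x y → G.Adj x y' → y = y'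
  thr : Thr3 N

/-- The vertices reachable from `x` inside `U`. -/
def RS (G : SimpleGraph V) (U : Set V) (x : V) : Set V := {y | ∃ n, PL G U x y n}

/-- Two disjoint paths in `W` from `a₁, a₂` to `b₁, b₂` with `n` edges in total. -/
def DRt (G : SimpleGraph V) (W : Set V) (a₁ a₂ b₁ b₂ : V) (n : ℕ) : Prop :=
  ∃ U₁ U₂ n₁ n₂, U₁ ⊆ W ∧ U₂ ⊆ W ∧ Disjoint U₁ U₂ ∧ n = n₁ + n₂ ∧
    ((PL G U₁ a₁ b₁ n₁ ∧ PL G U₂ a₂ b₂ n₂) ∨ (PL G U₁ a₁ b₂ n₁ ∧ PL G U₂ a₂ b₁ n₂))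

variable {G G' : SimpleGraph V} {U U' U₁ U₂ W X X' Y T N : Set V} {u v w x y z : V} {n m t : ℕ}
  {p : ℕ → V}

lemma mem_sg {i j k : ℕ} (h₁ : i ≤ k) (h₂ : k ≤ j) : p k ∈ sg p i j := ⟨k, h₁, h₂, rfl⟩

lemma sg_mono {i j i' j' : ℕ} (h₁ : i' ≤ i) (h₂ : j ≤ j') : sg p i j ⊆ sg p i' j' :=
  fun _ ⟨k, a, b, c⟩ => ⟨k, by omega, by omega, c⟩

lemma Str.mem_sg {i j k : ℕ} (h : Str G p n) (hj : j ≤ n) (hk : k ≤ n) :
    p k ∈ sg p i j ↔ i ≤ k ∧ k ≤ j :=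
  ⟨fun ⟨l, a, b, c⟩ => by have := h.inj k l hk (by omega) c; omega, fun a => T4.mem_sg a.1 a.2⟩

lemma Str.disj {i j i' j' : ℕ} (h : Str G p n) (hj : j < i') (hj' : j' ≤ n) :
    Disjoint (sg p i j) (sg p i' j') :=
  Set.disjoint_left.2 fun _ ⟨k, _, b, c⟩ ⟨l, a', b', c'⟩ => by
    have := h.inj k l (by omega) (by omega) (c.symm.trans c'); omega

/-- The part of a path between two positions. -/
lemma Str.pl {i j : ℕ} (h : Str G p n) (hij : i ≤ j) (hj : j ≤ n) :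
    PL G (sg p i j) (p i) (p j) (j - i) :=
  ⟨fun k => p (i + k), ⟨fun k hk => h.adj (i + k) (by omega), fun k l hk hl e => by
    have := h.inj _ _ (by omega) (by omega) e; omega⟩, rfl, congrArg p (by omega),
    fun k hk => T4.mem_sg (by omega) (by omega)⟩

lemma PL.mono (h : PL G U u v n) (hU : U ⊆ U') : PL G U' u v n :=
  let ⟨p, a, b, c, d⟩ := h; ⟨p, a, b, c, fun i hi => hU (d i hi)⟩

lemma PL.left (h : PL G U u v n) : u ∈ U := let ⟨_, _, b, _, d⟩ := h; b ▸ d 0 (Nat.zero_le _)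

lemma PL.right (h : PL G U u v n) : v ∈ U := let ⟨_, _, _, c, d⟩ := h; c ▸ d n le_rfl

lemma PL.refl (h : u ∈ U) : PL G U u u 0 :=
  ⟨fun _ => u, ⟨fun _ h => absurd h (Nat.not_lt_zero _), fun _ _ _ _ _ => by omega⟩, rfl, rfl,
    fun _ _ => h⟩

lemma PL.single (u : V) : PL G {u} u u 0 := PL.refl rfl

lemma PL.eq_of_zero (h : PL G U u v 0) : u = v := let ⟨_, _, b, c, _⟩ := h; b.symm.trans c

lemma PL.zero_of_eq (h : PL G U u u n) : n = 0 :=
  let ⟨_, a, b, c, _⟩ := h; a.inj n 0 le_rfl (Nat.zero_le _) (c.trans b.symm)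

lemma PL.symm (h : PL G U u v n) : PL G U v u n := by
  obtain ⟨p, a, b, c, d⟩ := h
  refine ⟨fun k => p (n - k), ⟨fun k hk => ?_, fun k l hk hl e => ?_⟩, by simpa using c,
    by simpa using b, fun k _ => d _ (by omega)⟩
  · have := (a.adj (n - (k + 1)) (by omega)).symm
    rwa [show n - (k + 1) + 1 = n - k by omega] at this
  · have := a.inj _ _ (by omega) (by omega) e
    omega

/-- The path lives on the set of its own vertices. -/
lemma PL.str (h : PL G U u v n) :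
    ∃ p, Str G p n ∧ p 0 = u ∧ p n = v ∧ sg p 0 n ⊆ U :=
  let ⟨p, a, b, c, d⟩ := h; ⟨p, a, b, c, fun _ ⟨k, _, h2, e⟩ => e ▸ d k h2⟩

lemma PL.transfer (h : PL G U u v n) (hG : ∀ x ∈ U, ∀ y ∈ U, G.Adj x y → G'.Adj x y) :
    PL G' U u v n :=
  let ⟨p, a, b, c, d⟩ := h
  ⟨p, ⟨fun i hi => hG _ (d _ hi.le) _ (d _ hi) (a.adj i hi), a.inj⟩, b, c, d⟩

/-- Two paths that share only the common end. -/
lemma PL.concat (h₁ : PL G U₁ u v n) (h₂ : PL G U₂ v w m) (hd : ∀ x ∈ U₁, x ∈ U₂ → x = v) :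
    PL G (U₁ ∪ U₂) u w (n + m) := by
  obtain ⟨p, a, b, c, d⟩ := h₁
  obtain ⟨q, a', b', c', d'⟩ := h₂
  have key : ∀ k l, k ≤ n → l ≤ m → p k = q l → l = 0 := fun k l hk hl e =>
    a'.inj _ _ hl (Nat.zero_le _) ((hd _ (e ▸ d k hk) (d' l hl)).trans b'.symm)
  refine ⟨fun k => if k ≤ n then p k else q (k - n), ⟨fun k hk => ?_, fun k l hk hl e => ?_⟩,
    by simpa using b, ?_, fun k hk => ?_⟩
  · by_cases h1 : k + 1 ≤ n
    · simpa [h1, show k ≤ n by omega] using a.adj k h1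
    · have h2 := a'.adj (k - n) (by omega)
      rw [show k - n + 1 = k + 1 - n by omega] at h2
      by_cases h3 : k ≤ n
      · obtain rfl : k = n := by omega
        simp only [h1, le_refl, if_true, if_false]
        rwa [Nat.sub_self, b', ← c] at h2
      · simpa [h1, h3] using h2
  · by_cases h1 : k ≤ n <;> by_cases h2 : l ≤ n <;> simp only [h1, h2, if_true, if_false] at e
    · exact a.inj _ _ h1 h2 e
    · have := key _ _ h1 (by omega) e; omega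
    · have := key _ _ h2 (by omega) e.symm; omega
    · have := a'.inj _ _ (by omega) (by omega) e; omega
  · by_cases h1 : n + m ≤ n
    · obtain rfl : m = 0 := by omega
      simp [c, ← c', b']
    · simp [h1, c']
  · by_cases h1 : k ≤ n <;> simp only [h1, if_true, if_false]
    · exact Or.inl (d k h1)
    · exact Or.inr (d' _ (by omega))

lemma PL.edge (h : G.Adj u v) : PL G {u, v} u v 1 := by
  refine ⟨fun k => if k = 0 then u else v, ⟨fun k hk => ?_, fun k l hk hl e => ?_⟩, rfl, rfl,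
    fun k _ => ?_⟩
  · obtain rfl : k = 0 := by omega
    simpa using h
  · have := h.ne
    by_cases h1 : k = 0 <;> by_cases h2 : l = 0 <;> simp_all
    omega
  · by_cases h1 : k = 0 <;> simp [h1]

lemma PL.snoc (h : PL G U u v n) (ha : G.Adj v w) (hw : w ∉ U) :
    PL G (insert w U) u w (n + 1) :=
  (h.concat (PL.edge ha) fun x hx hx' => by
    rcases hx' with e | e
    · exact e
    · exact absurd (e ▸ hx) hw).mono fun x hx => by
      rcases hx with hx | rfl | rfl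
      · exact Or.inr hx
      · exact Or.inr h.right
      · exact Or.inl rfl

lemma PL.cons (h : PL G U u v n) (ha : G.Adj w u) (hw : w ∉ U) :
    PL G (insert w U) w v (n + 1) := (h.symm.snoc ha.symm hw).symm

/-- Two disjoint paths joined by an edge. -/
lemma PL.join (h₁ : PL G U₁ u v n) (ha : G.Adj v w) (h₂ : PL G U₂ w x m) (hd : Disjoint U₁ U₂) :
    PL G (U₁ ∪ U₂) u x (n + 1 + m) := by
  have hw : w ∉ U₁ := fun h => Set.disjoint_left.1 hd h h₂.left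
  refine ((h₁.snoc ha hw).concat h₂ fun y hy hy' => ?_).mono fun y hy => ?_
  · rcases hy with e | e
    · exact e
    · exact absurd hy' (Set.disjoint_left.1 hd e)
  · rcases hy with (rfl | e) | e
    · exact Or.inr h₂.left
    · exact Or.inl e
    · exact Or.inr e

/-- A vertex with at most one neighbour in `U` is not an inner vertex. -/
lemma PL.avoid (h : PL G U u v n) (hu : x ≠ u) (hv : x ≠ v)
    (hx : ∀ y ∈ U, ∀ y' ∈ U, G.Adj x y → G.Adj x y' → y = y') : PL G (U \ {x}) u v n := by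
  obtain ⟨p, a, b, c, d⟩ := h
  refine ⟨p, a, b, c, fun i hi => ⟨d i hi, fun e => ?_⟩⟩
  have e' : p i = x := e
  rcases i with _ | i
  · exact hu (e'.symm.trans b)
  have h1 : i + 1 < n := lt_of_le_of_ne hi fun e2 => hv (by rw [← e', e2, c])
  have := a.inj _ _ (by omega) (by omega) (hx _ (d i (by omega)) _ (d (i + 1 + 1) h1)
    (e' ▸ (a.adj i hi).symm) (e' ▸ a.adj _ h1))
  omega

lemma PL.lt_ncard [Finite V] (h : PL G U u v n) : n < U.ncard := by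
  obtain ⟨p, a, -, -, d⟩ := h
  have := Set.ncard_le_ncard_of_injOn (s := ((Finset.range (n + 1) : Finset ℕ) : Set ℕ)) (t := U) p
    (fun i hi => d i (Nat.le_of_lt_succ (Finset.mem_range.1 hi)))
    (fun i hi j hj e => a.inj i j (Nat.le_of_lt_succ (Finset.mem_range.1 hi))
      (Nat.le_of_lt_succ (Finset.mem_range.1 hj)) e) (Set.toFinite _)
  rwa [Set.ncard_coe_finset, Finset.card_range] at this

/-- The first step of a path. -/
lemma PL.uncons (h : PL G U u v (n + 1)) : ∃ w, G.Adj u w ∧ PL G (U \ {u}) w v n := by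
  obtain ⟨p, a, b, c, d⟩ := h
  refine ⟨p 1, b ▸ a.adj 0 (by omega), fun k => p (k + 1), ⟨fun k hk => a.adj _ (by omega),
    fun k l hk hl e => ?_⟩, rfl, c, fun k hk => ⟨d _ (by omega), fun e => ?_⟩⟩
  · have := a.inj _ _ (by omega) (by omega) e; omega
  · have := a.inj (k + 1) 0 (by omega) (by omega) (e.trans b.symm); omega

lemma CyIn.mono (h : CyIn G U t) (hU : U ⊆ U') : CyIn G U' t :=
  let ⟨u, v, n, a, b⟩ := h; ⟨u, v, n, a.mono hU, b⟩

lemma CyIn.transfer (h : CyIn G U t) (hG : ∀ x ∈ U, ∀ y ∈ U, G.Adj x y → G'.Adj x y) :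
    CyIn G' U t :=
  let ⟨u, v, n, a, b, c⟩ := h; ⟨u, v, n, a.transfer hG, hG _ a.right _ a.left b, c⟩

lemma Rg.symm (h : Rg G U x y n) : Rg G U y x n := by
  rcases h with ⟨a, b⟩ | ⟨u, v, m, a, b, c, d⟩
  · exact Or.inl ⟨a, b.symm⟩
  · exact Or.inr ⟨v, u, m, a, b.symm, d, c⟩

lemma Rg.mono (h : Rg G U x y n) (hU : U ⊆ U') : Rg G U' x y n := by
  rcases h with h | ⟨u, v, m, a, b, c⟩
  · exact Or.inl h
  · exact Or.inr ⟨u, v, m, a, b.mono hU, c⟩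

lemma Rg.edge (h : G.Adj x y) : Rg G U x y 1 := Or.inl ⟨rfl, h⟩

lemma PL.rg (h : PL G U u v n) (h₁ : G.Adj x u) (h₂ : G.Adj y v) : Rg G U x y (n + 2) :=
  Or.inr ⟨u, v, n, rfl, h, h₁, h₂⟩

lemma Rg.two (h₁ : G.Adj x u) (h₂ : G.Adj y u) : Rg G {u} x y 2 := (PL.single u).rg h₁ h₂

lemma Rg.pos (h : Rg G U x y n) : 1 ≤ n := by
  rcases h with ⟨a, -⟩ | ⟨_, _, _, a, -⟩ <;> omega

/-- The first step. -/
lemma Rg.nb (h : Rg G U x y n) : ∃ w, G.Adj x w ∧ (w = y ∨ w ∈ U) := by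
  rcases h with ⟨-, b⟩ | ⟨u, v, m, -, b, c, -⟩
  · exact ⟨y, b, Or.inl rfl⟩
  · exact ⟨u, c, Or.inr b.left⟩

/-- A path continued up to a neighbour of `y`. -/
lemma PL.ext (h : PL G U u v n) (hr : Rg G X v y m) (hd : Disjoint U X) :
    ∃ w k, m = k + 1 ∧ PL G (U ∪ X) u w (n + k) ∧ G.Adj y w := by
  rcases hr with ⟨a, b⟩ | ⟨u', v', k, a, b, c, d⟩
  · exact ⟨v, 0, a, h.mono Set.subset_union_left, b.symm⟩
  · exact ⟨v', k + 1, a, by rw [add_comm k, ← add_assoc]; exact h.join c b hd, d⟩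

lemma Rg.cat {n' : ℕ} (h₁ : Rg G X x u n) (h : PL G U u v m) (h₂ : Rg G X' v y n')
    (d₁ : Disjoint U X) (d₂ : Disjoint U X') (d₃ : Disjoint X X') :
    Rg G (U ∪ X ∪ X') x y (n + m + n') := by
  obtain ⟨w, k, rfl, a, b⟩ := h.symm.ext h₁.symm d₁
  obtain ⟨w', k', rfl, a', b'⟩ := a.symm.ext h₂ (Set.disjoint_union_left.2 ⟨d₂, d₃⟩)
  rw [show k + 1 + m + (k' + 1) = m + k + k' + 2 by omega]
  exact a'.rg b b'

/-- Two disjoint paths joined through `X`. -/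
lemma PL.via {k : ℕ} (h₁ : PL G U₁ u v n) (hr : Rg G X v w k) (h₂ : PL G U₂ w x m)
    (d₁ : Disjoint U₁ X) (d₂ : Disjoint U₁ U₂) (d₃ : Disjoint X U₂) :
    PL G (U₁ ∪ X ∪ U₂) u x (n + k + m) := by
  obtain ⟨w', k', rfl, a, b⟩ := h₁.ext hr d₁
  exact a.join b.symm h₂ (Set.disjoint_union_left.2 ⟨d₂, d₃⟩)

lemma RS.sub : RS G U x ⊆ U := fun _ ⟨_, h⟩ => h.right

lemma RS.self (h : x ∈ U) : x ∈ RS G U x := ⟨0, PL.refl h⟩

lemma RS.symm (h : y ∈ RS G U x) : x ∈ RS G U y := let ⟨n, h⟩ := h; ⟨n, h.symm⟩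

lemma RS.mono (hU : U ⊆ U') : RS G U x ⊆ RS G U' x := fun _ ⟨n, h⟩ => ⟨n, h.mono hU⟩

lemma RS.step (h : y ∈ RS G U x) (ha : G.Adj y z) (hz : z ∈ U) : z ∈ RS G U x := by
  obtain ⟨n, h⟩ := h
  obtain ⟨p, a, rfl, rfl, d⟩ := h.str
  by_cases hm : z ∈ sg p 0 n
  · obtain ⟨k, -, h2, rfl⟩ := hm
    exact ⟨_, (a.pl (Nat.zero_le k) h2).mono ((sg_mono le_rfl h2).trans d)⟩
  · exact ⟨_, ((a.pl (Nat.zero_le n) le_rfl).snoc ha hm).mono (Set.insert_subset hz d)⟩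

/-- A set that is closed under adjacency inside `U` contains the reachable set. -/
lemma RS.closed {C : Set V} (hx : x ∈ C) (hC : ∀ a ∈ C, ∀ b ∈ U, G.Adj a b → b ∈ C) :
    RS G U x ⊆ C := by
  rintro y ⟨n, p, a, rfl, rfl, d⟩
  have : ∀ k, k ≤ n → p k ∈ C := fun k => by
    induction k with
    | zero => exact fun _ => hx
    | succ k ih => exact fun hk => hC _ (ih (by omega)) _ (d _ hk) (a.adj k hk)
  exact this n le_rfl

lemma RS.trans (h : y ∈ RS G U x) (h' : z ∈ RS G U y) : z ∈ RS G U x :=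
  RS.closed h (fun _ ha _ hb e => RS.step ha e hb) h'

/-- The path to a reachable vertex stays in the reachable set. -/
lemma RS.pl (h : y ∈ RS G U x) : ∃ n, PL G (RS G U x) x y n := by
  obtain ⟨n, h⟩ := h
  obtain ⟨p, a, rfl, rfl, d⟩ := h.str
  exact ⟨n, p, a, rfl, rfl, fun k hk =>
    ⟨_, (a.pl (Nat.zero_le k) hk).mono ((sg_mono le_rfl hk).trans d)⟩⟩

lemma Cb.four (h : Cb G) {a b c d : V} (h₁ : G.Adj v a) (h₂ : G.Adj v b) (h₃ : G.Adj v c)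
    (h₄ : G.Adj v d) : a = b ∨ a = c ∨ a = d ∨ b = c ∨ b = d ∨ c = d := by
  obtain ⟨x, y, z, -, -, -, h⟩ := h v
  rw [h] at h₁ h₂ h₃ h₄
  grind

lemma Cb.third (h : Cb G) {a b : V} (h₁ : G.Adj v a) (h₂ : G.Adj v b) (hab : a ≠ b) :
    ∃ c, G.Adj v c ∧ c ≠ a ∧ c ≠ b ∧ ∀ x, G.Adj v x → x = a ∨ x = b ∨ x = c := by
  obtain ⟨x, y, z, e₁, e₂, e₃, h⟩ := h v
  simp only [h] at h₁ h₂ ⊢
  by_cases hx : x ≠ a ∧ x ≠ b
  · exact ⟨x, by grind⟩
  by_cases hy : y ≠ a ∧ y ≠ b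
  · exact ⟨y, by grind⟩
  exact ⟨z, by grind⟩

lemma No2.mono (h : No2 G W) (hU : U ⊆ W) : No2 G U := fun Y hY => h Y (hY.trans hU)

lemma Out.mono {L L' : List (V × V)} (h : Out G Y L)
    (hL : ∀ x ∈ Y, ∀ y, y ∉ Y → G.Adj x y → (x, y) ∈ L → (x, y) ∈ L') : Out G Y L' :=
  fun x a y b c => hL x a y b c (h x a y b c)

lemma le1_self (h : T.Nonempty) : Le1 G T T :=
  let ⟨x, _⟩ := h; ⟨(x, x), fun _ _ _ a b => absurd a b⟩

lemma DRt.swapL {a₁ a₂ b₁ b₂ : V} (h : DRt G W a₁ a₂ b₁ b₂ n) : DRt G W a₂ a₁ b₁ b₂ n := by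
  obtain ⟨U₁, U₂, n₁, n₂, a, b, c, d, e⟩ := h
  exact ⟨U₂, U₁, n₂, n₁, b, a, c.symm, by omega, e.symm.imp And.symm And.symm⟩

lemma DRt.swapR {a₁ a₂ b₁ b₂ : V} (h : DRt G W a₁ a₂ b₁ b₂ n) : DRt G W a₁ a₂ b₂ b₁ n := by
  obtain ⟨U₁, U₂, n₁, n₂, a, b, c, d, e⟩ := h
  exact ⟨U₁, U₂, n₁, n₂, a, b, c, d, e.symm⟩

end Pool.Agent.P.MP_bb4f54_co.T4
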