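import Pool.Agent.P.MP_bb4f54_co.T4.IfaceB
import Pool.Agent.P.MP_bb4f54_co.T3.Iface8

/-! Statements: a big link; the reduction. -/

set_option autoImplicit false
set_option linter.unusedSectionVars false

namespace Pool.Agent.P.MP_bb4f54_co.T4

open Finset
open Pool.Agent.P.MP_bb4f54_co.T3

section defs

variable {V : Type} [Fintype V] [DecidableEq V]

/-- The edges at `A` and two turning paths. -/
noncomputable def Om (G : SimpleGraph V) (A : Set V) (p q : ℕ → V) (n m : ℕ) : Finset (Sym2 V) :=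
  tch id (EG G) A ∪ ES p 0 n ∪ ES q 0 m

/-- A link with its turning paths. -/
structure OC (G : SimpleGraph V) (A : Set V) (p q : ℕ → V) (n m : ℕ) (v₁ v₂ w₁ w₂ : V) :
    Prop where
  cb : Cb G
  no2 : No2 G A
  sp : Str G p n
  sq : Str G q m
  pA : Disjoint (sg p 0 n) A
  qA : Disjoint (sg q 0 m) A
  pq : Disjoint (sg p 0 n) (sg q 0 m)
  p4 : P4 G A v₁ (p 0) v₂ (p n) w₁ (q 0) w₂ (q m)
  nv : (v₁, p 0) ≠ (v₂, p n)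
  nw : (w₁, q 0) ≠ (w₂, q m)
  pr : ∀ Y ⊆ A, v₁ ∈ Y → v₂ ∈ Y → w₁ ∉ Y → w₂ ∉ Y → ∀ e₁ e₂ : V × V,
    ¬ ∀ a ∈ Y, ∀ b ∈ A, b ∉ Y → G.Adj a b → (a, b) = e₁ ∨ (a, b) = e₂

end defs

-- deps:
/-- Lists of edges and cuts. -/
def S_BR4 : Prop := ∀ {V : Type} [Fintype V] [DecidableEq V] (G : SimpleGraph V),
  (∀ (Y : Set V) (L : List (V × V)), Out G Y L → (cut id (EG G) Y).card ≤ L.length) ∧
    (Cb G → N2 G → G3 G)

-- deps: OT POT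
/-- The dichotomy inside a set with few leaving edges. -/
def S_DIA4 : Prop := ∀ K g n₀ : ℕ, ∃ s q N : ℕ, ∀ {V : Type} [Fintype V] [DecidableEq V]
  (G : SimpleGraph V) [DecidableRel G.Adj] (A : Finset V), (∀ v, dg G univ v ≤ 3) → N ≤ A.card →
    ot G A ≤ 4 →
    (∃ X ⊆ A, n₀ ≤ X.card ∧ Exp G X (48 * (K + 1)) ∧ g * ot G X ≤ X.card) ∨
    ∃ I : Finset (Finset V), (∀ S ∈ I, S ⊆ A ∧ S.Nonempty ∧ S.card ≤ s ∧ K * ot G S ≤ S.card) ∧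
      (∀ S ∈ I, ∀ S' ∈ I, S ≠ S' → Disjoint S S') ∧ A.card ≤ q * I.card

-- deps:
/-- Only the edges inside `X` matter. -/
def S_TRF : Prop := ∀ {V : Type} [Fintype V] [DecidableEq V] (G G' : SimpleGraph V)
  (X : Finset V), (∀ a ∈ X, ∀ b ∈ X, G.Adj a b → G'.Adj a b) →
    (∀ B k, Conn G X B k → Conn G' X B k) ∧ ∀ K D r, HO G X K D r → HO G' X K D r

-- deps: BRG DIA4 CONN SML GROW HOC NUM WIN TRF
/-- Many cycle lengths inside `A`, or many small sparse regions inside `A`. -/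
def S_SEA : Prop := ∀ K C : ℕ, ∃ N s q : ℕ, ∀ {V : Type} [Fintype V] [DecidableEq V]
  (G G' : SimpleGraph V) (A : Finset V), G3 G → N ≤ A.card → (cut id (EG G) ↑A).card ≤ 4 →
    (∀ a ∈ A, ∀ b ∈ A, G.Adj a b → G'.Adj a b) →
    (∃ L, 3 ≤ L ∧ ∀ j, j ≤ C * (Nat.sqrt L + 1) → HasC G' (L + 2 * j)) ∨
    ∃ I : Finset (Finset V), (∀ S ∈ I, S ⊆ A ∧ S.Nonempty ∧ S.card ≤ s ∧
      K * (cut id (EG G) ↑S).card ≤ S.card) ∧
      (∀ S ∈ I, ∀ S' ∈ I, S ≠ S' → Disjoint S S') ∧ A.card ≤ q * I.card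

-- deps: EW WLK MULT ARI0 ARI1
/-- Many gadgets give a progression. -/
def S_PRA : Prop := ∀ C s q : ℕ, ∃ N : ℕ, ∀ {V κ : Type} [Fintype V] [DecidableEq V]
  [DecidableEq κ] (G : SimpleGraph V) (Ω Γ : Finset (Sym2 V)) (J : Finset κ)
  (F : κ → Finset (Sym2 V)) (c : κ → Sym2 V) (n : ℕ), N ≤ n → Ω.card ≤ n → Ω ⊆ EG G → Γ ⊆ Ω →
    TC id Γ → n ≤ q * J.card → (∀ i ∈ J, ∀ j ∈ J, i ≠ j → Disjoint (F i) (F j)) →
    (∀ i ∈ J, (F i).card ≤ s ∧ c i ∈ Γ ∧ T3.Gad Ω Γ (F i) (c i)) →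
      ∃ L, 3 ≤ L ∧ ∀ j, j ≤ C * (Nat.sqrt L + 1) → HasC G (L + 2 * j)

-- deps: SEA INT ITER MAJ PRA SQ
/-- A square cycle inside `Ω`. -/
def S_MAA : Prop := ∃ N : ℕ, ∀ {V : Type} [Fintype V] [DecidableEq V] (G G' : SimpleGraph V)
  (A : Finset V) (Ω : Finset (Sym2 V)), G3 G → N ≤ A.card → A ≠ univ →
    (cut id (EG G) ↑A).card ≤ 4 → Ω ⊆ EG G → Ω ⊆ EG G' → TC id Ω →
    (∀ e ∈ EG G, (∃ u ∈ e, u ∈ A) → e ∈ Ω) → Ω.card ≤ 5 * A.card → Pw G'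

-- deps:
/-- Degrees and size. -/
def S_TCD : Prop := ∀ {V : Type} [Fintype V] [DecidableEq V] (G : SimpleGraph V) (A : Set V)
  (p q : ℕ → V) (n m : ℕ) (v₁ v₂ w₁ w₂ : V), OC G A p q n m v₁ v₂ w₁ w₂ →
    Om G A p q n m ⊆ EG G ∧ (∀ v ∈ A, dgr id (Om G A p q n m) v = 3) ∧
    (∀ v, v ∈ sg p 0 n ∨ v ∈ sg q 0 m → dgr id (Om G A p q n m) v = 2) ∧
    ∀ v, v ∉ A → v ∉ sg p 0 n → v ∉ sg q 0 m → dgr id (Om G A p q n m) v = 0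

-- deps:
/-- The number of edges. -/
def S_TCN : Prop := ∀ {V : Type} [Fintype V] [DecidableEq V] (G : SimpleGraph V) (A : Set V)
  (p q : ℕ → V) (n m : ℕ), Cb G → (Om G A p q n m).card ≤ 3 * A.ncard + n + m

-- deps:
/-- A path from `Y` to its complement has an edge in the cut. -/
def S_TCP : Prop := ∀ {V : Type} [DecidableEq V] (Γ : Finset (Sym2 V)) (p : ℕ → V) (n : ℕ)
  (a : V) (Y : Set V), s(a, p 0) ∈ Γ → ES p 0 n ⊆ Γ →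
    (∀ i, i ≤ n → (a ∈ Y ↔ p i ∉ Y) → ∃ e ∈ cut id Γ Y, ∃ u ∈ e, u ∈ sg p 0 n) ∧
    ∀ a', s(a', p n) ∈ Γ → (a ∈ Y ↔ a' ∉ Y) → ∃ e ∈ cut id Γ Y, ∃ u ∈ e, u ∈ sg p 0 n

-- deps: TCP
/-- Three edges leave every set that splits the link. -/
def S_TC3 : Prop := ∀ {V : Type} [Fintype V] [DecidableEq V] (G : SimpleGraph V) (A : Set V)
  (p q : ℕ → V) (n m : ℕ) (v₁ v₂ w₁ w₂ : V), OC G A p q n m v₁ v₂ w₁ w₂ →
    ∀ Y : Set V, (∃ v ∈ A, v ∈ Y) → (∃ v ∈ A, v ∉ Y) → 3 ≤ (cut id (Om G A p q n m) Y).card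

-- deps: TCD TCP TC3
/-- The link with its turning paths is a subdivision. -/
def S_TCA : Prop := ∀ {V : Type} [Fintype V] [DecidableEq V] (G : SimpleGraph V) (A : Set V)
  (p q : ℕ → V) (n m : ℕ) (v₁ v₂ w₁ w₂ : V), OC G A p q n m v₁ v₂ w₁ w₂ → TC id (Om G A p q n m)

-- deps: MEM LK4
/-- The setting of a link. -/
def S_OCX : Prop := ∀ {V : Type} [Fintype V] [DecidableEq V] (G : SimpleGraph V) (x y : V)
  (X X' : Set V) (n m : ℕ), Cb G → N2 G → Mem G x y X → Mem G x y X' → X ⊂ X' →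
    (∀ Z, Mem G x y Z → X ⊆ Z → Z ⊆ X' → Z = X ∨ Z = X') → TP G x y X n → TP G y x X'ᶜ m →
      ∃ p q v₁ v₂ w₁ w₂, OC G (X' \ X) p q n m v₁ v₂ w₁ w₂ ∧ s(x, y) ∉ Om G (X' \ X) p q n m

-- deps: BR4 MAA TCD TCN TCA OCX
/-- A big link. -/
def S_BIG : Prop := ∃ N : ℕ, ∀ {V : Type} [Fintype V] (G : SimpleGraph V) (x y : V)
  (X X' : Set V) (n m : ℕ), Cb G → N2 G → Mem G x y X → Mem G x y X' → X ⊂ X' →
    N < (X' \ X).ncard → (∀ Z, Mem G x y Z → X ⊆ Z → Z ⊆ X' → Z = X ∨ Z = X') → TP G x y X n →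
    TP G y x X'ᶜ m → n ≤ (X' \ X).ncard → m ≤ (X' \ X).ncard → Pw (G.deleteEdges {s(x, y)})

-- deps: SMA GAP BIG
/-- A square cycle that avoids a given edge. -/
def S_T4M : Prop := ∃ N : ℕ, ∀ {V : Type} [Fintype V] (G : SimpleGraph V) (x y : V),
  Cb G → N2 G → G.Adj x y → N ≤ Fintype.card V → Pw (G.deleteEdges {s(x, y)})

-- deps:
/-- A minimal set with at most two leaving edges. -/
def S_RD1 : Prop := ∀ {V : Type} (G : SimpleGraph V) (X : Set V) (e₁ e₂ : V × V), Cb G →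
  X.Nonempty → Out G X [e₁, e₂] → (∀ Y ⊂ X, Y.Nonempty → ∀ f₁ f₂, ¬ Out G Y [f₁, f₂]) →
    ∃ x ∈ X, ∃ y ∈ X, x ≠ y ∧ ((G.Adj x y ∧ Out G X []) ∨
      (¬ G.Adj x y ∧ ∃ x' y', x' ∉ X ∧ y' ∉ X ∧ G.Adj x x' ∧ G.Adj y y' ∧
        Out G X [(x, x'), (y, y')]))

-- deps:
/-- The graph on the minimal set. -/
def S_RD2 : Prop := ∀ {V : Type} (G : SimpleGraph V) (X : Set V) (x y : X), Cb G → x ≠ y →
  (∀ Y ⊂ X, Y.Nonempty → ∀ f₁ f₂, ¬ Out G Y [f₁, f₂]) →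
  ((G.Adj x y ∧ Out G X []) ∨ (¬ G.Adj x y ∧ ∃ x' y', x' ∉ X ∧ y' ∉ X ∧ G.Adj x x' ∧ G.Adj y y' ∧
    Out G X [(↑x, x'), (↑y, y')])) →
    Cb (G.induce X ⊔ SimpleGraph.edge x y) ∧ N2 (G.induce X ⊔ SimpleGraph.edge x y)

-- deps: T4M RD1 RD2
/-- The reduction. -/
def S_FRC : Prop := ∃ N : ℕ, ∀ (V : Type) [Fintype V] [DecidableEq V] [Nonempty V] (G : SimpleGraph V) [DecidableRel G.Adj], (∀ v, G.degree v = 3) → (∃ a : ℕ, 2 ≤ a ∧ ∃ (v : V) (c : G.Walk v v), c.IsCycle ∧ c.length = a ^ 2) ∨ ∃ X : Finset V, X.Nonempty ∧ X.card ≤ N ∧ (G.interedges X Xᶜ).card ≤ 2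

end Pool.Agent.P.MP_bb4f54_co.T4
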